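import Pool.Agent.U647.GB.Surf
import Pool.Agent.U647.AF.Fin

/-!
# Affine surfaces over complex tori: number fields
-/

set_option autoImplicit false

open Filter Topology MvPolynomial LinearAlgebra.Projectivization IsDedekindDomain NumberField

namespace Pool.Agent.U647.GB

open Pool.Agent.U647.AF
open Pool.Agent.W602.GT (IsForm val Cone SubVar coords VarPts)
open Pool.Agent.N154.TB (Zeros CurveIn IsConst BrodyHyp)
open Pool.Agent.TH143.HE (gm IsPt GmCurvesIn extI isPt_iff)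
open Pool.Agent.Results.MP_e97a4d_nt.HolonomicEquivalence (CondI CondII CondIHol CondIIHol CondIIPer)

variable {n : ℕ} {F : Set (MvPolynomial (Fin (n + 1)) ℂ)}

variable {R : Type} [CommRing R] {φ : R →+* ℂ} {I I' : Ideal (MvPolynomial (Fin n) R)}

/-- the forms vanishing on `V'` -/
def VForms (φ : R →+* ℂ) (I' : Ideal (MvPolynomial (Fin n) R)) :
    Set (MvPolynomial (Fin (n + 1)) ℂ) :=
  {H | IsForm H ∧ ∀ x : Fin n → ℂ, IsPt φ I' x → val (Fin.cons 1 x : Fin (n + 1) → ℂ) H = 0}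

theorem gmIn_of (hFI : ∀ x : Fin n → ℂ, (Fin.cons 1 x : Fin (n + 1) → ℂ) ∈ Aff F ↔ IsPt φ I x)
    (hgm : GmCurvesIn φ I I') : GmIn F (VForms φ I') := by
  intro l p h1 h2 u hu i
  exact i.2.2 _ (hgm l p (fun v hv => (hFI _).1 (h1 v hv)) h2 u hu)

/-- **Affine surfaces over complex tori**: entire curves lie in `V'` if the images of `G_m` do. -/
theorem condI_of (hF : ∀ G ∈ F, IsForm G) (hT : SurfacesOverTori F)
    (hFI : ∀ x : Fin n → ℂ, (Fin.cons 1 x : Fin (n + 1) → ℂ) ∈ Aff F ↔ IsPt φ I x)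
    (hgm : GmCurvesIn φ I I') {f : ℂ → Fin n → ℂ} (hf : ∀ j, Differentiable ℂ (fun z => f z j))
    (hI : ∀ z, IsPt φ I (f z)) (hne : ∃ z z', f z ≠ f z') (z : ℂ) : IsPt φ I' (f z) := by
  obtain ⟨z1, z2, hne⟩ := hne
  obtain ⟨g, hg, hgf⟩ := proj_curve hF hf fun z => (hFI _).2 (hI z)
  have hh0 : ∀ z, (g z).rep 0 ≠ 0 := fun z => (hg.2 z).2
  have hgnc : ¬ IsConst g := fun hc => hne ((const_iff hh0 hgf).1 hc z1 z2)
  have hmain := curves_in hF hT (E := VForms φ I') (fun G hG => hG.1) (gmIn_of hFI hgm) hg hgnc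
  rw [isPt_iff]
  intro G hG
  have hmem : hmg G ∈ VForms φ I' := by
    refine ⟨⟨_, hmg_form G⟩, fun x hx => ?_⟩
    rw [isPt_iff] at hx
    change aeval _ (hmg G) = 0
    rw [hmg_aeval (by rw [Fin.cons_zero]; exact one_ne_zero)]
    have h9 : (fun j : Fin n => (Fin.cons 1 x : Fin (n + 1) → ℂ) j.succ /
        (Fin.cons 1 x : Fin (n + 1) → ℂ) 0) = x := by
      funext j
      rw [Fin.cons_succ, Fin.cons_zero, div_one]
    rw [h9, aeval_eq_eval]
    change _ * eval x G = 0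
    rw [hx G hG, mul_zero]
  have h8 := hmain z ⟨_, hmem⟩
  change aeval (g z).rep (hmg G) = 0 at h8
  rw [hmg_aeval (hh0 z)] at h8
  have h9 : (fun j : Fin n => (g z).rep j.succ / (g z).rep 0) = f z := by
    funext j
    have h10 := congrFun (hgf z) j.succ
    rw [Fin.cons_succ, Pi.smul_apply, smul_eq_mul] at h10
    rw [h10, div_eq_inv_mul]
  rw [h9, aeval_eq_eval] at h8
  exact (mul_eq_zero.1 h8).resolve_left (pow_ne_zero _ (hh0 z))

/-- **Affine surfaces over complex tori** -/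
theorem ari {F₀ : Type} [Field F₀] [NumberField F₀] (ε : F₀ →+* ℂ)
    (I I' : Ideal (MvPolynomial (Fin n) (𝓞 F₀))) (hF : ∀ G ∈ F, IsForm G)
    (hFI : ∀ x : Fin n → ℂ, (Fin.cons 1 x : Fin (n + 1) → ℂ) ∈ Aff F ↔
      IsPt (ε.comp (algebraMap (𝓞 F₀) F₀)) I x) (hT : SurfacesOverTori F) :
    [CondI ε I I', GmCurvesIn (ε.comp (algebraMap (𝓞 F₀) F₀)) I I', CondIIHol I I',
      CondIIPer I I'].TFAE ∧ (CondII I I' → CondI ε I I') := by
  have hol := Pool.Agent.Results.MP_e97a4d_nt.HolonomicEquivalence.result ε I I'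
  have hhg : CondIHol ε I I' → GmCurvesIn (ε.comp (algebraMap (𝓞 F₀) F₀)) I I' :=
    (hol.1.out 0 3).1
  have h12 : CondI ε I I' → CondIHol ε I I' := fun h f h1 _ h2 h3 => h f h1 h2 h3
  have hgm : GmCurvesIn (ε.comp (algebraMap (𝓞 F₀) F₀)) I I' → CondI ε I I' :=
    fun h f h1 h2 h3 z => condI_of hF hT hFI h h1 h2 h3 z
  refine ⟨?_, fun h => hgm (hhg (hol.2.2 h))⟩
  tfae_have 1 → 2 := fun h => hhg (h12 h)
  tfae_have 2 → 1 := hgm
  tfae_have 2 → 3 := (hol.1.out 3 1).1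
  tfae_have 3 → 4 := (hol.1.out 1 2).1
  tfae_have 4 → 2 := (hol.1.out 2 3).1
  tfae_finish

end Pool.Agent.U647.GB
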