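import Pool.Agent.U647.GB.Gd

/-!
# The points over finitely many points of the torus, and gradient bounds outside them
-/

set_option autoImplicit false

open Filter Topology Metric Set

namespace Pool.Agent.U647.GB

open Pool.Agent.Y190.OP Pool.Agent.N155
open Pool.Agent.N154.TC

variable {N m : ℕ} {Z B : Set (Mat N)} {o : Fin N} {Λ : AddSubgroup (Fin m → ℂ)}
  {a : Mat N → Fin m → ℂ} {D : Finset (Fin m → ℂ)} {δ : ℝ} {β α : Fin m → ℂ}

/-- the points over `D` -/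
def NN (Λ : AddSubgroup (Fin m → ℂ)) (D : Finset (Fin m → ℂ)) (β α : Fin m → ℂ) : Set ℂ :=
  {z | ∃ d ∈ D, β + z • α - d ∈ Λ}

/-- the part outside the hyperplane -/
def Vo (Z : Set (Mat N)) (o : Fin N) : Set (Mat N) := {M | M ∈ Z ∧ M o o ≠ 0}

theorem notMem_NN {z : ℂ} : z ∉ NN Λ D β α ↔ ∀ d ∈ D, β + z • α - d ∉ Λ := by
  unfold NN
  rw [Set.mem_ofPred_eq]
  push Not
  rfl

theorem lattice_small (hT : TV Z Λ a) (hα : α ≠ 0) : ∃ r > 0, ∀ z w : ℂ, ‖z - w‖ < r →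
    (z - w) • α ∈ Λ → z = w := by
  obtain ⟨δ, hδ, hd⟩ := hT.disc
  have hα' : 0 < ‖α‖ := norm_pos_iff.2 hα
  refine ⟨δ / ‖α‖, by positivity, fun z w h1 h2 => ?_⟩
  have h3 := hd _ h2 (by
    rw [norm_smul]
    calc ‖z - w‖ * ‖α‖ < δ / ‖α‖ * ‖α‖ := mul_lt_mul_of_pos_right h1 hα'
      _ = δ := by field_simp)
  rw [smul_eq_zero] at h3
  exact sub_eq_zero.1 (h3.resolve_right hα)

theorem NN_fin (hT : TV Z Λ a) (hα : α ≠ 0) : ∃ r > 0, ∀ z0 : ℂ,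
    (NN Λ D β α ∩ ball z0 r).Finite := by
  obtain ⟨r, hr, h⟩ := lattice_small hT hα
  refine ⟨r / 2, by positivity, fun z0 => ?_⟩
  have h1 : (NN Λ D β α ∩ ball z0 (r / 2)) ⊆
      ⋃ d ∈ D, {z : ℂ | z ∈ ball z0 (r / 2) ∧ β + z • α - d ∈ Λ} := by
    rintro z ⟨⟨d, hd, hd'⟩, hz⟩
    exact mem_biUnion hd ⟨hz, hd'⟩
  refine (D.finite_toSet.biUnion fun d _ => ?_).subset h1
  apply Set.Subsingleton.finite
  rintro z ⟨hz, hz'⟩ w ⟨hw, hw'⟩
  apply h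
  · rw [mem_ball, dist_eq_norm] at hz hw
    have h2 := norm_sub_le (z - z0) (w - z0)
    rw [sub_sub_sub_cancel_right] at h2
    linarith
  · have h2 := Λ.sub_mem hz' hw'
    have e : β + z • α - d - (β + w • α - d) = (z - w) • α := by
      rw [sub_smul]
      abel
    rwa [e] at h2

theorem NN_punct (hT : TV Z Λ a) (hα : α ≠ 0) (z0 : ℂ) : ∃ r > 0, ∀ w ∈ ball z0 r, w ≠ z0 →
    w ∉ NN Λ D β α := by
  obtain ⟨r, hr, h⟩ := NN_fin (D := D) (β := β) hT hα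
  have h1 : ((NN Λ D β α ∩ ball z0 r) \ {z0}).Finite := (h z0).subset diff_subset
  have h2 : ((NN Λ D β α ∩ ball z0 r) \ {z0})ᶜ ∈ 𝓝 z0 :=
    h1.isClosed.isOpen_compl.mem_nhds fun h => h.2 rfl
  obtain ⟨ε, hε, hs⟩ := Metric.mem_nhds_iff.1 h2
  refine ⟨min ε r, lt_min hε hr, fun w hw hne hw' => ?_⟩
  exact hs (ball_subset_ball (min_le_left _ _) hw) ⟨⟨hw', ball_subset_ball (min_le_right _ _) hw⟩,
    hne⟩

theorem NN_countable (hT : TV Z Λ a) (hα : α ≠ 0) : (NN Λ D β α).Countable := by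
  obtain ⟨r, hr, h⟩ := NN_fin (D := D) (β := β) hT hα
  obtain ⟨s, hs, hs'⟩ := TopologicalSpace.countable_cover_nhds
    (f := fun z : ℂ => ball z r) (fun z => ball_mem_nhds z hr)
  have h1 : NN Λ D β α ⊆ ⋃ z ∈ s, (NN Λ D β α ∩ ball z r) := by
    intro w hw
    have h2 : w ∈ ⋃ z ∈ s, ball z r := by
      rw [hs']
      exact mem_univ w
    obtain ⟨z, hz, hz'⟩ := mem_iUnion₂.1 h2
    exact mem_biUnion hz ⟨hw, hz'⟩
  exact (hs.biUnion fun z _ => (h z).countable).mono h1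

theorem NN_conn (hT : TV Z Λ a) (hα : α ≠ 0) : IsPreconnected (NN Λ D β α)ᶜ := by
  refine (Set.Countable.isConnected_compl_of_one_lt_rank ?_ (NN_countable hT hα)).isPreconnected
  rw [Complex.rank_real_complex]
  exact Nat.one_lt_ofNat

theorem NN_closed (hT : TV Z Λ a) : IsClosed (NN Λ D β α) := by
  rw [← isOpen_compl_iff, isOpen_iff_mem_nhds]
  intro z hz
  obtain ⟨δ, hδ, hF⟩ := exists_far hT (notMem_NN.1 hz)
  have hc : Continuous fun w : ℂ => ‖β + w • α - (β + z • α)‖ := by fun_prop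
  have h1 : ∀ᶠ w in 𝓝 z, ‖β + w • α - (β + z • α)‖ < δ / 2 := by
    have h2 := hc.tendsto z
    simp only [sub_self, norm_zero] at h2
    exact h2.eventually_lt_const (by positivity)
  filter_upwards [h1] with w hw
  exact notMem_NN.2 ((hF.near (δ' := δ / 2) (by linarith)).notMem (by positivity))

/-- the curves are far from `D`, near the points which are not over `D` -/
theorem far_loc (hT : TV Z Λ a) {𝓤 : Ultrafilter ℕ} {φ : ℕ → ℂ → Fin m → ℂ}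
    (hc : CConv (𝓤 : Filter ℕ) univ φ fun z => β + z • α) {z : ℂ} (hz : z ∉ NN Λ D β α) :
    ∃ ρ > 0, ∃ δ > 0, ∀ᶠ k in (𝓤 : Filter ℕ), ∀ w ∈ ball z ρ, Far Λ D δ (φ k w) ∧
      ‖φ k w - (β + z • α)‖ ≤ 1 := by
  obtain ⟨δ, hδ, hF⟩ := exists_far hT (notMem_NN.1 hz)
  have h1 := Metric.tendsto_nhds.1 (hc z (mem_univ z)) (min (δ / 2) 1) (by positivity)
  rw [eventually_prod_iff] at h1
  obtain ⟨pa, hpa, pb, hpb, hab⟩ := h1
  obtain ⟨ρ, hρ, hρs⟩ := Metric.mem_nhds_iff.1 hpb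
  refine ⟨ρ, hρ, δ / 2, by positivity, ?_⟩
  filter_upwards [hpa] with k hk w hw
  have h2 := hab hk (hρs hw)
  rw [dist_eq_norm] at h2
  have h3 := h2.le.trans (min_le_left _ _)
  exact ⟨hF.near (by linarith), h2.le.trans (min_le_right _ _)⟩

/-- **Gradient bounds** near the points which are not over `D` -/
theorem grad_loc (gd : GD Z B o Λ a D) {𝓤 : Ultrafilter ℕ} {h : ℕ → ℂ → Mat N}
    {φ : ℕ → ℂ → Fin m → ℂ} (hd : ∀ L : ℝ, ∀ᶠ k in (𝓤 : Filter ℕ), Dsc (Vo Z o) Λ a 0 L (h k) (φ k))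
    (hc : CConv (𝓤 : Filter ℕ) univ φ fun z => β + z • α) {z : ℂ} (hz : z ∉ NN Λ D β α) :
    ∃ r > 0, ∃ K : ℝ, ∀ᶠ k in (𝓤 : Filter ℕ), HolP (ball z r) (h k) ∧
      (∀ w ∈ ball z r, h k w ∈ Vo Z o) ∧ ∀ w ∈ ball z r, ‖fderiv ℝ (h k) w‖ ≤ K := by
  obtain ⟨ρ, hρ, δ, hδ, hF⟩ := far_loc gd.tv hc hz
  obtain ⟨C, hC, hgr⟩ := gradient_l (gd.tvd hδ) (gd.fibd hδ)
  refine ⟨ρ / 2, by positivity, C * (4 / ρ), ?_⟩
  filter_upwards [hF, hd (‖z‖ + ρ)] with k hk hk'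
  have hsub : ball z ρ ⊆ ball (0 : ℂ) (‖z‖ + ρ) := by
    apply ball_subset_ball'
    rw [dist_zero_right]
    linarith
  have h1 := hk'.mono hsub
  have h2 : Dsc (Td Z o Λ a D δ) Λ a z ρ (h k) (φ k) := by
    refine ⟨h1.hol, fun w hw => ⟨(h1.mem w hw).1, (h1.mem w hw).2, ?_⟩, h1.dif, h1.ov⟩
    refine (hk w hw).1.of_sub ?_
    have h3 := Λ.neg_mem (h1.ov w hw)
    rwa [neg_sub] at h3
  have hs2 : ball z (ρ / 2) ⊆ ball z ρ := ball_subset_ball (by linarith)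
  refine ⟨h1.hol.mono hs2, fun w hw => h1.mem w (hs2 hw), fun w hw => ?_⟩
  have hsw : ball w (ρ / 2) ⊆ ball z ρ := by
    apply ball_subset_ball'
    have := mem_ball.1 hw
    linarith
  have h3 := hgr (h k) (φ k) w (ρ / 2) (by positivity) (h2.mono hsw)
  have h4 : sv (φ k) w ≤ 1 / (ρ / 4) := by
    refine sv_le_of_bound_l (R := ρ / 2) (h2.dif.mono hsw) (c := β + z • α) (by positivity)
      (by linarith) fun x hx => ?_
    refine (hk x (hsw ?_)).2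
    rw [mem_sphere] at hx
    rw [mem_ball, hx]
    linarith
  refine h3.trans (mul_le_mul_of_nonneg_left (max_le (h4.trans (le_of_eq ?_)) ?_) hC.le)
  · field_simp
  · rw [one_div_div, div_le_div_iff_of_pos_right hρ]
    norm_num

end Pool.Agent.U647.GB
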