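import Pool.Agent.U647.GB.Tfa

/-!
# Brody hyperbolic affine surfaces over complex tori
-/

set_option autoImplicit false

open Filter Topology MvPolynomial LinearAlgebra.Projectivization

namespace Pool.Agent.U647.GB

open Pool.Agent.U647.AF
open Pool.Agent.W602.GT (IsForm val Cone SubVar coords VarPts LogGeneralType)
open Pool.Agent.N154.TB (Zeros CurveIn IsConst BrodyHyp)
open Pool.Agent.N154.TT (HolToTorus)
open Pool.Agent.TH143.HE (gm)
open Pool.Agent.W603.GR (OffQ)
open Pool.Agent.V1153.UG (GmBdd GmThin GmRuled)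

variable {n : ℕ} {K : Type} [Field K] [Algebra ℂ K] {y : Fin (n + 1) → K}

/-- Affine curves which are not of log general type are images of `G_m`. -/
theorem exists_gm (hy0 : y 0 ≠ 0) (hgen : coords ℂ y = ⊤) (hw : Algebra.trdeg ℂ K = (1 : ℕ))
    (hnl : ¬ LogGeneralType ℂ K 1 (OffQ (X 0 : MvPolynomial (Fin (n + 1)) ℂ) 1 y)) :
    ∃ (l : ℕ) (p : Fin n → Polynomial ℂ),
      (∀ u : ℂ, u ≠ 0 → (Fin.cons 1 (gm l p u) : Fin (n + 1) → ℂ) ∈ Aff (Van y)) ∧
      ∃ u : ℂ, u ≠ 0 ∧ gm l p u ≠ gm l p 1 := by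
  obtain ⟨t, m, q, ht, hq⟩ := exists_t hy0 hgen hw hnl
  have ht0 : t ≠ 0 := by
    rintro rfl
    exact ht isAlgebraic_zero
  have hinj : ∀ a b : Polynomial ℂ, Polynomial.aeval t a = Polynomial.aeval t b → a = b :=
    fun a b hab => (transcendental_iff_injective.1 ht) hab
  obtain ⟨P, hP⟩ : ∃ P : Fin (n + 1) → Polynomial ℂ, P = gmP m fun j => q j.succ := ⟨_, rfl⟩
  have hPt : ∀ j, Polynomial.aeval t (P j) = (t ^ m / y 0) * y j := by
    intro j
    rw [hP]
    unfold gmP
    refine Fin.cases ?_ (fun j => ?_) j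
    · rw [Fin.cons_zero, map_pow, Polynomial.aeval_X]
      field_simp
    · rw [Fin.cons_succ, ← hq j.succ]
      ring
  have hPG : ∀ H ∈ Van y, aeval P H = 0 := by
    rintro H ⟨⟨d, hd⟩, hH⟩
    have h1 : Polynomial.aeval t (aeval P H) = (t ^ m / y 0) ^ d * val y H := by
      rw [MvPolynomial.comp_aeval_apply]
      have h2 : (fun j => Polynomial.aeval t (P j)) = fun j => (t ^ m / y 0) * y j := by
        funext j
        exact hPt j
      change aeval (fun j => Polynomial.aeval t (P j)) H = _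
      rw [h2, aeval_smul2 hd]
      rfl
    rw [hH, mul_zero] at h1
    apply hinj
    rw [h1, map_zero]
  refine ⟨m, fun j => q j.succ, fun u hu => ?_, ?_⟩
  · refine ⟨⟨fun h0 => ?_, fun i => ?_⟩, ?_⟩
    · have := congrFun h0 0
      rw [Fin.cons_zero] at this
      exact one_ne_zero this
    · change val _ i.1 = 0
      rw [val_gm hu i.2.1, ← hP, hPG _ i.2, Polynomial.eval_zero]
    · rw [Fin.cons_zero]
      exact one_ne_zero
  · by_contra hcon
    push Not at hcon
    obtain ⟨J, hJ, -⟩ := exists_J (gen_of_coords hy0 hgen) hw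
    apply hJ.transcendental 0
    have h1 := (Pool.Agent.TH143.HE.gm_const_iff m (fun j => q j.succ)).1 hcon (J 0)
    have h2 : q (J 0).succ = Polynomial.C ((q (J 0).succ).coeff m) * Polynomial.X ^ m := by
      ext i
      rw [Polynomial.coeff_C_mul, Polynomial.coeff_X_pow]
      by_cases hi : i = m
      · subst hi
        simp
      · rw [if_neg hi, mul_zero]
        exact h1 i hi
    have h3 := hq (J 0).succ
    rw [h2, map_mul, map_pow, Polynomial.aeval_X, Polynomial.aeval_C] at h3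
    change IsAlgebraic ℂ (y (J 0).succ / y 0)
    rw [mul_right_cancel₀ (pow_ne_zero m ht0) h3]
    exact isAlgebraic_algebraMap _

/-- The points of the affine variety `V` with generic point `y` (as a cone in homogeneous
coordinates). -/
def AffPts (y : Fin (n + 1) → K) : Set (Fin (n + 1) → ℂ) := {x | x ∈ VarPts ℂ y ∧ x 0 ≠ 0}

/-- For all points `x` there are only finitely many morphisms `φ` from `G_m` to the affine variety `V`
with `φ(1) = x`. -/
def PointedGmFinite (y : Fin (n + 1) → K) : Prop :=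
  ∀ x : Fin n → ℂ, {φ : ℂˣ → Fin n → ℂ | φ 1 = x ∧
    (∀ u, (Fin.cons 1 (φ u) : Fin (n + 1) → ℂ) ∈ AffPts y) ∧
    ∃ (l : ℕ) (p : Fin n → Polynomial ℂ), ∀ u, φ u = gm l p (u : ℂ)}.Finite

/-- All closed subvarieties of positive dimension of the affine variety `V` with generic point `y`
are of log general type. -/
def AllLogGeneral (y : Fin (n + 1) → K) : Prop :=
  ∀ (K1 : Type) [Field K1] [Algebra ℂ K1] (w : ℕ) (y1 : Fin (n + 1) → K1), 1 ≤ w → y1 0 ≠ 0 →
    coords ℂ y1 = ⊤ → Algebra.trdeg ℂ K1 = w →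
    (∀ G : MvPolynomial (Fin (n + 1)) ℂ, IsForm G → val y G = 0 → val y1 G = 0) →
    LogGeneralType ℂ K1 w (OffQ (X 0 : MvPolynomial (Fin (n + 1)) ℂ) 1 y1)

theorem affPts_eq (y : Fin (n + 1) → K) : AffPts y = Aff (Van y) := aff_eq y

/-- finitely many pointed morphisms -/
theorem no_gm_of_finite (h : PointedGmFinite y) {l : ℕ} {p : Fin n → Polynomial ℂ}
    (h1 : ∀ u : ℂ, u ≠ 0 → (Fin.cons 1 (gm l p u) : Fin (n + 1) → ℂ) ∈ AffPts y) :
    ∀ u : ℂ, u ≠ 0 → gm l p u = gm l p 1 := by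
  classical
  have hfin := h (gm l p 1)
  have hmem : ∀ k : ℕ, (fun u : ℂˣ => gm l p ((u : ℂ) ^ k)) ∈ {φ : ℂˣ → Fin n → ℂ | φ 1 = gm l p 1 ∧
      (∀ u, (Fin.cons 1 (φ u) : Fin (n + 1) → ℂ) ∈ AffPts y) ∧
      ∃ (l : ℕ) (p : Fin n → Polynomial ℂ), ∀ u, φ u = gm l p (u : ℂ)} := by
    intro k
    refine ⟨?_, fun u => h1 _ (pow_ne_zero _ u.ne_zero), k * l, fun j =>
      (p j).comp (Polynomial.X ^ k), fun u => ?_⟩
    · simp
    · funext j
      unfold Pool.Agent.TH143.HE.gm
      rw [Polynomial.eval_comp, Polynomial.eval_pow, Polynomial.eval_X, pow_mul]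
  have hval : ∀ j : Fin n, (Set.range fun k : ℕ => gm l p ((2 : ℂ) ^ k) j).Finite := by
    intro j
    have h2 := hfin.image fun φ => φ (Units.mk0 (2 : ℂ) two_ne_zero) j
    refine h2.subset ?_
    rintro _ ⟨k, rfl⟩
    exact ⟨_, hmem k, rfl⟩
  have hj : ∀ j : Fin n, ∃ c : ℂ, p j = Polynomial.C c * Polynomial.X ^ l := by
    intro j
    have h2 : ∏ c ∈ (hval j).toFinset, (p j - Polynomial.C c * Polynomial.X ^ l) = 0 := by
      apply Polynomial.eq_zero_of_infinite_isRoot
      refine Set.Infinite.mono (s := Set.range fun k : ℕ => (2 : ℂ) ^ k) ?_ ?_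
      · rintro _ ⟨k, rfl⟩
        change Polynomial.IsRoot _ _
        rw [Polynomial.IsRoot, Polynomial.eval_prod]
        refine Finset.prod_eq_zero ((hval j).mem_toFinset.2 ⟨k, rfl⟩) ?_
        have h3 : ((2 : ℂ) ^ k) ^ l ≠ 0 := pow_ne_zero _ (pow_ne_zero _ two_ne_zero)
        unfold Pool.Agent.TH143.HE.gm
        simp only [Polynomial.eval_sub, Polynomial.eval_mul, Polynomial.eval_C, Polynomial.eval_pow,
          Polynomial.eval_X]
        rw [div_mul_cancel₀ _ h3, sub_self]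
      · refine Set.infinite_range_of_injective fun a b hab => ?_
        have h3 : ((2 : ℕ) : ℂ) ^ a = ((2 : ℕ) : ℂ) ^ b := by exact_mod_cast hab
        have h4 : (2 : ℕ) ^ a = 2 ^ b := by exact_mod_cast h3
        exact Nat.pow_right_injective le_rfl h4
    obtain ⟨c, -, hc⟩ := Finset.prod_eq_zero_iff.1 h2
    exact ⟨c, sub_eq_zero.1 hc⟩
  intro u hu
  funext j
  obtain ⟨c, hc⟩ := hj j
  unfold Pool.Agent.TH143.HE.gm
  rw [hc]
  simp only [Polynomial.eval_mul, Polynomial.eval_C, Polynomial.eval_pow, Polynomial.eval_X, one_pow,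
    mul_one, div_one]
  rw [mul_div_cancel_right₀ _ (pow_ne_zero _ hu)]

/-- **Brody hyperbolic affine surfaces over complex tori** -/
theorem brody_tfae (hy0 : y 0 ≠ 0) (hgen : coords ℂ y = ⊤) (hw : Algebra.trdeg ℂ K = (2 : ℕ))
    (hT : OverTorus y) :
    [BrodyHyp (AffPts y), SpecialCurves y = ∅, PointedGmFinite y].TFAE ∧
      (AllLogGeneral y → BrodyHyp (AffPts y)) := by
  have h21 : SpecialCurves y = ∅ → BrodyHyp (AffPts y) := by
    intro h f hf
    by_contra hfc
    have h0 : (SpecialCurves y).Finite := by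
      rw [h]
      exact Set.finite_empty
    have h2 : (SpecialCurves y).Finite → FinitelySpecial y := ((ggl hy0 hgen hw hT).1.out 1 2).1
    have h1 := (h2 h0).2 f hf hfc
    rw [h] at h1
    exact h1
  refine ⟨?_, fun h => h21 ?_⟩
  · tfae_have 1 → 2 := by
      intro h
      by_contra hne
      obtain ⟨W, K1, _, _, y1, hy10, hgen1, hw1, hsp, hnl, rfl⟩ := Set.nonempty_iff_ne_empty.2 hne
      obtain ⟨g, hg, hgnc, -⟩ := exists_curve hy10 hgen1 hw1 hnl
      refine hgnc (h g ⟨hg.1, fun z => ?_⟩)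
      rw [affPts_eq]
      have hvan : Van y ⊆ Van y1 := fun H hH => ⟨hH.1, hsp H hH.1 hH.2⟩
      exact ⟨cone_mono hvan (hg.2 z).1, (hg.2 z).2⟩
    tfae_have 2 → 1 := h21
    tfae_have 1 → 3 := by
      intro h x
      refine (Set.finite_singleton fun _ : ℂˣ => x).subset ?_
      rintro φ ⟨hφ1, hφm, l, p, hφ⟩
      have hm : ∀ u : ℂ, u ≠ 0 → (Fin.cons 1 (gm l p u) : Fin (n + 1) → ℂ) ∈ Aff (Van y) := by
        intro u hu
        have h1 := hφm (Units.mk0 u hu)
        rw [hφ, affPts_eq] at h1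
        exact h1
      have hc : ∀ u : ℂ, u ≠ 0 → gm l p u = gm l p 1 := by
        by_contra hcon
        push Not at hcon
        obtain ⟨g, hg, hgnc, -⟩ := gm_closure (F := Van y) (fun G hG => hG.1) hm hcon
        refine hgnc (h g ⟨hg.1, fun z => ?_⟩)
        rw [affPts_eq]
        exact hg.2 z
      rw [Set.mem_singleton_iff]
      funext u
      rw [hφ, hc _ u.ne_zero, ← hφ1, hφ]
      rfl
    tfae_have 3 → 2 := by
      intro h
      by_contra hne
      obtain ⟨W, K1, _, _, y1, hy10, hgen1, hw1, hsp, hnl, rfl⟩ := Set.nonempty_iff_ne_empty.2 hne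
      obtain ⟨l, p, h1, u, hu, hne⟩ := exists_gm hy10 hgen1 hw1 hnl
      refine hne (no_gm_of_finite h (fun v hv => ?_) u hu)
      rw [affPts_eq]
      have hvan : Van y ⊆ Van y1 := fun H hH => ⟨hH.1, hsp H hH.1 hH.2⟩
      exact ⟨cone_mono hvan (h1 v hv).1, (h1 v hv).2⟩
    tfae_finish
  · by_contra hne
    obtain ⟨W, K1, _, _, y1, hy10, hgen1, hw1, hsp, hnl, rfl⟩ := Set.nonempty_iff_ne_empty.2 hne
    exact hnl (h K1 1 y1 le_rfl hy10 hgen1 hw1 hsp)

end Pool.Agent.U647.GB
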