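import Pool.Agent.U647.GB.Same
import Pool.Agent.Q96.HE.Fin

/-!
# Entire curves in affine surfaces over complex tori
-/

set_option autoImplicit false

open Filter Topology MvPolynomial LinearAlgebra.Projectivization

namespace Pool.Agent.U647.GB

open Pool.Agent.U647.AF
open Pool.Agent.W602.GT (IsForm val Cone SubVar coords VarPts)
open Pool.Agent.N154.TB (Zeros CurveIn IsConst BrodyHyp)
open Pool.Agent.N154.TT (HolToTorus)
open Pool.Agent.N154.GG (HolMap projDist holP_of proj_ext)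
open Pool.Agent.N155 (spec_dense)
open Pool.Agent.TH143.HE (gm)

variable {n : ℕ}

/-- The affine variety `V = {F = 0, x₀ ≠ 0}` has dimension at most two, and every component `W` of
dimension two (with generic point `y` and function field `K`) lies over a complex torus: there is a
holomorphic map `α` of the closure of `W` in projective space to a complex torus, such that

* every fibre of `α` on `W` lies in a hypersurface `{Q = 0}` which does not contain `W`;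
* the points at infinity of the closure of `W` lie in a projective set `{B = 0}` which is Brody
  hyperbolic, or in one of finitely many fibres of `α`. -/
def SurfacesOverTori (F : Set (MvPolynomial (Fin (n + 1)) ℂ)) : Prop :=
  ∀ (K : Type) [Field K] [Algebra ℂ K] (w : ℕ) (y : Fin (n + 1) → K), SubVar (fam F) K w y →
    y 0 ≠ 0 → 2 ≤ w → w = 2 ∧ ∃ (m : ℕ) (L : Submodule ℤ (Fin m → ℂ)) (_ : DiscreteTopology L)
      (_ : IsZLattice ℝ L) (α : (Fin (n + 1) → ℂ) → (Fin m → ℂ) ⧸ L),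
      HolToTorus (VarPts ℂ y) L α ∧
      (∀ c, ∃ Q : MvPolynomial (Fin (n + 1)) ℂ, IsForm Q ∧
        val y Q ≠ 0 ∧ ∀ x ∈ VarPts ℂ y, x 0 ≠ 0 → α x = c → val x Q = 0) ∧
      ∃ (B : Set (MvPolynomial (Fin (n + 1)) ℂ)) (Δ : Set ((Fin m → ℂ) ⧸ L)),
        (∀ G ∈ B, IsForm G) ∧ BrodyHyp (Cone (fam B)) ∧ Δ.Finite ∧
        ∀ x ∈ VarPts ℂ y, x 0 = 0 → x ∈ Cone (fam B) ∨ α x ∈ Δ

/-- All nonconstant morphisms from `G_m` to the affine variety `{F = 0, x₀ ≠ 0}` have their image in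
the closed subset `{E = 0}`. -/
def GmIn (F E : Set (MvPolynomial (Fin (n + 1)) ℂ)) : Prop :=
  ∀ (l : ℕ) (p : Fin n → Polynomial ℂ),
    (∀ u : ℂ, u ≠ 0 → (Fin.cons 1 (gm l p u) : Fin (n + 1) → ℂ) ∈ Aff F) →
      (∃ u : ℂ, u ≠ 0 ∧ gm l p u ≠ gm l p 1) →
        ∀ u : ℂ, u ≠ 0 → (Fin.cons 1 (gm l p u) : Fin (n + 1) → ℂ) ∈ Zeros (fam E)

variable {F E : Set (MvPolynomial (Fin (n + 1)) ℂ)}

/-- curves with closure of dimension at most one -/
theorem low_in (hF : ∀ G ∈ F, IsForm G) (hE : ∀ G ∈ E, IsForm G) (hgm : GmIn F E)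
    {g : ℂ → ℙ ℂ (Fin (n + 1) → ℂ)} (hg : CurveIn (Aff F) g) (hnc : ¬ IsConst g)
    {K : Type} [Field K] [Algebra ℂ K] {y : Fin (n + 1) → K} (hgen : coords ℂ y = ⊤)
    (hd : Algebra.trdeg ℂ K = (1 : ℕ)) (hrel : Rel g y) : ∀ G ∈ E, val y G = 0 := by
  have h0 : ∀ z, (g z).rep 0 ≠ 0 := fun z => (hg.2 z).2
  have hy0 := hrel.ne h0
  have hFy : F ⊆ Van y := fun G hG => ⟨hF G hG, (hrel G (hF G hG)).2 fun z => (hg.2 z).1.2 ⟨G, hG⟩⟩
  obtain ⟨l, p, a, b, h1, h2, h3, -⟩ := low_curve hy0 hgen hd (hrel.aff hg.1 h0) hnc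
  intro G hG
  refine h3 G (hE G hG) fun u hu => ?_
  exact hgm l p (fun u hu => ⟨cone_mono hFy (h1 u hu).1, (h1 u hu).2⟩) h2 u hu ⟨G, hG⟩

theorem nonconst_of {K : Type} [Field K] [Algebra ℂ K] {y : Fin (n + 1) → K} (hy0 : y 0 ≠ 0)
    (hgen : coords ℂ y = ⊤) (hd : Algebra.trdeg ℂ K = (1 : ℕ)) :
    Pool.Agent.Q271.RC.Nonconst y := by
  obtain ⟨J, hJ, -⟩ := exists_J (gen_of_coords hy0 hgen) hd
  have h1 := hJ.transcendental 0
  exact ⟨(J 0).succ, 0, hy0, h1⟩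

/-- **Entire curves in affine surfaces over complex tori** -/
theorem curves_in (hF : ∀ G ∈ F, IsForm G) (hT : SurfacesOverTori F) (hE : ∀ G ∈ E, IsForm G)
    (hgm : GmIn F E) {f : ℂ → ℙ ℂ (Fin (n + 1) → ℂ)} (hf : CurveIn (Aff F) f)
    (hnc : ¬ IsConst f) : ∀ z, (f z).rep ∈ Zeros (fam E) := by
  classical
  obtain ⟨K, _, _, w, y, hy, hgen, hw, hrel, hc⟩ := exists_rel hf.1
  have h0 : ∀ z, (f z).rep 0 ≠ 0 := fun z => (hf.2 z).2
  have hy0 := hrel.ne h0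
  have hFy : F ⊆ Van y := fun G hG => ⟨hF G hG, (hrel G (hF G hG)).2 fun z => (hf.2 z).1.2 ⟨G, hG⟩⟩
  have hsub : SubVar (fam F) K w y := ⟨hy, fun i => (hFy i.2).2, hgen, hw⟩
  have hfin : (∀ G ∈ E, val y G = 0) → ∀ z, (f z).rep ∈ Zeros (fam E) := fun h z i =>
    (hrel _ (hE _ i.2)).1 (h _ i.2) z
  have hw1 : 1 ≤ w := by
    by_contra hcon
    exact hnc (hc (by omega))
  rcases Nat.lt_or_ge 1 w with h2 | h2
  swap
  · have hw' : w = 1 := le_antisymm h2 hw1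
    subst hw'
    exact hfin (low_in hF hE hgm hf hnc hgen hw hrel)
  obtain ⟨hw2, m, L, _, _, α, hα, hfib, B, Δ, hB, hBh, hΔ, hbd⟩ := hT K w y hsub hy0 h2
  by_cases hEy : ∀ G ∈ E, val y G = 0
  · exact hfin hEy
  exfalso
  push Not at hEy
  obtain ⟨G0, hG0, hyG0⟩ := hEy
  have hα' : HolToTorus (Cone (fam (Van y))) L α := by
    rw [cone_van]
    exact hα
  have hVf : ∀ i, IsForm (fam (Van y) i) := fun i => i.2.1
  have hAF : Aff (Van y) ⊆ Aff F := fun x hx => ⟨cone_mono hFy hx.1, hx.2⟩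
  -- the curves in the fibres
  have hlow : ∀ (t : (Fin m → ℂ) ⧸ L) (g : ℂ → ℙ ℂ (Fin (n + 1) → ℂ)), CurveIn (Aff (Van y)) g →
      ¬ IsConst g → (∀ z, α (g z).rep = t) → ∃ (K1 : Type) (_ : Field K1) (_ : Algebra ℂ K1)
        (y1 : Fin (n + 1) → K1), coords ℂ y1 = ⊤ ∧ Algebra.trdeg ℂ K1 = (1 : ℕ) ∧ Rel g y1 ∧
          y1 0 ≠ 0 ∧ Aff (Van y1) ⊆ Aff (Van y) ∧
          Pool.Agent.Q96.HE.vanForms y1 ∈ {V : Set (MvPolynomial (Fin (n + 1)) ℂ) |
            ∃ (L : Type) (_ : Field L) (_ : Algebra ℂ L) (v : Fin (n + 1) → L),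
              Pool.Agent.Q271.RC.IsPoint y v ∧ aeval v G0 = 0 ∧
                Pool.Agent.Q271.RC.Nonconst v ∧ V = Pool.Agent.Q96.HE.vanForms v} := by
    intro t g hg hgnc hgt
    obtain ⟨K1, _, _, w1, y1, hy1, hgen1, hw1', hrel1, hc1⟩ := exists_rel hg.1
    have h01 : ∀ z, (g z).rep 0 ≠ 0 := fun z => (hg.2 z).2
    have hspec : ∀ G : MvPolynomial (Fin (n + 1)) ℂ, IsForm G → val y G = 0 → val y1 G = 0 :=
      fun G hG h => (hrel1 G hG).2 fun z => (hg.2 z).1.2 ⟨G, hG, h⟩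
    obtain ⟨Q, hQ, hyQ, hQf⟩ := hfib t
    have hQ1 : val y1 Q = 0 := (hrel1 Q hQ).2 fun z => by
      have h3 := hg.2 z
      rw [aff_van] at h3
      exact hQf _ h3.1 h3.2 (hgt z)
    have hlt : w1 < w := by
      by_contra hcon
      push Not at hcon
      exact hyQ (spec_dense hy1 hgen1 hw hw1' hcon hspec hQ hQ1)
    have hw11 : w1 = 1 := by
      have : w1 ≠ 0 := fun h => hgnc (hc1 h)
      omega
    subst hw11
    have h3 := low_in hF hE hgm ⟨hg.1, fun z => hAF (hg.2 z)⟩ hgnc hgen1 hw1' hrel1 G0 hG0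
    have hy10 := hrel1.ne h01
    have hpt : Pool.Agent.Q271.RC.IsPoint y y1 := fun G e hG h => hspec G ⟨e, hG⟩ h
    have hsubV : Van y ⊆ Van y1 := fun G hG => ⟨hG.1, hspec G hG.1 hG.2⟩
    have hsubA : Aff (Van y1) ⊆ Aff (Van y) := fun x hx => ⟨cone_mono hsubV hx.1, hx.2⟩
    exact ⟨K1, _, _, y1, hgen1, hw1', hrel1, hy10, hsubA,
      ⟨K1, _, _, y1, hpt, h3, nonconst_of hy10 hgen1 hw1', rfl⟩⟩
  obtain ⟨Bad, hBad⟩ : ∃ Bad : Set ((Fin m → ℂ) ⧸ L), Bad = {t | ∃ g, CurveIn (Aff (Van y)) g ∧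
      ¬ IsConst g ∧ ∀ z, α (g z).rep = t} := ⟨_, rfl⟩
  have hBadf : Bad.Finite := by
    obtain ⟨e, he⟩ := hE G0 hG0
    have hS := Pool.Agent.Q96.HE.finite_curves (b := y) (d := w) hw (by omega) G0 he hyG0
    have hch : ∀ t ∈ Bad, ∃ V, V ∈ {V : Set (MvPolynomial (Fin (n + 1)) ℂ) |
            ∃ (L : Type) (_ : Field L) (_ : Algebra ℂ L) (v : Fin (n + 1) → L),
              Pool.Agent.Q271.RC.IsPoint y v ∧ aeval v G0 = 0 ∧
                Pool.Agent.Q271.RC.Nonconst v ∧ V = Pool.Agent.Q96.HE.vanForms v} ∧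
        ∃ g, CurveIn (Aff (Van y)) g ∧ ¬ IsConst g ∧ (∀ z, α (g z).rep = t) ∧
          ∃ (K1 : Type) (_ : Field K1) (_ : Algebra ℂ K1)
        (y1 : Fin (n + 1) → K1), coords ℂ y1 = ⊤ ∧ Algebra.trdeg ℂ K1 = (1 : ℕ) ∧ Rel g y1 ∧
          y1 0 ≠ 0 ∧ Aff (Van y1) ⊆ Aff (Van y) ∧ V = Pool.Agent.Q96.HE.vanForms y1 := by
      intro t ht
      rw [hBad] at ht
      obtain ⟨g, g1, g2, g3⟩ := ht
      obtain ⟨K1, _, _, y1, k1, k2, k3, k4, k5, k6⟩ := hlow t g g1 g2 g3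
      exact ⟨_, k6, g, g1, g2, g3, K1, _, _, y1, k1, k2, k3, k4, k5, rfl⟩
    choose! v hv1 hv2 using hch
    refine Set.Finite.of_injOn (f := v) (fun t ht => hv1 t ht) ?_ hS
    intro t ht t' ht' hvv
    obtain ⟨g, g1, g2, g3, K1, _, _, y1, k1, k2, k3, k4, k5, k6⟩ := hv2 t ht
    obtain ⟨g', g1', g2', g3', K2, _, _, y2, k1', k2', k3', k4', k5', k6'⟩ := hv2 t' ht'
    have hvan : ∀ G : MvPolynomial (Fin (n + 1)) ℂ, IsForm G → (val y1 G = 0 ↔ val y2 G = 0) := by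
      have h5 : Pool.Agent.Q96.HE.vanForms y1 = Pool.Agent.Q96.HE.vanForms y2 := by
        rw [← k6, ← k6', hvv]
      intro G hG
      have h6 : G ∈ Pool.Agent.Q96.HE.vanForms y1 ↔ G ∈ Pool.Agent.Q96.HE.vanForms y2 := by rw [h5]
      exact ⟨fun h => (h6.1 ⟨hG, h⟩).2, fun h => (h6.2 ⟨hG, h⟩).2⟩
    have hrel' : Rel g' y1 := fun G hG => (hvan G hG).trans (k3' G hG)
    have hg1 : CurveIn (Aff (Van y1)) g := k3.aff g1.1 fun z => (g1.2 z).2
    have hg1' : CurveIn (Aff (Van y1)) g' := hrel'.aff g1'.1 fun z => (g1'.2 z).2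
    obtain ⟨l, p, a, b, e1, -, -, e4, e5, e6⟩ := low_curve k4 k1 k2 hg1 g2
    have hs1 : Aff (Van y1) ⊆ Cone (fam (Van y)) := fun x hx => (k5 hx).1
    have r1 := same_fibre hVf hα' k4 hs1 e1 e4 e5 e6 hg1 g2 k3 g3 1 one_ne_zero
    have r2 := same_fibre hVf hα' k4 hs1 e1 e4 e5 e6 hg1' g2' hrel' g3' 1 one_ne_zero
    rw [← r1, ← r2]
  have hfy : CurveIn (Aff (Van y)) f := hrel.aff hf.1 h0
  have hconst := geo_const (F := fam (Van y)) (F' := fam B) (α := α) hVf (fun i => hB _ i.2) hα' hBh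
    (Δ := Δ ∪ Bad) (hΔ.union hBadf) (fun x hx hx0 => by
      rw [cone_van] at hx
      rcases hbd x hx hx0 with h3 | h3
      · exact Or.inl h3
      · exact Or.inr (Or.inl h3)) (fun g hg hgc hgt => by
      by_contra hgnc
      apply hgt
      right
      rw [hBad]
      exact ⟨g, hg, hgnc, fun z => hgc z 0⟩) (f := f) hfy
  obtain ⟨Q, hQ, hyQ, hQf⟩ := hfib (α (f 0).rep)
  refine hyQ ((hrel Q hQ).2 fun z => ?_)
  have h3 := hfy.2 z
  rw [aff_van] at h3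
  exact hQf _ h3.1 h3.2 (hconst z 0)

end Pool.Agent.U647.GB
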