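import Pool.Agent.U647.GB.Thn
import Pool.Agent.U647.GB.Surf
import Pool.Agent.TH143.GT.Fam

/-!
# Closures of images of `G_m`
-/

set_option autoImplicit false

open Filter Topology MvPolynomial LinearAlgebra.Projectivization

namespace Pool.Agent.U647.GB

open Pool.Agent.U647.AF
open Pool.Agent.W602.GT (IsForm val Cone SubVar coords VarPts LogGeneralType)
open Pool.Agent.N154.TB (Zeros CurveIn IsConst BrodyHyp)
open Pool.Agent.N154.TT (HolToTorus)
open Pool.Agent.TH143.HE (gm)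
open Pool.Agent.W603.GR (OffQ)
open Pool.Agent.V1153.UG (GmBdd GmThin GmRuled)

variable {n : ℕ} {K : Type} [Field K] [Algebra ℂ K] {y : Fin (n + 1) → K}

/-- the vector of polynomials -/
noncomputable def gmP (l : ℕ) (p : Fin n → Polynomial ℂ) : Fin (n + 1) → Polynomial ℂ :=
  Fin.cons (Polynomial.X ^ l) p

theorem gmP_eval {l : ℕ} {p : Fin n → Polynomial ℂ} {u : ℂ} (hu : u ≠ 0) :
    (Fin.cons 1 (gm l p u) : Fin (n + 1) → ℂ) = fun j => (u ^ l)⁻¹ * (gmP l p j).eval u := by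
  funext j
  unfold gmP
  refine Fin.cases ?_ (fun j => ?_) j
  · rw [Fin.cons_zero, Fin.cons_zero, Polynomial.eval_pow, Polynomial.eval_X,
      inv_mul_cancel₀ (pow_ne_zero _ hu)]
  · rw [Fin.cons_succ, Fin.cons_succ]
    unfold Pool.Agent.TH143.HE.gm
    rw [div_eq_inv_mul]

theorem val_gm {l : ℕ} {p : Fin n → Polynomial ℂ} {u : ℂ} (hu : u ≠ 0)
    {G : MvPolynomial (Fin (n + 1)) ℂ} (hG : IsForm G) :
    val (Fin.cons 1 (gm l p u) : Fin (n + 1) → ℂ) G = 0 ↔ (aeval (gmP l p) G).eval u = 0 := by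
  obtain ⟨d, hd⟩ := hG
  rw [gmP_eval hu]
  change aeval _ G = 0 ↔ _
  rw [aeval_smul2 hd, Pool.Agent.V1153.UG.eval_aeval, ← MvPolynomial.coe_aeval_eq_eval]
  rw [mul_eq_zero, or_iff_right (pow_ne_zero _ (inv_ne_zero (pow_ne_zero _ hu)))]
  rfl

/-- The image of `G_m` as an entire curve; its closure has dimension one. -/
theorem gm_closure {F : Set (MvPolynomial (Fin (n + 1)) ℂ)} (hF : ∀ G ∈ F, IsForm G) {l : ℕ}
    {p : Fin n → Polynomial ℂ}
    (h1 : ∀ u : ℂ, u ≠ 0 → (Fin.cons 1 (gm l p u) : Fin (n + 1) → ℂ) ∈ Aff F)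
    (h2 : ∃ u : ℂ, u ≠ 0 ∧ gm l p u ≠ gm l p 1) :
    ∃ g : ℂ → ℙ ℂ (Fin (n + 1) → ℂ), CurveIn (Aff F) g ∧ ¬ IsConst g ∧
      (∀ z, (Fin.cons 1 (gm l p (Complex.exp z)) : Fin (n + 1) → ℂ) = ((g z).rep 0)⁻¹ • (g z).rep) ∧
      ∃ (K1 : Type) (_ : Field K1) (_ : Algebra ℂ K1) (y1 : Fin (n + 1) → K1), y1 0 ≠ 0 ∧
        coords ℂ y1 = ⊤ ∧ Algebra.trdeg ℂ K1 = (1 : ℕ) ∧ Rel g y1 := by
  have hd : ∀ j, Differentiable ℂ fun z => gm l p (Complex.exp z) j := by
    intro j
    unfold Pool.Agent.TH143.HE.gm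
    exact ((p j).differentiable.comp Complex.differentiable_exp).div
      (Complex.differentiable_exp.pow l) fun z => pow_ne_zero _ (Complex.exp_ne_zero z)
  obtain ⟨g, hg, hgf⟩ := proj_curve hF hd fun z => h1 _ (Complex.exp_ne_zero z)
  have h0 : ∀ z, (g z).rep 0 ≠ 0 := fun z => (hg.2 z).2
  have hgnc : ¬ IsConst g := by
    intro hc
    obtain ⟨u, hu, hne⟩ := h2
    have h3 := (const_iff h0 hgf).1 hc (Complex.log u) 0
    rw [Complex.exp_log hu, Complex.exp_zero] at h3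
    exact hne h3
  obtain ⟨K1, _, _, w1, y1, hy1, hgen1, hw1, hrel, hc⟩ := exists_rel hg.1
  have hy10 := hrel.ne h0
  have hle : w1 ≤ 1 := by
    refine trdeg_mono (K := RatFunc ℂ) (y := fun j => algebraMap _ (RatFunc ℂ) (gmP l p j)) ?_ hy10
      hgen1 (by rw [(Pool.Agent.TH143.GT.isFF_ratFunc ℂ).trdeg, Nat.cast_one]) hw1 fun G hG h => ?_
    · unfold gmP
      rw [Fin.cons_zero, map_pow, RatFunc.algebraMap_X]
      exact pow_ne_zero _ RatFunc.X_ne_zero
    · have h3 : aeval (gmP l p) G = 0 := by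
        have h4 := MvPolynomial.comp_aeval_apply (f := gmP l p)
          (IsScalarTower.toAlgHom ℂ (Polynomial ℂ) (RatFunc ℂ)) G
        have h5 : aeval (fun j => algebraMap (Polynomial ℂ) (RatFunc ℂ) (gmP l p j)) G = 0 := h
        change algebraMap (Polynomial ℂ) (RatFunc ℂ) (aeval (gmP l p) G) =
          aeval (fun j => algebraMap (Polynomial ℂ) (RatFunc ℂ) (gmP l p j)) G at h4
        rw [h5] at h4
        exact (map_eq_zero_iff _ (RatFunc.algebraMap_injective ℂ)).1 h4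
      refine (hrel G hG).2 fun z => ?_
      have h4 := (val_gm (Complex.exp_ne_zero z) hG (l := l) (p := p)).2 (by
        rw [h3, Polynomial.eval_zero])
      rw [hgf z] at h4
      obtain ⟨d, hd⟩ := hG
      rw [val_ev, ev_smul hd] at h4
      rw [val_ev]
      exact (mul_eq_zero.1 h4).resolve_left (pow_ne_zero _ (inv_ne_zero (h0 z)))
  have hge : w1 ≠ 0 := fun h => hgnc (hc h)
  have hw : w1 = 1 := by omega
  subst hw
  exact ⟨g, hg, hgnc, hgf, K1, _, _, y1, hy10, hgen1, hw1, hrel⟩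

/-- Affine curves which are not of log general type contain entire curves. -/
theorem exists_curve (hy0 : y 0 ≠ 0) (hgen : coords ℂ y = ⊤) (hw : Algebra.trdeg ℂ K = (1 : ℕ))
    (hnl : ¬ LogGeneralType ℂ K 1 (OffQ (X 0 : MvPolynomial (Fin (n + 1)) ℂ) 1 y)) :
    ∃ g : ℂ → ℙ ℂ (Fin (n + 1) → ℂ), CurveIn (Aff (Van y)) g ∧ ¬ IsConst g ∧ Rel g y := by
  obtain ⟨t, m, q, ht, hq⟩ := exists_t hy0 hgen hw hnl
  have ht0 : t ≠ 0 := by
    rintro rfl
    exact ht isAlgebraic_zero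
  have hinj : ∀ a b : Polynomial ℂ, Polynomial.aeval t a = Polynomial.aeval t b → a = b :=
    fun a b hab => (transcendental_iff_injective.1 ht) hab
  obtain ⟨P, hP⟩ : ∃ P : Fin (n + 1) → Polynomial ℂ, P = gmP m fun j => q j.succ := ⟨_, rfl⟩
  have hPt : ∀ j, Polynomial.aeval t (P j) = (t ^ m / y 0) * y j := by
    intro j
    rw [hP]
    unfold gmP
    refine Fin.cases ?_ (fun j => ?_) j
    · rw [Fin.cons_zero, map_pow, Polynomial.aeval_X]
      field_simp
    · rw [Fin.cons_succ, ← hq j.succ]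
      ring
  have hPG : ∀ H ∈ Van y, aeval P H = 0 := by
    rintro H ⟨⟨d, hd⟩, hH⟩
    have h1 : Polynomial.aeval t (aeval P H) = (t ^ m / y 0) ^ d * val y H := by
      rw [MvPolynomial.comp_aeval_apply]
      have h2 : (fun j => Polynomial.aeval t (P j)) = fun j => (t ^ m / y 0) * y j := by
        funext j
        exact hPt j
      change aeval (fun j => Polynomial.aeval t (P j)) H = _
      rw [h2, aeval_smul2 hd]
      rfl
    rw [hH, mul_zero] at h1
    apply hinj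
    rw [h1, map_zero]
  have hA : ∀ u : ℂ, u ≠ 0 →
      (Fin.cons 1 (gm m (fun j => q j.succ) u) : Fin (n + 1) → ℂ) ∈ Aff (Van y) := by
    intro u hu
    refine ⟨⟨fun h0 => ?_, fun i => ?_⟩, ?_⟩
    · have := congrFun h0 0
      rw [Fin.cons_zero] at this
      exact one_ne_zero this
    · change val _ i.1 = 0
      rw [val_gm hu i.2.1, ← hP, hPG _ i.2, Polynomial.eval_zero]
    · rw [Fin.cons_zero]
      exact one_ne_zero
  have hne : ∃ u : ℂ, u ≠ 0 ∧ gm m (fun j => q j.succ) u ≠ gm m (fun j => q j.succ) 1 := by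
    by_contra hcon
    push Not at hcon
    obtain ⟨J, hJ, -⟩ := exists_J (gen_of_coords hy0 hgen) hw
    apply hJ.transcendental 0
    have h1 := (Pool.Agent.TH143.HE.gm_const_iff m (fun j => q j.succ)).1 hcon (J 0)
    have h2 : q (J 0).succ = Polynomial.C ((q (J 0).succ).coeff m) * Polynomial.X ^ m := by
      ext i
      rw [Polynomial.coeff_C_mul, Polynomial.coeff_X_pow]
      by_cases hi : i = m
      · subst hi
        simp
      · rw [if_neg hi, mul_zero]
        exact h1 i hi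
    have h3 := hq (J 0).succ
    rw [h2, map_mul, map_pow, Polynomial.aeval_X, Polynomial.aeval_C] at h3
    change IsAlgebraic ℂ (y (J 0).succ / y 0)
    rw [mul_right_cancel₀ (pow_ne_zero m ht0) h3]
    exact isAlgebraic_algebraMap _
  obtain ⟨g, hg, hgnc, -, -⟩ := gm_closure (F := Van y) (fun G hG => hG.1) hA hne
  exact ⟨g, hg, hgnc, rel_of_low hw hg hgnc⟩

end Pool.Agent.U647.GB
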