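import Pool.Agent.U647.GB.Cur
import Pool.Agent.W603.GR.Main

/-!
# Affine curves which are not of log general type
-/

set_option autoImplicit false

open Filter Topology MvPolynomial LinearAlgebra.Projectivization FF

namespace Pool.Agent.U647.GB

open Pool.Agent.U647.AF
open Pool.Agent.W602.GT (IsForm val Cone SubVar coords VarPts LogGeneralType)
open Pool.Agent.N154.TB (Zeros CurveIn IsConst)
open Pool.Agent.N154.TC (Compl bounded_of_lip)
open Pool.Agent.N154.GG (projDist holP_of proj_ext)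
open Pool.Agent.N155 (StratumCentre HasCentre Ctr exists_closure nz nz_Phi Cv SG TX strat_curve
  finite_noncentre)
open Pool.Agent.Y190.OP (Phi HolP)
open Pool.Agent.W603.LV (canDeg)
open Pool.Agent.W603.GR (OffQ)
open Pool.Agent.TH143.HE (gm)

variable {n : ℕ} {K : Type} [Field K] [Algebra ℂ K] {y : Fin (n + 1) → K}

theorem not_off_iff (hy0 : y 0 ≠ 0) {Q : Place ℂ K} :
    ¬ OffQ (X 0 : MvPolynomial (Fin (n + 1)) ℂ) 1 y Q ↔ ∀ j, Q.Reg (y j / y 0) := by
  have h0 : Pool.Agent.W602.GT.val y (X 0 : MvPolynomial (Fin (n + 1)) ℂ) = y 0 := by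
    unfold Pool.Agent.W602.GT.val
    rw [aeval_X]
  unfold Pool.Agent.W603.GR.OffQ
  rw [h0]
  push Not
  refine forall_congr' fun j => ?_
  by_cases hj : y j = 0
  · rw [hj, zero_div]
    simp only [ne_eq, not_true_eq_false, IsEmpty.forall_iff, true_iff]
    exact Or.inl rfl
  · rw [Q.reg_iff (div_ne_zero hj hy0), Q.ord_div hj hy0]
    constructor
    · intro h
      have := h hj
      push_cast at this
      omega
    · intro h _
      push_cast
      omega

theorem centre_iff [IsFF ℂ K] (hy0 : y 0 ≠ 0) (Q : Place ℂ K) :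
    ¬ StratumCentre (P0 (n := n)) y Q ↔
      OffQ (X 0 : MvPolynomial (Fin (n + 1)) ℂ) 1 y Q := by
  rw [← not_iff_not, not_not, not_off_iff hy0]
  have h0 : Pool.Agent.W602.GT.val y (X 0 : MvPolynomial (Fin (n + 1)) ℂ) = y 0 := by
    unfold Pool.Agent.W602.GT.val
    rw [aeval_X]
  constructor
  · intro h
    have hbd := bd0 (Van y)
    refine (reg_of_centre (F := fam (Van y)) (P := P0 (n := n)) (fun i => i.2.1) (fun x hx => by
      rw [hbd.compl] at hx
      exact hx.2) (fun hy => hy0 (by rw [hy]; rfl)) (fun i => i.2.2) (Q := Q)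
        fun a => h a ⟨(), ?_⟩).2
    change Pool.Agent.W602.GT.val y (X 0) ≠ 0
    rwa [h0]
  · intro h a _
    refine ⟨(), 1, isHomogeneous_X _ _, 0, hy0, ?_, h, ?_⟩
    · change Pool.Agent.W602.GT.val y (X 0) ≠ 0
      rwa [h0]
    · change Q.Reg (y 0 ^ 1 / Pool.Agent.W602.GT.val y (X 0))
      rw [h0, pow_one, div_self hy0]
      exact Q.reg_one

/-- **Affine curves which are not of log general type are rational**, with at most two places at
infinity -/
theorem exists_t (hy0 : y 0 ≠ 0) (hgen : coords ℂ y = ⊤) (hw : Algebra.trdeg ℂ K = (1 : ℕ))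
    (hnl : ¬ LogGeneralType ℂ K 1 (OffQ (X 0 : MvPolynomial (Fin (n + 1)) ℂ) 1 y)) :
    ∃ (t : K) (m : ℕ) (q : Fin (n + 1) → Polynomial ℂ), Transcendental ℂ t ∧
      ∀ j, y j / y 0 * t ^ m = Polynomial.aeval t (q j) := by
  classical
  have hy1 : y ≠ 0 := fun h0 => hy0 (by rw [h0]; rfl)
  have hff : IsFF ℂ K := ⟨Pool.Agent.TH143.GT.ess_of_coords hgen, by rw [hw, Nat.cast_one]⟩
  have hfin := strat_finite (P := P0 (n := n)) (bd0 (Van y)).form hy1
  obtain ⟨S, hS⟩ : ∃ S : Finset (Place ℂ K), ∀ Q, Q ∈ S ↔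
      OffQ (X 0 : MvPolynomial (Fin (n + 1)) ℂ) 1 y Q :=
    ⟨hfin.toFinset, fun Q => by
      rw [Set.Finite.mem_toFinset]
      exact centre_iff hy0 Q⟩
  have hcan : canDeg ℂ K + S.card ≤ 0 := by
    by_contra hcon
    apply hnl
    have h1 := Pool.Agent.Q96.LS.lgt_one S (by omega)
    have h2 : (fun Q => Q ∈ S) = OffQ (X 0 : MvPolynomial (Fin (n + 1)) ℂ) 1 y := by
      funext Q
      exact propext (hS Q)
    rwa [h2] at h1
  have hregS : ∀ Q, Q ∉ S → ∀ j, Q.Reg (y j / y 0) := fun Q hQS =>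
    (not_off_iff hy0).1 fun h => hQS ((hS Q).2 h)
  have hSne : S.Nonempty := by
    by_contra hcon
    rw [Finset.not_nonempty_iff_eq_empty] at hcon
    obtain ⟨J, hJ, -⟩ := exists_J (gen_of_coords hy0 hgen) hw
    obtain ⟨c, hc⟩ := const_of_reg fun Q => hregS Q (by rw [hcon]; simp) (J 0).succ
    refine hJ.transcendental 0 ?_
    change IsAlgebraic ℂ (y (J 0).succ / y 0)
    rw [hc]
    exact isAlgebraic_algebraMap c
  obtain ⟨t, ht, hlau⟩ := Pool.Agent.TH143.LG.laurent hSne hcan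
  have htr : Transcendental ℂ t := Pool.Agent.W619.PQ.transcendental_of_top ht
  have hlj : ∀ j, ∃ (l : ℕ) (p : Polynomial ℂ), y j / y 0 * t ^ l = Polynomial.aeval t p := by
    intro j
    apply hlau
    intro Q hQ
    by_contra hcon
    have h1 := hregS Q hcon j
    by_cases h0 : y j / y 0 = 0
    · rw [h0, Q.ord_zero] at hQ
      exact lt_irrefl _ hQ
    · have := (Q.reg_iff h0).1 h1
      omega
  choose l p hp using hlj
  obtain ⟨m, hm⟩ : ∃ m : ℕ, ∀ j, l j ≤ m :=
    ⟨∑ j, l j, fun j => Finset.single_le_sum (f := l) (fun _ _ => Nat.zero_le _) (Finset.mem_univ j)⟩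
  refine ⟨t, m, fun j => p j * Polynomial.X ^ (m - l j), htr, fun j => ?_⟩
  rw [map_mul, map_pow, Polynomial.aeval_X, ← hp j, mul_assoc, ← pow_add, Nat.add_sub_cancel' (hm j)]

/-- curves with entire curves are not of log general type -/
theorem not_lgt_of_curve (hy0 : y 0 ≠ 0) (hgen : coords ℂ y = ⊤)
    (hd : Algebra.trdeg ℂ K = (1 : ℕ)) {g : ℂ → ℙ ℂ (Fin (n + 1) → ℂ)}
    (hg : CurveIn (Aff (Van y)) g) (hnc : ¬ IsConst g) :
    ¬ LogGeneralType ℂ K 1 (OffQ (X 0 : MvPolynomial (Fin (n + 1)) ℂ) 1 y) := by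
  have hbE := bd0 (Van y)
  have hE : ∀ i, IsForm (fam (Van y) i) := fun i => i.2.1
  have hg' := hg
  rw [← hbE.compl] at hg'
  obtain ⟨h, h1, h2, -, h4⟩ := open_brody (F := fam (Van y)) hE hbE.form
    (strat_low hy0 hd) hbE.loc hg' hnc
  have h1' := h1
  rw [hbE.compl] at h1'
  have hrel' := rel_of_low hd h1' h2
  have hol := holP_of h1.1
  obtain ⟨φ, hφ⟩ : ∃ φ, φ = fun z => Phi (h z).rep := ⟨_, rfl⟩
  rw [← hφ] at hol
  have hnz : ∀ G : MvPolynomial (Fin (n + 1)) ℂ, IsForm G → ∀ z,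
      (nz G (φ z) ↔ val (h z).rep G ≠ 0) := by
    rintro G ⟨d, hd⟩ z
    rw [hφ]
    change nz G (Phi (h z).rep) ↔ _
    rw [nz_Phi hd (h z).rep_nonzero, val_ev]
  have hrel : ∀ G : MvPolynomial (Fin (n + 1)) ℂ, IsForm G →
      (val y G = 0 ↔ ∀ z, ¬ nz G (φ z)) := by
    intro G hG
    rw [hrel' G hG]
    exact forall_congr' fun z => by rw [hnz G hG z, not_not]
  have hcv : Cv y φ := by
    refine ⟨hol, fun z => ⟨(h z).rep, ⟨(h z).rep_nonzero, fun G hG h0 => ?_⟩, by rw [hφ]⟩,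
      fun G hG hv => ?_⟩
    · exact (hrel' G hG).1 h0 z
    · by_contra hcon
      push Not at hcon
      exact hv ((hrel G hG).2 hcon)
  have hoff : ∀ (a : Unit) z, ∃ l, val (h z).rep (P0 (n := n) a l) ≠ 0 := by
    intro a z
    by_contra hcon
    push Not at hcon
    exact (h1.2 z).2 a hcon
  have hav : ∀ a : Unit, (∀ z, φ z ∈ SG (P0 (n := n) a)) ∨ ∀ z, φ z ∉ SG (P0 (n := n) a) :=
    fun a => Or.inl fun z => by
      obtain ⟨l, hl⟩ := hoff a z
      exact ⟨l, (hnz _ (hbE.form a l) z).2 hl⟩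
  have hB : ∀ z, ‖fderiv ℝ φ z‖ ≤ 2 := bounded_of_lip fun z w => by
    rw [hφ]
    exact h4 z w
  have hnl := strat_curve hbE.form hgen hcv hav hB
  have hff : IsFF ℂ K := ⟨Pool.Agent.TH143.GT.ess_of_coords hgen, by rw [hd, Nat.cast_one]⟩
  have h5 : (fun Q => ¬ StratumCentre (P0 (n := n)) y Q) =
      OffQ (X 0 : MvPolynomial (Fin (n + 1)) ℂ) 1 y := by
    funext Q
    exact propext (centre_iff hy0 Q)
  rwa [h5] at hnl

end Pool.Agent.U647.GB
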