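import Pool.Agent.U647.GB.Same
import Pool.Agent.U647.GB.Tpt

/-!
# Maps of rational curves to complex tori are constant
-/

set_option autoImplicit false

open Filter Topology MvPolynomial LinearAlgebra.Projectivization

namespace Pool.Agent.U647.GB

open Pool.Agent.U647.AF
open Pool.Agent.W602.GT (IsForm val Cone SubVar coords VarPts LogGeneralType)
open Pool.Agent.N154.TB (Zeros CurveIn IsConst BrodyHyp)
open Pool.Agent.N154.TC (TV TS td_of isCompact_TF cone_conic aM La aM_Phi mem_La_iff mem_TS Over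
  Stratum)
open Pool.Agent.N154.TT (HolToTorus)
open Pool.Agent.N154.GG (HolMap projDist holP_of proj_ext)
open Pool.Agent.Y190.OP (Phi HolP)
open Pool.Agent.TH143.HE (gm)
open Pool.Agent.W603.GR (OffQ)

variable {n m : ℕ} {L : Submodule ℤ (Fin m → ℂ)} {α : (Fin (n + 1) → ℂ) → (Fin m → ℂ) ⧸ L}

theorem hol_mono {X Y : Set (Fin (n + 1) → ℂ)} (h : HolToTorus X L α) (hXY : Y ⊆ X) :
    HolToTorus Y L α where
  homog := fun x hx c hc => h.homog x (hXY hx) c hc
  hol := fun x hx => by
    obtain ⟨w, h1, h2⟩ := h.hol x (hXY hx)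
    exact ⟨w, h1, h2.mono fun u hu hu' => hu (hXY hu')⟩

/-- **Rational curves in affine varieties over complex tori** lie in the fibres -/
theorem const_low [DiscreteTopology L] [IsZLattice ℝ L] {K : Type} [Field K] [Algebra ℂ K]
    {y : Fin (n + 1) → K} (hy0 : y 0 ≠ 0) (hgen : coords ℂ y = ⊤)
    (hd : Algebra.trdeg ℂ K = (1 : ℕ)) (hα : HolToTorus (Cone (fam (Van y))) L α)
    {f : ℂ → ℙ ℂ (Fin (n + 1) → ℂ)} (hf : CurveIn (Aff (Van y)) f) (hfc : ¬ IsConst f) :
    ∀ z w, α (f z).rep = α (f w).rep := by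
  classical
  have hE : ∀ i, IsForm (fam (Van y) i) := fun i => i.2.1
  have hB : BrodyHyp (Cone (fam (insert (X 0) (Van y)))) := by
    intro g hg
    refine strat_low hy0 hd {()} ⟨(), rfl⟩ g ⟨hg.1, fun z => ?_⟩
    have h1 := hg.2 z
    have h2 : (g z).rep ∈ Cone (fam (Van y)) := cone_mono (Set.subset_insert _ _) h1
    refine ⟨h2, fun a => ⟨fun _ => ?_, fun _ => rfl⟩⟩
    rw [mem_P0]
    have h3 := h1.2 ⟨X 0, Set.mem_insert _ _⟩
    change aeval (g z).rep (X 0) = 0 at h3
    rwa [aeval_X] at h3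
  by_contra hcon
  apply hcon
  refine geo_const (F := fam (Van y)) (F' := fam (insert (X 0) (Van y))) (α := α) hE (fun i => ?_)
    hα hB (Δ := ∅) Set.finite_empty (fun x hx hx0 => Or.inl ⟨hx.1, fun i => ?_⟩)
      (fun g hg hgt _ => ?_) hf
  · rcases i.2 with h | h
    · change IsForm (i.1)
      rw [h]
      exact ⟨1, isHomogeneous_X _ _⟩
    · exact h.1
  · rcases i.2 with h | h
    · change aeval x i.1 = 0
      rw [h, aeval_X, hx0]
    · exact hx.2 ⟨i.1, h⟩
  · by_contra hgnc
    apply hcon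
    obtain ⟨l, p, a, b, e1, -, -, e4, e5, e6⟩ := low_curve hy0 hgen hd hg hgnc
    have hcst := same_fibre hE hα hy0 (fun x hx => hx.1) e1 e4 e5 e6 hg hgnc (rel_of_low hd hg hgnc)
      (t := α (g 0).rep) (fun z => hgt z 0)
    obtain ⟨x, hx, hxf⟩ := aff_curve hf
    have h0 : ∀ z, (f z).rep 0 ≠ 0 := fun z => (hf.2 z).2
    have hrel := rel_of_low hd hf hfc
    have hxj : ∀ z, (fun j : Fin n => (f z).rep j.succ / (f z).rep 0) = x z := by
      intro z
      funext j
      have h1 := congrFun (hxf z) j.succ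
      rw [Fin.cons_succ, Pi.smul_apply, smul_eq_mul] at h1
      rw [h1, div_eq_inv_mul]
    have hvan : ∀ G : MvPolynomial (Fin n) ℂ, aeval (fun j : Fin n => y j.succ / y 0) G = 0 ↔
        ∀ z, aeval (x z) G = 0 := by
      intro G
      have h1 := hrel (hmg G) ⟨_, hmg_form G⟩
      have h2 : val y (hmg G) = 0 ↔ aeval (fun j : Fin n => y j.succ / y 0) G = 0 := by
        change aeval y (hmg G) = 0 ↔ _
        rw [hmg_aeval hy0, mul_eq_zero, or_iff_right (pow_ne_zero _ hy0)]
      have h3 : ∀ z, val (f z).rep (hmg G) = 0 ↔ aeval (x z) G = 0 := by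
        intro z
        change aeval (f z).rep (hmg G) = 0 ↔ _
        rw [hmg_aeval (h0 z), mul_eq_zero, or_iff_right (pow_ne_zero _ (h0 z)), hxj z]
      rw [← h2, h1]
      exact forall_congr' h3
    obtain ⟨z0, hz0⟩ : ∃ z0, aeval (x z0) (a * b) ≠ 0 := by
      by_contra hcon
      push Not at hcon
      have h1 := (hvan (a * b)).2 hcon
      rw [map_mul] at h1
      exact (mul_ne_zero e4 e5) h1
    rw [map_mul] at hz0
    have hza := left_ne_zero_of_mul hz0
    have hzb := right_ne_zero_of_mul hz0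
    have hev : ∀ᶠ z in 𝓝 z0, α (f z).rep = α (g 0).rep := by
      filter_upwards [(diff_aeval hx a).continuous.continuousAt.eventually_ne hza,
        (diff_aeval hx b).continuous.continuousAt.eventually_ne hzb] with z h1 h2
      have h3 := e6 (x z) (fun G hG => (hvan G).1 hG z) h1 h2
      have h4 := hcst _ (div_ne_zero h1 h2)
      rw [← h3, hxf z, hα.homog _ (hf.2 z).1 _ (inv_ne_zero (h0 z))] at h4
      exact h4
    have tv := tv_cone hE hα
    have hP := holP_of hf.1
    obtain ⟨ψ, hψ, ho⟩ := tv.exists_lift hP fun z => mem_TS (hf.2 z).1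
    have hval : ∀ w, α (f w).rep = Submodule.Quotient.mk (ψ w) := by
      intro w
      rw [← aM_Phi (cone_conic hE) hα (hf.2 w).1]
      exact (mem_La_iff.1 (ho w)).symm
    have hψ0 : ∀ᶠ w in 𝓝 z0, ψ w - ψ z0 ∈ La L := by
      filter_upwards [hev] with w hw
      rw [mem_La_iff, ← hval, ← hval, hw, hev.self_of_nhds]
    have hψc := tv.ev_const (f := fun w => ψ w - ψ z0) (z0 := z0)
      ((hψ.sub_const _).continuous.continuousAt) hψ0
    have hψe : ψ = fun _ => ψ z0 :=
      AnalyticOnNhd.eq_of_eventuallyEq (z₀ := z0) (fun z _ => hψ.analyticAt z)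
        (fun z _ => analyticAt_const) (hψc.mono fun w hw => by
          simp only [sub_self] at hw
          exact sub_eq_zero.1 hw)
    intro z w
    rw [hval z, hval w, congrFun hψe z, congrFun hψe w]

end Pool.Agent.U647.GB
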