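import Pool.Agent.U647.GB.Main
import Pool.Agent.U647.IS.Geo
import Pool.Agent.N154.TC.AGeo

/-!
# Entire curves in affine varieties over complex tori: geometric form
-/

set_option autoImplicit false

open Filter Topology Metric Set LinearAlgebra.Projectivization

namespace Pool.Agent.U647.GB

open Pool.Agent.N154.TC
open Pool.Agent.N154.TB (Zeros CurveIn IsConst BrodyHyp)
open FF Pool.Agent.Y190.OP Pool.Agent.W602.GT
open Pool.Agent.N154.TT (HolToTorus)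
open Pool.Agent.N154.GG (HolMap HolMapOn toProj Phi_rep_toProj proj_ext holMap_of holP_of PDisc
  Extends PunctIn holMapOn_of holP_of_on)

variable {n m : ℕ} {ι ι' : Type} {F : ι → MvPolynomial (Fin (n + 1)) ℂ}
  {F' : ι' → MvPolynomial (Fin (n + 1)) ℂ} {L : Submodule ℤ (Fin m → ℂ)}
  {α : (Fin (n + 1) → ℂ) → (Fin m → ℂ) ⧸ L}

/-- the affine part of a projective set -/
def AffC (F : ι → MvPolynomial (Fin (n + 1)) ℂ) : Set (Fin (n + 1) → ℂ) :=
  {x | x ∈ Cone F ∧ x 0 ≠ 0}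

theorem conic_aff (hF : ∀ i, IsForm (F i)) : Conic (AffC F) := fun x hx =>
  ⟨(cone_conic hF x hx.1).1, fun c hc => ⟨(cone_conic hF x hx.1).2 c hc, by
    rw [Pi.smul_apply, smul_eq_mul]
    exact mul_ne_zero hc hx.2⟩⟩

theorem toProj_curveIn {X : Set (Fin (n + 1) → ℂ)} (hX : Conic X) {Q : ℂ → Mat (n + 1)}
    (hQ : HolP univ Q) (hQX : ∀ z, Q z ∈ TS X) : CurveIn X fun z => toProj (Q z) :=
  ⟨holMap_of hQ, fun z => rep_toProj hX (hQX z)⟩

theorem const_of_toProj {X : Set (Fin (n + 1) → ℂ)} (hX : Conic X) {Q : ℂ → Mat (n + 1)}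
    (hQX : ∀ z, Q z ∈ TS X) (h : IsConst fun z => toProj (Q z)) : ∀ z, Q z = Q 0 := by
  intro z
  have h3 := congrArg (fun p : ℙ ℂ (Fin (n + 1) → ℂ) => Phi p.rep) (h z 0)
  change Phi (toProj (Q z)).rep = Phi (toProj (Q 0)).rep at h3
  rwa [Phi_rep_toProj (TS_PM hX (hQX z)), Phi_rep_toProj (TS_PM hX (hQX 0))] at h3

theorem ext_of (hF' : ∀ i, IsForm (F' i)) (hB : BrodyHyp (Cone F')) : Ext (TS (Cone F')) := by
  intro P hP hPB
  have hX := cone_conic hF'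
  obtain ⟨f', h1, h2, h3⟩ := (Pool.Agent.U647.IS.geo_of_brody hF' hB).2 (fun z => toProj (P z))
    ⟨holMapOn_of hP, fun z hz => rep_toProj hX (hPB z hz)⟩
  refine ⟨fun z => Phi (f' z).rep, holP_of_on h1, fun z hz => mem_TS (h2 z hz), fun z hz => ?_⟩
  change Phi (f' z).rep = P z
  rw [h3 z hz]
  exact Phi_rep_toProj (TS_PM hX (hPB z hz))

/-- the data of an affine variety over a torus -/
theorem gd_of [DiscreteTopology L] [IsZLattice ℝ L] (hF : ∀ i, IsForm (F i))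
    (hF' : ∀ i, IsForm (F' i)) (hα : HolToTorus (Cone F) L α) (hB : BrodyHyp (Cone F'))
    {Δ : Set ((Fin m → ℂ) ⧸ L)} (hΔ : Δ.Finite)
    (hbd : ∀ x ∈ Cone F, x 0 = 0 → x ∈ Cone F' ∨ α x ∈ Δ)
    (hfib : ∀ f, CurveIn (AffC F) f → (∀ z w, α (f z).rep = α (f w).rep) → α (f 0).rep ∉ Δ →
      IsConst f) :
    ∃ D : Finset (Fin m → ℂ), GD (TS (Cone F)) (TS (Cone F')) 0 (La L) (aM L α (Cone F)) D := by
  classical
  have hZ := cone_conic hF
  have hZ' := cone_conic hF'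
  have hZc : IsCompact (TS (Cone F)) := isCompact_TF hF
  refine ⟨hΔ.toFinset.image Quotient.out, ?_⟩
  have hmem : ∀ (c : Fin m → ℂ), (Submodule.Quotient.mk c : (Fin m → ℂ) ⧸ L) ∈ Δ →
      ∃ d ∈ hΔ.toFinset.image Quotient.out, c - d ∈ La L := by
    intro c hc
    refine ⟨(Submodule.Quotient.mk c : (Fin m → ℂ) ⧸ L).out, Finset.mem_image.2
      ⟨_, hΔ.mem_toFinset.2 hc, rfl⟩, ?_⟩
    rw [mem_La_iff]
    exact (Quotient.out_eq _).symm
  refine
    { tv := td_of hZ hα hZc subset_rfl ?_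
      cl := hZc.isClosed
      Bc := isCompact_TF hF'
      BP := TS_PM hZ'
      Bh := fun P hP hPB => const_of_toProj hZ' hPB (hB _ (toProj_curveIn hZ' hP hPB))
      ext := ext_of hF' hB
      bd := ?_
      fib := ?_ }
  · intro 𝓤 h H h1 h2 h3 h4 z
    refine hZc.isClosed.mem_of_tendsto (h3.pointwise (mem_univ z)) ?_
    filter_upwards [h1 (‖z‖ + 1)] with k hk
    exact hk.2 z (mem_ball_zero_iff.2 (by linarith))
  · rintro M ⟨u, hu, rfl⟩ h0 hd
    have hu0 : u 0 = 0 := by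
      by_contra hcon
      exact (Phi_diag_ne (hZ u hu).1).2 hcon h0
    rcases hbd u hu hu0 with h1 | h1
    · exact ⟨u, h1, rfl⟩
    · exfalso
      rw [← aM_Phi hZ hα hu] at h1
      obtain ⟨d, hd1, hd2⟩ := hmem _ h1
      exact hd d hd1 hd2
  · intro P c hP hPV ho hc
    have hX := conic_aff hF
    have hPX : ∀ z, P z ∈ TS (AffC F) := by
      intro z
      obtain ⟨⟨u, hu, e⟩, h0⟩ := hPV z
      rw [e] at h0
      exact ⟨u, ⟨hu, (Phi_diag_ne (hZ u hu).1).1 h0⟩, e⟩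
    have hval : ∀ z, α (toProj (P z)).rep = Submodule.Quotient.mk c := by
      intro z
      rw [← aM_rep hZ hα (hPV z).1]
      exact (mem_La_iff.1 (ho z)).symm
    refine const_of_toProj hX hPX (hfib _ (toProj_curveIn hX hP hPX) (fun z w => ?_) ?_)
    · rw [hval z, hval w]
    · rw [hval 0]
      intro h1
      obtain ⟨d, hd1, hd2⟩ := hmem c h1
      exact hc d hd1 hd2

/-- **Entire curves in affine varieties over complex tori** lie in the fibres -/
theorem geo_const [DiscreteTopology L] [IsZLattice ℝ L] (hF : ∀ i, IsForm (F i))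
    (hF' : ∀ i, IsForm (F' i)) (hα : HolToTorus (Cone F) L α) (hB : BrodyHyp (Cone F'))
    {Δ : Set ((Fin m → ℂ) ⧸ L)} (hΔ : Δ.Finite)
    (hbd : ∀ x ∈ Cone F, x 0 = 0 → x ∈ Cone F' ∨ α x ∈ Δ)
    (hfib : ∀ f, CurveIn (AffC F) f → (∀ z w, α (f z).rep = α (f w).rep) → α (f 0).rep ∉ Δ →
      IsConst f) {f : ℂ → ℙ ℂ (Fin (n + 1) → ℂ)} (hf : CurveIn (AffC F) f) :
    ∀ z w, α (f z).rep = α (f w).rep := by
  have hZ := cone_conic hF
  obtain ⟨D, gd⟩ := gd_of hF hF' hα hB hΔ hbd hfib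
  have hP := holP_of hf.1
  have hPV : ∀ z, Phi (f z).rep ∈ Vo (TS (Cone F)) 0 := fun z =>
    ⟨mem_TS (hf.2 z).1, (Phi_diag_ne (f z).rep_nonzero).2 (hf.2 z).2⟩
  obtain ⟨φ, hφ, ho⟩ := gd.tv.exists_lift hP fun z => (hPV z).1
  have hc := gd.const hP hPV hφ ho
  have h1 : ∀ z, α (f z).rep = Submodule.Quotient.mk (φ 0) := by
    intro z
    rw [← aM_Phi hZ hα (hf.2 z).1, ← hc z]
    exact (mem_La_iff.1 (ho z)).symm
  intro z w
  rw [h1 z, h1 w]

end Pool.Agent.U647.GB
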