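import Pool.Agent.U647.GB.Gm
import Pool.Agent.U647.AF.Tor
import Pool.Agent.U647.AF.Fin
import Pool.Agent.U647.GB.Geo

/-!
# Entire curves with one-dimensional closure
-/

set_option autoImplicit false

open Filter Topology MvPolynomial LinearAlgebra.Projectivization

namespace Pool.Agent.U647.GB

open Pool.Agent.U647.AF
open Pool.Agent.W602.GT (IsForm val Cone SubVar coords VarPts)
open Pool.Agent.N154.TB (Zeros CurveIn IsConst BrodyHyp)
open Pool.Agent.N154.TC (Compl Stratum LocOne)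
open Pool.Agent.N154.GG (HolMap projDist holP_of proj_ext)
open Pool.Agent.N155 (exists_closure nz nz_Phi spec_dense)
open Pool.Agent.Y190.OP (Phi HolP)
open Pool.Agent.TH143.HE (gm)

variable {n : ℕ}

/-- the hyperplane at infinity -/
noncomputable def P0 : Unit → Unit → MvPolynomial (Fin (n + 1)) ℂ := fun _ _ => X 0

theorem mem_P0 {x : Fin (n + 1) → ℂ} (a : Unit) : x ∈ Zeros (P0 (n := n) a) ↔ x 0 = 0 := by
  constructor
  · intro h
    have h1 := h ()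
    unfold P0 at h1
    rwa [val_ev, eval_X] at h1
  · intro h _
    unfold P0
    rw [val_ev, eval_X]
    exact h

theorem bd0 (F : Set (MvPolynomial (Fin (n + 1)) ℂ)) : Boundary F (P0 (n := n)) where
  form := fun _ _ => ⟨1, isHomogeneous_X _ _⟩
  union := fun x _ => ⟨fun h => ⟨(), (mem_P0 ()).2 h⟩, fun ⟨a, h⟩ => (mem_P0 a).1 h⟩
  loc := fun _ _ _ => ⟨(), Eventually.of_forall fun _ _ h1 _ => h1⟩

/-- the forms which vanish on the curve are those which vanish at the point -/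
def Rel {K : Type} [Field K] [Algebra ℂ K] (g : ℂ → ℙ ℂ (Fin (n + 1) → ℂ)) (y : Fin (n + 1) → K) :
    Prop :=
  ∀ G : MvPolynomial (Fin (n + 1)) ℂ, IsForm G → (val y G = 0 ↔ ∀ z, val (g z).rep G = 0)

theorem exists_rel {g : ℂ → ℙ ℂ (Fin (n + 1) → ℂ)} (hg : HolMap g) :
    ∃ (K1 : Type) (_ : Field K1) (_ : Algebra ℂ K1) (w1 : ℕ) (y1 : Fin (n + 1) → K1), y1 ≠ 0 ∧
      coords ℂ y1 = ⊤ ∧ Algebra.trdeg ℂ K1 = w1 ∧ Rel g y1 ∧ (w1 = 0 → IsConst g) := by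
  obtain ⟨K1, _, _, w, y1, hy1, hgen, hw, hrel, hc⟩ := exists_closure (holP_of hg)
  refine ⟨K1, _, _, w, y1, hy1, hgen, hw, fun G hG => ?_, fun h0 z z' => ?_⟩
  · rw [hrel G hG]
    refine forall_congr' fun z => ?_
    obtain ⟨d, hd⟩ := hG
    rw [nz_Phi hd (g z).rep_nonzero, val_ev, not_not]
  · exact proj_ext ((hc h0 z).trans (hc h0 z').symm)

theorem Rel.aff {K : Type} [Field K] [Algebra ℂ K] {g : ℂ → ℙ ℂ (Fin (n + 1) → ℂ)}
    {y : Fin (n + 1) → K} (h : Rel g y) (hg : HolMap g) (h0 : ∀ z, (g z).rep 0 ≠ 0) :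
    CurveIn (Aff (Van y)) g := by
  refine ⟨hg, fun z => ?_⟩
  rw [aff_van]
  exact ⟨⟨(g z).rep_nonzero, fun G hG hv => (h G hG).1 hv z⟩, h0 z⟩

theorem Rel.ne {K : Type} [Field K] [Algebra ℂ K] {g : ℂ → ℙ ℂ (Fin (n + 1) → ℂ)}
    {y : Fin (n + 1) → K} (h : Rel g y) (h0 : ∀ z, (g z).rep 0 ≠ 0) : y 0 ≠ 0 := by
  intro h1
  have h2 := (h (X 0) ⟨1, isHomogeneous_X _ _⟩).1 (by
    unfold Pool.Agent.W602.GT.val
    rw [aeval_X, h1]) 0
  rw [val_ev, eval_X] at h2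
  exact h0 0 h2

/-- curves in `Aff (Van y)`, where `y` has dimension one, have `y` as generic point -/
theorem rel_of_low {K : Type} [Field K] [Algebra ℂ K] {y : Fin (n + 1) → K}
    (hd : Algebra.trdeg ℂ K = (1 : ℕ)) {g : ℂ → ℙ ℂ (Fin (n + 1) → ℂ)}
    (hg : CurveIn (Aff (Van y)) g) (hnc : ¬ IsConst g) : Rel g y := by
  have hv : ∀ G : MvPolynomial (Fin (n + 1)) ℂ, IsForm G → val y G = 0 → ∀ z, val (g z).rep G = 0 :=
    fun G hG hG0 z => (hg.2 z).1.2 ⟨G, hG, hG0⟩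
  intro G hG
  refine ⟨hv G hG, fun h => ?_⟩
  obtain ⟨K1, _, _, w1, y1, hy1, hgen1, hw1, hrel, hc⟩ := exists_rel hg.1
  have h1 : 1 ≤ w1 := by
    by_contra hcon
    exact hnc (hc (by omega))
  exact spec_dense hy1 hgen1 hd hw1 h1 (fun G' hG' h' => (hrel G' hG').2 (hv G' hG' h')) hG
    ((hrel G hG).2 h)

/-- the boundary of a curve is hyperbolic -/
theorem strat_low {K : Type} [Field K] [Algebra ℂ K] {y : Fin (n + 1) → K} (hy0 : y 0 ≠ 0)
    (hd : Algebra.trdeg ℂ K = (1 : ℕ)) (I : Set Unit) (hI : I.Nonempty) :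
    BrodyHyp (Stratum (fam (Van y)) (P0 (n := n)) I) := by
  intro g hg
  obtain ⟨a, ha⟩ := hI
  obtain ⟨K1, _, _, w1, y1, hy1, hgen1, hw1, hrel, hc⟩ := exists_rel hg.1
  apply hc
  by_contra hcon
  have h1 := spec_dense hy1 hgen1 hd hw1 (by omega) (fun G' hG' h' => (hrel G' hG').2
    fun z => (hg.2 z).1.2 ⟨G', hG', h'⟩) ⟨1, isHomogeneous_X ℂ (0 : Fin (n + 1))⟩
    ((hrel (X 0) ⟨1, isHomogeneous_X _ _⟩).2 fun z => by
      rw [val_ev, eval_X]
      exact (mem_P0 a).1 (((hg.2 z).2 a).1 ha))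
  unfold Pool.Agent.W602.GT.val at h1
  rw [aeval_X] at h1
  exact hy0 h1

/-- **Affine curves with entire curves are images of `G_m`** -/
theorem low_curve {K : Type} [Field K] [Algebra ℂ K] {y : Fin (n + 1) → K} (hy0 : y 0 ≠ 0)
    (hgen : coords ℂ y = ⊤) (hd : Algebra.trdeg ℂ K = (1 : ℕ)) {g : ℂ → ℙ ℂ (Fin (n + 1) → ℂ)}
    (hg : CurveIn (Aff (Van y)) g) (hnc : ¬ IsConst g) :
    ∃ (l : ℕ) (p : Fin n → Polynomial ℂ) (a b : MvPolynomial (Fin n) ℂ),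
      (∀ u : ℂ, u ≠ 0 → (Fin.cons 1 (gm l p u) : Fin (n + 1) → ℂ) ∈ Aff (Van y)) ∧
      (∃ u : ℂ, u ≠ 0 ∧ gm l p u ≠ gm l p 1) ∧
      (∀ G : MvPolynomial (Fin (n + 1)) ℂ, IsForm G →
        (∀ u : ℂ, u ≠ 0 → val (Fin.cons 1 (gm l p u) : Fin (n + 1) → ℂ) G = 0) → val y G = 0) ∧
      aeval (fun j : Fin n => y j.succ / y 0) a ≠ 0 ∧
      aeval (fun j : Fin n => y j.succ / y 0) b ≠ 0 ∧
      ∀ x : Fin n → ℂ, (∀ G : MvPolynomial (Fin n) ℂ,
        aeval (fun j : Fin n => y j.succ / y 0) G = 0 → aeval x G = 0) →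
          aeval x a ≠ 0 → aeval x b ≠ 0 → x = gm l p (aeval x a / aeval x b) := by
  have hbE := bd0 (Van y)
  have hE : ∀ i, IsForm (fam (Van y) i) := fun i => i.2.1
  have hg' := hg
  rw [← hbE.compl] at hg'
  obtain ⟨h, h1, h2, -, h4⟩ := open_brody (F := fam (Van y)) hE hbE.form
    (strat_low hy0 hd) hbE.loc hg' hnc
  have h1' := h1
  rw [hbE.compl] at h1'
  have h5 := gm_alg (F := fam (Van y)) hE hbE.form (fun x hx => by
      rw [hbE.compl] at hx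
      exact hx.2) (fun x hx h0 => by
      rw [hbE.compl]
      exact ⟨hx, h0⟩) hgen hd h1 h2 h4 (rel_of_low hd h1' h2)
  rwa [hbE.compl] at h5

end Pool.Agent.U647.GB
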