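import Mathlib

/-!
# Degrees of rational parametrizations
-/

set_option autoImplicit false

open MvPolynomial IntermediateField

namespace Pool.Agent.U647.GB

variable {n : ℕ}

/-- the relation between two elements -/
noncomputable def ev2 {K : Type} [Field K] [Algebra ℂ K] (a b : K) :
    Polynomial (MvPolynomial (Fin 1) ℂ) →+* K :=
  Polynomial.eval₂RingHom (aeval (fun _ : Fin 1 => b) : MvPolynomial (Fin 1) ℂ →ₐ[ℂ] K).toRingHom a

theorem minpoly_le {K : Type} [Field K] [Algebra ℂ K] {a b : K} (hb : Transcendental ℂ b) {D : ℕ}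
    {R : Polynomial (MvPolynomial (Fin 1) ℂ)} (hR : R ≠ 0) (hD : R.natDegree ≤ D)
    (h : ev2 a b R = 0) : Module.finrank ℂ⟮b⟯ ℂ⟮b⟯⟮a⟯ ≤ D := by
  obtain ⟨φ, hφ⟩ : ∃ φ : MvPolynomial (Fin 1) ℂ →ₐ[ℂ] ℂ⟮b⟯,
      φ = aeval (fun _ : Fin 1 => IntermediateField.AdjoinSimple.gen ℂ b) := ⟨_, rfl⟩
  have hcomp : ∀ G, algebraMap ℂ⟮b⟯ K (φ G) = aeval (fun _ : Fin 1 => b) G := by
    intro G
    have h1 : ((IntermediateField.val ℂ⟮b⟯).comp φ) = aeval (fun _ : Fin 1 => b) := by
      rw [hφ]
      apply MvPolynomial.algHom_ext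
      intro i
      simp
    exact AlgHom.congr_fun h1 G
  have hinj : Function.Injective φ := by
    have h1 : AlgebraicIndependent ℂ (fun _ : Fin 1 => b) := by
      rw [algebraicIndependent_unique_type_iff]
      exact hb
    intro G G' hGG
    apply h1
    rw [← hcomp, ← hcomp, hGG]
  have h1 : R.map φ.toRingHom ≠ 0 := by
    rwa [Ne, Polynomial.map_eq_zero_iff hinj]
  have h2 : Polynomial.aeval a (R.map φ.toRingHom) = 0 := by
    rw [Polynomial.aeval_def, Polynomial.eval₂_map]
    have h3 : (algebraMap ℂ⟮b⟯ K).comp φ.toRingHom =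
        (aeval (fun _ : Fin 1 => b) : MvPolynomial (Fin 1) ℂ →ₐ[ℂ] K).toRingHom :=
      RingHom.ext hcomp
    rw [h3]
    exact h
  have halg : IsIntegral ℂ⟮b⟯ a := (isAlgebraic_iff_isIntegral).1 ⟨_, h1, h2⟩
  rw [IntermediateField.adjoin.finrank halg]
  refine (Polynomial.natDegree_le_of_dvd (minpoly.dvd _ _ h2) h1).trans ?_
  exact Polynomial.natDegree_map_le.trans hD

/-- the degree of a field over a subfield generated by one element -/
theorem finrank_le {K : Type} [Field K] [Algebra ℂ K] {f : Fin n → K}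
    (hgen : IntermediateField.adjoin ℂ (Set.range f) = ⊤) {D : ℕ} {b : K} (hb : Transcendental ℂ b)
    (hrel : ∀ i, ∃ R : Polynomial (MvPolynomial (Fin 1) ℂ), R ≠ 0 ∧ R.natDegree ≤ D ∧
      ev2 (f i) b R = 0) : Module.finrank ℂ⟮b⟯ K ≤ D ^ n := by
  classical
  have h1 : ∀ s : Finset (Fin n),
      Module.finrank ℂ⟮b⟯ (IntermediateField.adjoin ℂ⟮b⟯ (f '' s)) ≤ D ^ s.card := by
    intro s
    induction s using Finset.induction_on with
    | empty =>
      have h0 : f '' (((∅ : Finset (Fin n)) : Set (Fin n))) = ∅ := by simp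
      rw [h0, Finset.card_empty, pow_zero, IntermediateField.adjoin_empty,
        IntermediateField.finrank_bot]
    | insert i s hi ih =>
      obtain ⟨R, hR, hRD, hR0⟩ := hrel i
      rw [Finset.coe_insert, Set.image_insert_eq, Set.insert_eq, IntermediateField.adjoin_union,
        Finset.card_insert_of_notMem hi, pow_succ']
      exact (IntermediateField.finrank_sup_le _ _).trans
        (Nat.mul_le_mul (minpoly_le hb hR hRD hR0) ih)
  have h2 := h1 Finset.univ
  rw [Finset.coe_univ, Set.image_univ, Finset.card_univ, Fintype.card_fin] at h2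
  have h3 : IntermediateField.adjoin ℂ⟮b⟯ (Set.range f) = ⊤ := by
    rw [eq_top_iff]
    intro x _
    have h4 : x ∈ IntermediateField.adjoin ℂ (Set.range f) := by
      rw [hgen]
      trivial
    have h5 : IntermediateField.adjoin ℂ (Set.range f) ≤
        (IntermediateField.adjoin ℂ⟮b⟯ (Set.range f)).restrictScalars ℂ := by
      rw [IntermediateField.adjoin_le_iff]
      exact IntermediateField.subset_adjoin _ _
    exact h5 h4
  rw [h3, IntermediateField.finrank_top'] at h2
  exact h2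

theorem ratfunc_le {f : Fin n → RatFunc ℂ} (hgen : IntermediateField.adjoin ℂ (Set.range f) = ⊤)
    {D : ℕ} (hrel : ∀ i j, ∃ R : Polynomial (MvPolynomial (Fin 1) ℂ), R ≠ 0 ∧ R.natDegree ≤ D ∧
      ev2 (f i) (f j) R = 0) (j : Fin n) :
    (f j).num.natDegree ≤ D ^ n ∧ (f j).denom.natDegree ≤ D ^ n := by
  by_cases hc : ∃ c, f j = RatFunc.C c
  · obtain ⟨c, hc⟩ := hc
    rw [hc]
    simp
  · have h1 := finrank_le hgen (RatFunc.transcendental_of_ne_C _ hc) fun i => hrel i j
    rw [RatFunc.finrank_eq_max_natDegree] at h1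
    exact max_le_iff.1 h1

theorem map_ev2 {K K' : Type} [Field K] [Algebra ℂ K] [Field K'] [Algebra ℂ K'] (e : K →ₐ[ℂ] K')
    (a b : K) (R : Polynomial (MvPolynomial (Fin 1) ℂ)) : ev2 (e a) (e b) R = e (ev2 a b R) := by
  unfold ev2
  rw [Polynomial.coe_eval₂RingHom, Polynomial.coe_eval₂RingHom]
  change _ = e.toRingHom _
  rw [Polynomial.hom_eval₂]
  congr 1
  apply MvPolynomial.ringHom_ext
  · intro c
    simp
  · intro i
    simp

/-- **Parametrizations of bounded degree** -/
theorem bounded_param {K : Type} [Field K] [Algebra ℂ K] {v : Fin n → K}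
    (hgen : IntermediateField.adjoin ℂ (Set.range v) = ⊤) {t : K} (ht : Transcendental ℂ t) {m : ℕ}
    {q : Fin n → Polynomial ℂ} (hq : ∀ j, v j * t ^ m = Polynomial.aeval t (q j)) {D : ℕ}
    (hrel : ∀ i j, ∃ R : Polynomial (MvPolynomial (Fin 1) ℂ), R ≠ 0 ∧ R.natDegree ≤ D ∧
      ev2 (v i) (v j) R = 0) :
    ∃ p : Fin n → Polynomial ℂ, ∀ j, (p j).natDegree ≤ 2 * D ^ n ∧
      v j * t ^ (D ^ n) = Polynomial.aeval t (p j) := by
  have ht0 : t ≠ 0 := by
    rintro rfl
    exact ht isAlgebraic_zero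
  have htop : ℂ⟮t⟯ = ⊤ := by
    rw [eq_top_iff, ← hgen, IntermediateField.adjoin_le_iff]
    rintro _ ⟨j, rfl⟩
    have h1 : v j = Polynomial.aeval t (q j) / t ^ m := by
      rw [eq_div_iff (pow_ne_zero _ ht0), hq j]
    rw [h1]
    have h2 := IntermediateField.mem_adjoin_simple_self ℂ t
    refine div_mem ?_ (pow_mem h2 m)
    have h3 : Polynomial.aeval t (q j) = algebraMap ℂ⟮t⟯ K
        (Polynomial.aeval (IntermediateField.AdjoinSimple.gen ℂ t) (q j)) := by
      rw [← Polynomial.aeval_algebraMap_apply]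
      simp
    rw [h3]
    exact (Polynomial.aeval (IntermediateField.AdjoinSimple.gen ℂ t) (q j)).2
  obtain ⟨e, he⟩ : ∃ e : RatFunc ℂ ≃ₐ[ℂ] K, e = (RatFunc.algEquivOfTranscendental t ht).trans
      ((IntermediateField.equivOfEq htop).trans IntermediateField.topEquiv) := ⟨_, rfl⟩
  have heX : e RatFunc.X = t := by
    rw [he]
    simp
  have hep : ∀ q : Polynomial ℂ, e (algebraMap _ _ q) = Polynomial.aeval t q := by
    intro q
    have h1 : (e : RatFunc ℂ →ₐ[ℂ] K).comp (IsScalarTower.toAlgHom ℂ (Polynomial ℂ) (RatFunc ℂ)) =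
        Polynomial.aeval t := by
      apply Polynomial.algHom_ext
      rw [AlgHom.comp_apply, Polynomial.aeval_X]
      have h2 : IsScalarTower.toAlgHom ℂ (Polynomial ℂ) (RatFunc ℂ) Polynomial.X = RatFunc.X :=
        RatFunc.algebraMap_X
      rw [h2]
      exact heX
    exact AlgHom.congr_fun h1 q
  obtain ⟨f, hf⟩ : ∃ f : Fin n → RatFunc ℂ, ∀ j, f j = e.symm (v j) := ⟨_, fun _ => rfl⟩
  have hfe : ∀ j, e (f j) = v j := fun j => by rw [hf, AlgEquiv.apply_symm_apply]
  have hgen' : IntermediateField.adjoin ℂ (Set.range f) = ⊤ := by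
    rw [eq_top_iff]
    intro x _
    have h1 : e x ∈ IntermediateField.adjoin ℂ (Set.range v) := by
      rw [hgen]
      trivial
    have h2 : (IntermediateField.adjoin ℂ (Set.range v)).map (e.symm : K →ₐ[ℂ] RatFunc ℂ) =
        IntermediateField.adjoin ℂ (Set.range f) := by
      rw [IntermediateField.adjoin_map]
      congr 1
      rw [← Set.range_comp]
      congr 1
      funext j
      rw [hf]
      rfl
    rw [← h2]
    exact ⟨e x, h1, e.symm_apply_apply x⟩
  have hb := ratfunc_le hgen' (D := D) fun i j => by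
    obtain ⟨R, h1, h2, h3⟩ := hrel i j
    refine ⟨R, h1, h2, ?_⟩
    have h4 := map_ev2 (e.symm : K →ₐ[ℂ] RatFunc ℂ) (v i) (v j) R
    rw [h3, map_zero] at h4
    rw [hf, hf]
    exact h4
  have hden : ∀ j, ∃ k, k ≤ D ^ n ∧ (f j).denom = Polynomial.X ^ k := by
    intro j
    have h1 : f j = algebraMap _ (RatFunc ℂ) (q j) /
        algebraMap (Polynomial ℂ) (RatFunc ℂ) (Polynomial.X ^ m) := by
      apply e.injective
      rw [map_div₀, hep, hep, hfe, ← hq j, map_pow, Polynomial.aeval_X,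
        mul_div_cancel_right₀ _ (pow_ne_zero _ ht0)]
    have h2 : (f j).denom ∣ Polynomial.X ^ m := by
      rw [h1]
      exact RatFunc.denom_div_dvd _ _
    obtain ⟨k, -, hk⟩ := (dvd_prime_pow (Polynomial.prime_X (R := ℂ)) m).1 h2
    have h3 : (f j).denom = Polynomial.X ^ k :=
      Polynomial.eq_of_monic_of_associated (RatFunc.monic_denom _) (Polynomial.monic_X_pow (R := ℂ) k) hk
    refine ⟨k, ?_, h3⟩
    have h4 := (hb j).2
    rwa [h3, Polynomial.natDegree_X_pow] at h4
  choose k hk hkd using hden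
  refine ⟨fun j => (f j).num * Polynomial.X ^ (D ^ n - k j), fun j => ⟨?_, ?_⟩⟩
  · refine Polynomial.natDegree_mul_le.trans ?_
    rw [Polynomial.natDegree_X_pow]
    have := (hb j).1
    omega
  · rw [← hfe j]
    have h1 : f j = algebraMap _ (RatFunc ℂ) (f j).num / algebraMap _ (RatFunc ℂ) (f j).denom :=
      (RatFunc.num_div_denom _).symm
    have h2 : e (f j) = Polynomial.aeval t (f j).num / t ^ k j := by
      conv_lhs => rw [h1]
      rw [map_div₀, hep, hep, hkd j, map_pow, Polynomial.aeval_X]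
    rw [h2, map_mul, map_pow, Polynomial.aeval_X]
    have h3 : t ^ (D ^ n) = t ^ (D ^ n - k j) * t ^ k j := by
      rw [← pow_add, Nat.sub_add_cancel (hk j)]
    rw [h3]
    have h4 : t ^ k j ≠ 0 := pow_ne_zero _ ht0
    field_simp

end Pool.Agent.U647.GB
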