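import Pool.Agent.N154.TC.Grad
import Pool.Agent.N154.TC.Geo2
import Pool.Agent.N155.Catch

/-!
# Limits of curves outside a hyperplane, on connected open sets
-/

set_option autoImplicit false

open Filter Topology Metric Set

namespace Pool.Agent.U647.GB

open Pool.Agent.Y190.OP
open Pool.Agent.N155 (hurwitz)

variable {N : ℕ}

theorem chart_zero_iff {M : Mat N} (hM : M ∈ PM) {i o : Fin N} (hi : M i i ≠ 0) :
    chart i M o = 0 ↔ M o o = 0 := by
  obtain ⟨u, hu, rfl⟩ := hM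
  have hui := (Phi_diag_ne hu).1 hi
  rw [chart_Phi hu hui, Pi.smul_apply, smul_eq_mul]
  constructor
  · intro h
    by_contra h1
    exact (mul_ne_zero (inv_ne_zero hui) ((Phi_diag_ne hu).1 h1)) h
  · intro h
    by_contra h1
    exact (Phi_diag_ne hu).2 (right_ne_zero_of_mul h1) h

/-- a limit of curves outside a hyperplane lies in the hyperplane or outside -/
theorem dich_on {U : Set ℂ} (hU : IsOpen U) (hUc : IsPreconnected U) {𝓤 : Ultrafilter ℕ}
    {h : ℕ → ℂ → Mat N} {H : ℂ → Mat N} (o : Fin N)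
    (hh : ∀ z ∈ U, ∃ r > 0, ∀ᶠ k in (𝓤 : Filter ℕ), HolP (ball z r) (h k) ∧
      ∀ w ∈ ball z r, h k w o o ≠ 0)
    (hH : HolP U H) (hHc : CConv (𝓤 : Filter ℕ) U h H) :
    (∀ z ∈ U, H z o o = 0) ∨ ∀ z ∈ U, H z o o ≠ 0 := by
  have hcoo : ∀ i : Fin N, Continuous fun M : Mat N => M i i := fun i => continuous_apply_apply i i
  obtain ⟨A', hA⟩ : ∃ A' : Set ℂ, A' = {z | z ∈ U ∧ H z o o = 0} := ⟨_, rfl⟩
  obtain ⟨B', hB⟩ : ∃ B' : Set ℂ, B' = {z | z ∈ U ∧ H z o o ≠ 0} := ⟨_, rfl⟩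
  have hBo : IsOpen B' := by
    rw [isOpen_iff_mem_nhds]
    intro z hz
    rw [hB] at hz ⊢
    have h1 : ContinuousAt (fun w => H w o o) z :=
      (hcoo o).continuousAt.comp (hH.continuousAt hz.1)
    filter_upwards [hU.mem_nhds hz.1, h1.eventually_ne hz.2] with w h2 h3
    exact ⟨h2, h3⟩
  have hAo : IsOpen A' := by
    rw [isOpen_iff_mem_nhds]
    intro z0 hz0
    rw [hA] at hz0
    obtain ⟨hz0U, hz00⟩ := hz0
    obtain ⟨i, hi⟩ := PM.exists_diag (hH.mem_PM hz0U)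
    obtain ⟨r, hr, hrh⟩ := hh z0 hz0U
    have h2 : ∀ᶠ M : Mat N in 𝓝 (H z0), M i i ≠ 0 := (hcoo i).continuousAt.eventually_ne hi
    have h3 := (hHc z0 hz0U).eventually h2
    rw [eventually_prod_iff] at h3
    obtain ⟨pa, hpa, pb, hpb, hab⟩ := h3
    obtain ⟨ρ, hρ, hρs⟩ := Metric.mem_nhds_iff.1 ((hpb.and
      ((hH.continuousAt hz0U).eventually h2)).and ((show ∀ᶠ t in 𝓝 z0, t ∈ U from hU.mem_nhds hz0U).and
      (show ∀ᶠ t in 𝓝 z0, t ∈ ball z0 r from ball_mem_nhds z0 hr)))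
    obtain ⟨f, hf⟩ : ∃ f : ℂ → ℂ, f = fun t => chart i (H t) o := ⟨_, rfl⟩
    obtain ⟨g, hg⟩ : ∃ g : ℕ → ℂ → ℂ, g = fun k t => chart i (h k t) o := ⟨_, rfl⟩
    have hfd : DifferentiableOn ℂ f (ball z0 ρ) := fun t ht => by
      rw [hf]
      exact ((differentiableAt_pi.1 (hH.diff_chart (hρs ht).2.1 (hρs ht).1.2)) o).differentiableWithinAt
    have hgc : CConv (𝓤 : Filter ℕ) (ball z0 ρ) g f := by
      intro t ht
      rw [hf, hg]
      have e1 : ContinuousAt (fun M : Mat N => chart i M o) (H t) :=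
        (continuous_apply o).continuousAt.comp (continuousAt_chart (hρs ht).1.2)
      exact e1.tendsto.comp (hHc t (hρs ht).2.1)
    have hgd : ∀ᶠ k in (𝓤 : Filter ℕ), DifferentiableOn ℂ (g k) (ball z0 ρ) := by
      filter_upwards [hrh, hpa] with k hk hka t ht
      rw [hg]
      exact ((differentiableAt_pi.1 (hk.1.diff_chart (hρs ht).2.2
        (hab hka (hρs ht).1.1))) o).differentiableWithinAt
    have hfz : f z0 = 0 := by
      rw [hf]
      exact (chart_zero_iff (hH.mem_PM hz0U) hi).2 hz00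
    have hfan : AnalyticAt ℂ f z0 := hfd.analyticAt (ball_mem_nhds z0 hρ)
    have hf0 : ∀ᶠ t in 𝓝 z0, f t = 0 := by
      rcases hfan.eventually_eq_zero_or_eventually_ne_zero with h4 | h4
      · exact h4
      · exfalso
        have h5 := hurwitz isOpen_ball hgc hgd (mem_ball_self hρ) hfz h4 hρ
        obtain ⟨k, ⟨w, hw, hw0⟩, hka, hk⟩ := (h5.and (hpa.and hrh)).exists
        rw [hg] at hw0
        exact hk.2 w (hρs hw).2.2 ((chart_zero_iff (hk.1.mem_PM (hρs hw).2.2)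
          (hab hka (hρs hw).1.1)).1 hw0)
    rw [hA]
    filter_upwards [hf0, ball_mem_nhds z0 hρ] with t ht htρ
    rw [hf] at ht
    exact ⟨(hρs htρ).2.1, (chart_zero_iff (hH.mem_PM (hρs htρ).2.1) (hρs htρ).1.2).1 ht⟩
  by_cases hAn : (U ∩ A').Nonempty
  · left
    intro z hz
    by_contra hz0
    have hBn : (U ∩ B').Nonempty := ⟨z, hz, by rw [hB]; exact ⟨hz, hz0⟩⟩
    obtain ⟨x, -, hx1, hx2⟩ := hUc A' B' hAo hBo (fun x hx => by
      by_cases h1 : H x o o = 0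
      · exact Or.inl (by rw [hA]; exact ⟨hx, h1⟩)
      · exact Or.inr (by rw [hB]; exact ⟨hx, h1⟩)) hAn hBn
    rw [hA] at hx1
    rw [hB] at hx2
    exact hx2.2 hx1.2
  · right
    intro z hz h0
    exact hAn ⟨z, hz, by rw [hA]; exact ⟨hz, h0⟩⟩

/-- local bounds for the derivatives give continuous convergence -/
theorem cconv_loc {𝓤 : Ultrafilter ℕ} {h : ℕ → ℂ → Mat N} {H : ℂ → Mat N} {z : ℂ}
    (hHt : Tendsto (fun k => h k z) 𝓤 (𝓝 (H z))) {r K : ℝ} (hr : 0 < r)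
    (hb : ∀ᶠ k in (𝓤 : Filter ℕ), HolP (ball z r) (h k) ∧ ∀ w ∈ ball z r, ‖fderiv ℝ (h k) w‖ ≤ K) :
    Tendsto (fun p : ℕ × ℂ => h p.1 p.2) ((𝓤 : Filter ℕ) ×ˢ 𝓝 z) (𝓝 (H z)) := by
  have hK0 : 0 ≤ K := by
    obtain ⟨k, hk⟩ := hb.exists
    exact (norm_nonneg _).trans (hk.2 z (mem_ball_self hr))
  rw [Metric.tendsto_nhds]
  intro ε hε
  have h2 := Metric.tendsto_nhds.1 hHt (ε / 2) (by positivity)
  rw [eventually_prod_iff]
  refine ⟨_, h2.and hb, fun w => w ∈ ball z r ∧ K * ‖w - z‖ < ε / 2, ?_, ?_⟩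
  · have h5 : Tendsto (fun w => K * ‖w - z‖) (𝓝 z) (𝓝 0) := by
      have : Continuous fun w : ℂ => K * ‖w - z‖ := by fun_prop
      have h6 := this.tendsto z
      simpa using h6
    have h7 : ∀ᶠ w in 𝓝 z, w ∈ ball z r := ball_mem_nhds z hr
    exact h7.and (h5.eventually_lt_const (by positivity))
  · rintro k ⟨hn1, hn2, hn3⟩ w ⟨hw1, hw2⟩
    have h6 : ‖h k w - h k z‖ ≤ K * ‖w - z‖ :=
      (convex_ball z r).norm_image_sub_le_of_norm_fderiv_le
        (fun x hx => (hn2.contDiffAt hx).differentiableAt (by norm_num))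
        (fun x hx => hn3 x hx) (mem_ball_self hr) hw1
    calc dist (h k w) (H z) ≤ dist (h k w) (h k z) + dist (h k z) (H z) := dist_triangle _ _ _
      _ < ε / 2 + ε / 2 := by
          refine add_lt_add ?_ hn1
          rw [dist_eq_norm]
          exact h6.trans_lt hw2
      _ = ε := by ring

end Pool.Agent.U647.GB
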