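import Pool.Agent.U647.GB.Spc

/-!
# Subvarieties not of log general type in affine surfaces over complex tori, for arbitrary boundaries
-/

set_option autoImplicit false

open FF Filter Topology MvPolynomial Metric LinearAlgebra.Projectivization

namespace Pool.Agent.U647.GB

open Pool.Agent.U647.AF
open Pool.Agent.W602.GT (IsForm val Cone SubVar coords VarPts LogGeneralType)
open Pool.Agent.N254.SQ (Eqs NotIn LogGeneral OnSpecialQ OnCurvesQ OnDiscsQ)
open Pool.Agent.N154.TB (Zeros CurveIn IsConst BrodyHyp)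
open Pool.Agent.N154.TT (HolToTorus)
open Pool.Agent.N155 (spec_dense)
open Pool.Agent.TH143.HE (gm)
open Pool.Agent.W603.GR (OffQ)
open Pool.Agent.V1153.UG (GmBdd GmThin GmRuled)

variable {n : ℕ} {K : Type} [Field K] [Algebra ℂ K] {y : Fin (n + 1) → K}

/-- The closure of the affine surface `V` with generic point `y` has a nonconstant holomorphic map `α`
to a complex torus: there are two forms `A₁`, `A₂` of the same degree whose ratio is not constant on
`V`, such that every fibre of `α` on `V` lies in one member `a A₁ + b A₂ = 0` of the pencil. There is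
no hypothesis on the points of the closure at infinity. -/
def MapsToTorus (y : Fin (n + 1) → K) : Prop :=
  ∃ (m : ℕ) (L : Submodule ℤ (Fin m → ℂ)) (_ : DiscreteTopology L) (_ : IsZLattice ℝ L)
    (α : (Fin (n + 1) → ℂ) → (Fin m → ℂ) ⧸ L), HolToTorus (VarPts ℂ y) L α ∧
    ∃ (e : ℕ) (A₁ A₂ : MvPolynomial (Fin (n + 1)) ℂ), A₁.IsHomogeneous e ∧ A₂.IsHomogeneous e ∧
      (∀ a b : ℂ, a • val y A₁ + b • val y A₂ = 0 → a = 0 ∧ b = 0) ∧
      ∀ c, ∃ a b : ℂ, (a ≠ 0 ∨ b ≠ 0) ∧ ∀ x ∈ VarPts ℂ y, x 0 ≠ 0 → α x = c →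
        a * val x A₁ + b * val x A₂ = 0

/-- curves in the surface which are not of log general type lie in a proper closed subset -/
theorem special_free (hy0 : y 0 ≠ 0) (hw : Algebra.trdeg ℂ K = (2 : ℕ))
    (hT : MapsToTorus y) (hnr : ¬ GmRuled (Iy y) (X 0)) :
    ∃ G : MvPolynomial (Fin (n + 1)) ℂ, IsForm G ∧ val y G ≠ 0 ∧
      ∀ (K1 : Type) [Field K1] [Algebra ℂ K1] (y1 : Fin (n + 1) → K1), y1 0 ≠ 0 →
        coords ℂ y1 = ⊤ → Algebra.trdeg ℂ K1 = (1 : ℕ) → Van y ⊆ Van y1 →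
        ¬ LogGeneralType ℂ K1 1 (OffQ (X 0 : MvPolynomial (Fin (n + 1)) ℂ) 1 y1) →
          val y1 G = 0 := by
  classical
  obtain ⟨m, L, hL1, hL2, α, hα, e, A₁, A₂, hA₁, hA₂, hind, hpen⟩ := hT
  have hyA2 : val y A₂ ≠ 0 := by
    intro h
    have h1 := hind 0 1 (by rw [h, zero_smul, smul_zero, add_zero])
    exact one_ne_zero h1.2
  obtain ⟨G, Z, ⟨d, hG⟩, hyG, hZ, hthin⟩ := thin_curves hy0 hw hnr hA₁ hA₂ hyA2
  have hZp : ∀ s : Finset ℂ, ∃ d, (∏ c ∈ s, (C 1 * A₁ + C (-c) * A₂)).IsHomogeneous d :=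
    fun s => ⟨_, IsHomogeneous.prod _ _ (fun _ => e) fun c _ => pencil_hom hA₁ hA₂⟩
  obtain ⟨d2, hd2⟩ := hZp hZ.toFinset
  have hmul : ∀ {R : Type} [Field R] [Algebra ℂ R] (x : Fin (n + 1) → R),
      val x (G * A₂ * ∏ c ∈ hZ.toFinset, (C 1 * A₁ + C (-c) * A₂)) =
        val x G * val x A₂ * ∏ c ∈ hZ.toFinset, val x (C 1 * A₁ + C (-c) * A₂) := by
    intro R _ _ x
    unfold Pool.Agent.W602.GT.val
    rw [map_mul, map_mul, map_prod]
  refine ⟨G * A₂ * ∏ c ∈ hZ.toFinset, (C 1 * A₁ + C (-c) * A₂), ⟨_, (hG.mul hA₂).mul hd2⟩, ?_, ?_⟩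
  · rw [hmul]
    refine mul_ne_zero (mul_ne_zero hyG hyA2) (Finset.prod_ne_zero_iff.2 fun c _ h => ?_)
    rw [pencil_form, ← Algebra.smul_def, ← Algebra.smul_def] at h
    exact one_ne_zero (hind _ _ h).1
  · intro K1 _ _ y1 hy10 hgen1 hw1 hvan hnl
    rw [hmul]
    by_cases hA2 : val y1 A₂ = 0
    · rw [hA2, mul_zero, zero_mul]
    obtain ⟨g, hg, hgnc, hrel⟩ := exists_curve hy10 hgen1 hw1 hnl
    have hcst := const_low hy10 hgen1 hw1 (α := α) (hol_mono hα fun x hx => by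
      rw [← cone_van]
      exact cone_mono hvan hx) hg hgnc
    obtain ⟨a, b, hab, hc⟩ := hpen (α (g 0).rep)
    have h1 : val y1 (C a * A₁ + C b * A₂) = 0 := by
      refine (hrel _ ⟨e, pencil_hom hA₁ hA₂⟩).2 fun z => ?_
      rw [pencil_form]
      refine hc _ ?_ (hg.2 z).2 (hcst z 0)
      rw [← cone_van]
      exact cone_mono hvan (hg.2 z).1
    rw [pencil_form] at h1
    have ha : a ≠ 0 := by
      intro ha
      rcases hab with h2 | h2
      · exact h2 ha
      · rw [ha, map_zero, zero_mul, zero_add] at h1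
        have h3 : algebraMap ℂ K1 b ≠ 0 := by
          rwa [Ne, map_eq_zero]
        exact hA2 ((mul_eq_zero.1 h1).resolve_left h3)
    have ha' : algebraMap ℂ K1 a ≠ 0 := by
      rwa [Ne, map_eq_zero]
    have h2 : val y1 A₁ = algebraMap ℂ K1 (-b / a) * val y1 A₂ := by
      rw [map_div₀, map_neg]
      field_simp
      linear_combination h1
    by_cases hcZ : -b / a ∈ Z
    · have h3 : val y1 (C 1 * A₁ + C (-(-b / a)) * A₂) = 0 := by
        rw [pencil_form, h2, map_one, map_neg]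
        ring
      rw [Finset.prod_eq_zero (hZ.mem_toFinset.2 hcZ) h3, mul_zero]
    · rw [hthin K1 y1 hy10 hgen1 hw1 hvan hnl _ hcZ hA2 h2, zero_mul, zero_mul]

/-- finitely many curves are not of log general type, if the surface is not covered by images of the
multiplicative group -/
theorem finite_free (hy0 : y 0 ≠ 0) (hw : Algebra.trdeg ℂ K = (2 : ℕ))
    (hT : MapsToTorus y) (hnr : ¬ GmRuled (Iy y) (X 0)) : (SpecialCurves y).Finite := by
  obtain ⟨G, ⟨E, hG⟩, hyG, hsp⟩ := special_free hy0 hw hT hnr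
  refine (Pool.Agent.Q96.HE.finite_curves (b := y) (d := 2) hw le_rfl G hG hyG).subset ?_
  rintro W ⟨K1, _, _, y1, hy10, hgen1, hw1, hs, hnl, rfl⟩
  have hvan : Van y ⊆ Van y1 := fun H hH => ⟨hH.1, hs H hH.1 hH.2⟩
  exact ⟨K1, _, _, y1, fun H d hH h => hs H ⟨d, hH⟩ h, hsp K1 y1 hy10 hgen1 hw1 hvan hnl,
    nonconst_of hy10 hgen1 hw1, rfl⟩

/-- **Affine surfaces of log general type over complex tori are strongly of log general type.** -/
theorem strongly (hy0 : y 0 ≠ 0) (hgen : coords ℂ y = ⊤) (hw : Algebra.trdeg ℂ K = (2 : ℕ))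
    (hT : MapsToTorus y) :
    LogGeneral (AtInf n) K 2 y ↔ ProperForm y (OnSpecialQ (Eqs y) (AtInf n)) := by
  constructor
  · intro hL
    have hL' := (logGeneral_inf hy0).1 hL
    obtain ⟨G, hG, hyG, hsp⟩ := special_free hy0 hw hT
      (Pool.Agent.V1153.UG.not_ruled_of_lgt (isHomogeneous_X ℂ (0 : Fin (n + 1)))
        (funField hy0 hgen hw) hL')
    refine ⟨G, hG, hyG, ?_⟩
    intro K1 _ _ w1 y1 hw11 hs hn
    have hy10 := notIn_inf.1 hn
    have hsp1 : ∀ H : MvPolynomial (Fin (n + 1)) ℂ, IsForm H → val y H = 0 → val y1 H = 0 :=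
      fun H hH h0 => hs.mem ⟨H, hH, h0⟩
    by_cases hnl : LogGeneral (AtInf n) K1 w1 y1
    · exact Or.inl hnl
    right
    have hle : w1 ≤ 2 := trdeg_mono hy0 hy10 hs.gen hw hs.dim hsp1
    rcases Nat.lt_or_ge w1 2 with h2 | h2
    · have hw1 : w1 = 1 := by omega
      subst hw1
      have hvan : Van y ⊆ Van y1 := fun H hH => ⟨hH.1, hsp1 H hH.1 hH.2⟩
      exact hsp K1 y1 hy10 hs.gen hs.dim hvan (fun h3 => hnl ((logGeneral_inf hy10).2 h3))
    · exfalso
      have hw1 : w1 = 2 := by omega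
      subst hw1
      refine hnl ((logGeneral_inf hy10).2 (lgt_same hy0 hgen hy10 hs.gen hs.dim (fun H hH =>
        ⟨hsp1 H hH, fun h3 => ?_⟩) hL'))
      exact spec_dense hs.ne hs.gen hw hs.dim le_rfl hsp1 hH h3
  · rintro ⟨G, hG, hyG, h⟩
    by_contra hL
    have h2 := h K 2 y (by norm_num) ⟨fun h0 => hy0 (congrFun h0 0), fun p => p.2.2, hgen, hw⟩
      (notIn_inf.2 hy0)
    exact hyG (h2.resolve_left hL)

/-- affine surfaces over complex tori, arbitrary boundary -/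
theorem free_all (hy0 : y 0 ≠ 0) (hgen : coords ℂ y = ⊤) (hw : Algebra.trdeg ℂ K = (2 : ℕ))
    (hT : MapsToTorus y) :
    (LogGeneral (AtInf n) K 2 y ↔ ProperForm y (OnSpecialQ (Eqs y) (AtInf n))) ∧
    (LogGeneral (AtInf n) K 2 y → (SpecialCurves y).Finite) ∧
    ((SpecialCurves y).Finite ↔ ¬ GmRuled (Iy y) (X 0)) ∧
    (ProperForm y (OnDiscsQ (Eqs y) (AtInf n)) → ProperForm y (OnCurvesQ (Eqs y) (AtInf n))) ∧
    (ProperForm y (OnCurvesQ (Eqs y) (AtInf n)) → (SpecialCurves y).Finite) := by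
  have h1 : (SpecialCurves y).Finite ↔ ¬ GmRuled (Iy y) (X 0) :=
    ⟨not_ruled_of_finite hy0 hgen hw, finite_free hy0 hw hT⟩
  refine ⟨strongly hy0 hgen hw hT, fun hL => h1.2 (Pool.Agent.V1153.UG.not_ruled_of_lgt
    (isHomogeneous_X ℂ (0 : Fin (n + 1))) (funField hy0 hgen hw) ((logGeneral_inf hy0).1 hL)), h1,
    ?_, fun h => finite_special hw (pseudoBrody_iff.1 h)⟩
  rintro ⟨G, hG, hyG, h⟩
  exact ⟨G, hG, hyG, curves_of_discs hG h⟩

end Pool.Agent.U647.GB
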