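import Pool.Agent.U647.GB.Dich

/-!
# Curves over the complement of finitely many points of a complex torus
-/

set_option autoImplicit false

open Filter Topology Metric Set

namespace Pool.Agent.U647.GB

open Pool.Agent.Y190.OP
open Pool.Agent.N154.TC

variable {N m : ℕ}

/-- the punctured unit disc -/
def PD1 : Set ℂ := ball 0 1 \ {0}

/-- curves on the punctured disc in `B` extend -/
def Ext (B : Set (Mat N)) : Prop :=
  ∀ P : ℂ → Mat N, HolP PD1 P → (∀ z ∈ PD1, P z ∈ B) →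
    ∃ P' : ℂ → Mat N, HolP (ball 0 1) P' ∧ (∀ z ∈ ball (0 : ℂ) 1, P' z ∈ B) ∧ ∀ z ∈ PD1, P' z = P z

/-- a compact set `Z` of projection matrices with a map to a complex torus, the hyperplane section
`M o o = 0`, which is contained, off the fibres over the points of `D`, in a hyperbolic compact set
`B`; outside the hyperplane, the fibres over the other points are hyperbolic -/
structure GD (Z B : Set (Mat N)) (o : Fin N) (Λ : AddSubgroup (Fin m → ℂ))
    (a : Mat N → Fin m → ℂ) (D : Finset (Fin m → ℂ)) : Prop where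
  tv : TV Z Λ a
  cl : IsClosed Z
  Bc : IsCompact B
  BP : B ⊆ PM
  Bh : ∀ P : ℂ → Mat N, HolP univ P → (∀ z, P z ∈ B) → ∀ z, P z = P 0
  ext : Ext B
  bd : ∀ M ∈ Z, M o o = 0 → (∀ d ∈ D, a M - d ∉ Λ) → M ∈ B
  fib : ∀ (P : ℂ → Mat N) (c : Fin m → ℂ), HolP univ P → (∀ z, P z ∈ Z ∧ P z o o ≠ 0) →
    Over Λ a P (fun _ => c) → (∀ d ∈ D, c - d ∉ Λ) → ∀ z, P z = P 0

/-- the distance to the points of `D` modulo the lattice is at least `δ` -/
def Far (Λ : AddSubgroup (Fin m → ℂ)) (D : Finset (Fin m → ℂ)) (δ : ℝ) (x : Fin m → ℂ) : Prop :=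
  ∀ d ∈ D, ∀ l ∈ Λ, δ ≤ ‖x - d - l‖

/-- the part outside the hyperplane and far from `D` -/
def Td (Z : Set (Mat N)) (o : Fin N) (Λ : AddSubgroup (Fin m → ℂ)) (a : Mat N → Fin m → ℂ)
    (D : Finset (Fin m → ℂ)) (δ : ℝ) : Set (Mat N) := {M | M ∈ Z ∧ M o o ≠ 0 ∧ Far Λ D δ (a M)}

variable {Z B : Set (Mat N)} {o : Fin N} {Λ : AddSubgroup (Fin m → ℂ)} {a : Mat N → Fin m → ℂ}
  {D : Finset (Fin m → ℂ)} {δ : ℝ} {x y : Fin m → ℂ}

theorem Far.of_sub (h : Far Λ D δ x) (hxy : y - x ∈ Λ) : Far Λ D δ y := by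
  intro d hd l hl
  have h1 := h d hd (l - (y - x)) (Λ.sub_mem hl hxy)
  have e : x - d - (l - (y - x)) = y - d - l := by abel
  rwa [e] at h1

theorem Far.near {δ' : ℝ} (h : Far Λ D δ x) (hxy : ‖y - x‖ ≤ δ - δ') : Far Λ D δ' y := by
  intro d hd l hl
  have h1 := h d hd l hl
  have e : x - d - l = (y - d - l) - (y - x) := by abel
  rw [e] at h1
  have h2 := norm_sub_le (y - d - l) (y - x)
  linarith

theorem Far.notMem (h : Far Λ D δ x) (hδ : 0 < δ) : ∀ d ∈ D, x - d ∉ Λ := by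
  intro d hd hl
  have h1 := h d hd _ hl
  rw [sub_self, norm_zero] at h1
  linarith

theorem far_lim {ι : Type*} {l : Filter ι} [l.NeBot] {s : ι → Fin m → ℂ} {s0 : Fin m → ℂ}
    (hs : ∀ᶠ i in l, Far Λ D δ (s i)) (ht : Tendsto s l (𝓝 s0)) : Far Λ D δ s0 := by
  intro d hd k hk
  refine ge_of_tendsto ((ht.sub_const d).sub_const k).norm ?_
  filter_upwards [hs] with i hi
  exact hi d hd k hk

theorem exists_far (hT : TV Z Λ a) (h : ∀ d ∈ D, x - d ∉ Λ) : ∃ δ > 0, Far Λ D δ x := by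
  classical
  have h1 : ∀ d ∈ D, ∃ δ > 0, ∀ l ∈ Λ, δ ≤ ‖x - d - l‖ := by
    intro d hd
    by_contra hcon
    push Not at hcon
    have h2 : ∀ k : ℕ, ∃ l ∈ Λ, ‖x - d - l‖ < 1 / ((k : ℝ) + 1) := fun k => hcon _ (by positivity)
    choose l hl hl' using h2
    have h3 : Tendsto l atTop (𝓝 (x - d)) := by
      rw [tendsto_iff_norm_sub_tendsto_zero]
      refine squeeze_zero (fun _ => norm_nonneg _) (fun k => ?_) tendsto_one_div_add_atTop_nhds_zero_nat
      rw [norm_sub_rev]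
      exact (hl' k).le
    exact h d hd (hT.mem_lim (l := atTop) (Eventually.of_forall hl) h3).2
  choose! ε hε hε' using h1
  rcases D.eq_empty_or_nonempty with hD | hD
  · refine ⟨1, one_pos, fun d hd => ?_⟩
    rw [hD] at hd
    simp at hd
  · obtain ⟨d0, hd0, hmin⟩ := D.exists_min_image ε hD
    exact ⟨ε d0, hε d0 hd0, fun d hd l hl => (hmin d hd).trans (hε' d hd l hl)⟩

theorem lim_far (hT : TV Z Λ a) (hZ : IsClosed Z) {ι : Type*} {l : Filter ι} [l.NeBot]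
    {M : ι → Mat N} {M0 : Mat N} (hM : ∀ᶠ i in l, M i ∈ Z ∧ Far Λ D δ (a (M i)))
    (ht : Tendsto M l (𝓝 M0)) : M0 ∈ Z ∧ Far Λ D δ (a M0) := by
  have hM0 : M0 ∈ Z := hZ.mem_of_tendsto ht (hM.mono fun _ h => h.1)
  refine ⟨hM0, ?_⟩
  obtain ⟨O, w, hO, hMO, hc, ha, -⟩ := hT.loc M0 hM0
  have h1 : Tendsto (fun i => w (M i)) l (𝓝 (w M0)) := (hc M0 hMO).continuousAt.tendsto.comp ht
  have h2 : ∀ᶠ i in l, Far Λ D δ (w (M i)) := by
    filter_upwards [hM, ht.eventually (hO.mem_nhds hMO)] with i h3 h4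
    refine h3.2.of_sub ?_
    have h5 := Λ.neg_mem (ha _ ⟨h4, h3.1⟩)
    rwa [neg_sub] at h5
  exact (far_lim h2 h1).of_sub (ha _ ⟨hMO, hM0⟩)

theorem Td_sub : Td Z o Λ a D δ ⊆ Z := fun _ h => h.1

/-- the torus data of the part far from `D` -/
theorem GD.tvd (h : GD Z B o Λ a D) (hδ : 0 < δ) : TV (Td Z o Λ a D δ) Λ a where
  comp := h.tv.comp.of_isClosed_subset isClosed_closure (closure_mono Td_sub)
  csub := (closure_mono Td_sub).trans h.tv.csub
  disc := h.tv.disc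
  coc := h.tv.coc
  locc := by
    intro M0 hM0
    obtain ⟨O, w, h1, h2, h3, h4, h5⟩ := h.tv.locc M0 (closure_mono Td_sub hM0)
    exact ⟨O, w, h1, h2, h3, fun M hM => h4 M ⟨hM.1, hM.2.1⟩, h5⟩
  hz := by
    intro 𝓤 f F hf hF hFc hne
    have h1 : ∀ z, F z ∈ Z ∧ Far Λ D δ (a (F z)) := by
      intro z
      refine lim_far (l := (𝓤 : Filter ℕ)) h.tv h.cl ?_ (hFc.pointwise (mem_univ z))
      filter_upwards [hf (‖z‖ + 1)] with n hn
      have h2 := hn.2 z (mem_ball_zero_iff.2 (by linarith))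
      exact ⟨h2.1, h2.2.2⟩
    rcases dich_on isOpen_univ isPreconnected_univ o (fun z _ => ⟨1, one_pos, by
      filter_upwards [hf (‖z‖ + 1)] with n hn
      have hsub : ball z 1 ⊆ ball (0 : ℂ) (‖z‖ + 1) := by
        intro x hx
        rw [mem_ball, dist_eq_norm] at hx
        rw [mem_ball_zero_iff]
        have := norm_add_le (x - z) z
        rw [sub_add_cancel] at this
        linarith
      exact ⟨hn.1.mono hsub, fun w hw => (hn.2 w (hsub hw)).2.1⟩⟩) hF hFc with h2 | h2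
    · exfalso
      apply hne
      exact h.Bh F hF fun z => h.bd _ (h1 z).1 (h2 z (mem_univ z)) ((h1 z).2.notMem hδ)
    · exact fun z => ⟨(h1 z).1, h2 z (mem_univ z), (h1 z).2⟩

theorem GD.fibd (h : GD Z B o Λ a D) (hδ : 0 < δ) : Fib (Td Z o Λ a D δ) Λ a := by
  intro P c hP hPT ho
  refine h.fib P c hP (fun z => ⟨(hPT z).1, (hPT z).2.1⟩) ho ?_
  exact ((hPT 0).2.2.of_sub (ho 0)).notMem hδ

end Pool.Agent.U647.GB
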