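import Pool.Agent.U647.GB.Crg

/-!
# The strong Green-Griffiths-Lang conjecture for affine surfaces over complex tori
-/

set_option autoImplicit false

open Filter Topology MvPolynomial LinearAlgebra.Projectivization

namespace Pool.Agent.U647.GB

open Pool.Agent.U647.AF
open Pool.Agent.W602.GT (IsForm val Cone SubVar coords VarPts LogGeneralType)
open Pool.Agent.N154.TB (Zeros CurveIn IsConst BrodyHyp)
open Pool.Agent.N154.TT (HolToTorus)
open Pool.Agent.N155 (spec_dense)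
open Pool.Agent.TH143.HE (gm)
open Pool.Agent.W603.GR (OffQ)
open Pool.Agent.V1153.UG (GmBdd GmThin GmRuled)

variable {n : ℕ} {K : Type} [Field K] [Algebra ℂ K] {y : Fin (n + 1) → K}

/-- The affine surface `V` with generic point `y` (the points with `x₀ ≠ 0` of its closure
`VarPts ℂ y` in projective space) lies over a complex torus: there is a holomorphic map `α` of its
closure to a complex torus `ℂᵐ / L`, such that

* there are two forms `A₁`, `A₂` of the same degree whose ratio is not constant on `V`, such that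
  every fibre of `α` on `V` lies in one member `a A₁ + b A₂ = 0` of the pencil;
* the points at infinity of the closure of `V` lie in a projective set `{B = 0}` which is Brody
  hyperbolic, or in one of finitely many fibres of `α`. -/
def OverTorus (y : Fin (n + 1) → K) : Prop :=
  ∃ (m : ℕ) (L : Submodule ℤ (Fin m → ℂ)) (_ : DiscreteTopology L) (_ : IsZLattice ℝ L)
    (α : (Fin (n + 1) → ℂ) → (Fin m → ℂ) ⧸ L), HolToTorus (VarPts ℂ y) L α ∧
    (∃ (e : ℕ) (A₁ A₂ : MvPolynomial (Fin (n + 1)) ℂ), A₁.IsHomogeneous e ∧ A₂.IsHomogeneous e ∧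
      (∀ a b : ℂ, a • val y A₁ + b • val y A₂ = 0 → a = 0 ∧ b = 0) ∧
      ∀ c, ∃ a b : ℂ, (a ≠ 0 ∨ b ≠ 0) ∧ ∀ x ∈ VarPts ℂ y, x 0 ≠ 0 → α x = c →
        a * val x A₁ + b * val x A₂ = 0) ∧
    ∃ (B : Set (MvPolynomial (Fin (n + 1)) ℂ)) (Δ : Set ((Fin m → ℂ) ⧸ L)),
      (∀ G ∈ B, IsForm G) ∧ BrodyHyp (Cone (fam B)) ∧ Δ.Finite ∧
        ∀ x ∈ VarPts ℂ y, x 0 = 0 → x ∈ Cone (fam B) ∨ α x ∈ Δ

/-- the affine variety `V` is pseudo Brody hyperbolic: some form, which does not vanish on `V`,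
vanishes on all nonconstant entire curves in `V` -/
def PseudoBrody (y : Fin (n + 1) → K) : Prop :=
  ∃ G : MvPolynomial (Fin (n + 1)) ℂ, IsForm G ∧ val y G ≠ 0 ∧
    ∀ f : ℂ → ℙ ℂ (Fin (n + 1) → ℂ), CurveIn {x | x ∈ VarPts ℂ y ∧ x 0 ≠ 0} f → ¬ IsConst f →
      ∀ z, val (f z).rep G = 0

/-- The closed curves in the affine variety `V` which are not of log general type, each given by the
set of forms vanishing on it. -/
def SpecialCurves (y : Fin (n + 1) → K) : Set (Set (MvPolynomial (Fin (n + 1)) ℂ)) :=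
  {W | ∃ (K1 : Type) (_ : Field K1) (_ : Algebra ℂ K1) (y1 : Fin (n + 1) → K1), y1 0 ≠ 0 ∧
    coords ℂ y1 = ⊤ ∧ Algebra.trdeg ℂ K1 = (1 : ℕ) ∧
    (∀ G : MvPolynomial (Fin (n + 1)) ℂ, IsForm G → val y G = 0 → val y1 G = 0) ∧
    ¬ LogGeneralType ℂ K1 1 (OffQ (X 0 : MvPolynomial (Fin (n + 1)) ℂ) 1 y1) ∧
    W = {G | IsForm G ∧ val y1 G = 0}}

theorem pencil_form {R : Type} [Field R] [Algebra ℂ R] (x : Fin (n + 1) → R) (a b : ℂ)
    (A₁ A₂ : MvPolynomial (Fin (n + 1)) ℂ) :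
    val x (C a * A₁ + C b * A₂) = algebraMap ℂ R a * val x A₁ + algebraMap ℂ R b * val x A₂ := by
  unfold Pool.Agent.W602.GT.val
  rw [map_add, map_mul, map_mul, aeval_C, aeval_C]

theorem pencil_hom {a b : ℂ} {A₁ A₂ : MvPolynomial (Fin (n + 1)) ℂ} {e : ℕ}
    (h1 : A₁.IsHomogeneous e) (h2 : A₂.IsHomogeneous e) : (C a * A₁ + C b * A₂).IsHomogeneous e := by
  have h3 := (isHomogeneous_C (Fin (n + 1)) a).mul h1
  have h4 := (isHomogeneous_C (Fin (n + 1)) b).mul h2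
  rw [zero_add] at h3 h4
  exact h3.add h4

theorem surfacesOverTori (hy0 : y 0 ≠ 0)
    (hw : Algebra.trdeg ℂ K = (2 : ℕ)) (hT : OverTorus y) : SurfacesOverTori (Van y) := by
  obtain ⟨m, L, hL1, hL2, α, hα, ⟨e, A₁, A₂, hA₁, hA₂, hind, hpen⟩, B, Δ, hB, hBh, hΔ, hbd⟩ := hT
  intro K' _ _ w' y' hs hy0' hw2
  have hspec : ∀ G : MvPolynomial (Fin (n + 1)) ℂ, IsForm G → val y G = 0 → val y' G = 0 :=
    fun G hG h => hs.mem ⟨G, hG, h⟩
  have hle : w' ≤ 2 := trdeg_mono hy0 hy0' hs.gen hw hs.dim hspec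
  have hw' : w' = 2 := le_antisymm hle hw2
  have hsub : VarPts ℂ y' ⊆ VarPts ℂ y := fun x hx => ⟨hx.1, fun G hG h => hx.2 G hG (hspec G hG h)⟩
  refine ⟨hw', m, L, hL1, hL2, α, hol_mono hα hsub, fun c => ?_, B, Δ, hB, hBh, hΔ,
    fun x hx hx0 => hbd x (hsub hx) hx0⟩
  obtain ⟨a, b, hab, hc⟩ := hpen c
  refine ⟨C a * A₁ + C b * A₂, ⟨e, pencil_hom hA₁ hA₂⟩, fun h => ?_, fun x hx hx0 hxc => ?_⟩
  · have h1 := spec_dense hs.ne hs.gen hw hs.dim (by omega) hspec ⟨e, pencil_hom hA₁ hA₂⟩ h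
    rw [pencil_form, ← Algebra.smul_def, ← Algebra.smul_def] at h1
    obtain ⟨ha, hb⟩ := hind a b h1
    rcases hab with h2 | h2
    · exact h2 ha
    · exact h2 hb
  · rw [pencil_form]
    exact hc x (hsub hx) hx0 hxc

/-- curves in the surface which are not of log general type lie in a proper closed subset -/
theorem special_in (hy0 : y 0 ≠ 0) (hw : Algebra.trdeg ℂ K = (2 : ℕ))
    (hT : OverTorus y) (hnr : ¬ GmRuled (Iy y) (X 0)) :
    ∃ G : MvPolynomial (Fin (n + 1)) ℂ, IsForm G ∧ val y G ≠ 0 ∧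
      ∀ (K1 : Type) [Field K1] [Algebra ℂ K1] (y1 : Fin (n + 1) → K1), y1 0 ≠ 0 →
        coords ℂ y1 = ⊤ → Algebra.trdeg ℂ K1 = (1 : ℕ) → Van y ⊆ Van y1 →
        ¬ LogGeneralType ℂ K1 1 (OffQ (X 0 : MvPolynomial (Fin (n + 1)) ℂ) 1 y1) →
          val y1 G = 0 := by
  classical
  obtain ⟨m, L, hL1, hL2, α, hα, ⟨e, A₁, A₂, hA₁, hA₂, hind, hpen⟩, -⟩ := hT
  have hyA2 : val y A₂ ≠ 0 := by
    intro h
    have h1 := hind 0 1 (by rw [h, zero_smul, smul_zero, add_zero])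
    exact one_ne_zero h1.2
  obtain ⟨G, Z, ⟨d, hG⟩, hyG, hZ, hthin⟩ := thin_curves hy0 hw hnr hA₁ hA₂ hyA2
  have hZp : ∀ s : Finset ℂ, ∃ d, (∏ c ∈ s, (C 1 * A₁ + C (-c) * A₂)).IsHomogeneous d :=
    fun s => ⟨_, IsHomogeneous.prod _ _ (fun _ => e) fun c _ => pencil_hom hA₁ hA₂⟩
  obtain ⟨d2, hd2⟩ := hZp hZ.toFinset
  have hmul : ∀ {R : Type} [Field R] [Algebra ℂ R] (x : Fin (n + 1) → R),
      val x (G * A₂ * ∏ c ∈ hZ.toFinset, (C 1 * A₁ + C (-c) * A₂)) =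
        val x G * val x A₂ * ∏ c ∈ hZ.toFinset, val x (C 1 * A₁ + C (-c) * A₂) := by
    intro R _ _ x
    unfold Pool.Agent.W602.GT.val
    rw [map_mul, map_mul, map_prod]
  refine ⟨G * A₂ * ∏ c ∈ hZ.toFinset, (C 1 * A₁ + C (-c) * A₂), ⟨_, (hG.mul hA₂).mul hd2⟩, ?_, ?_⟩
  · rw [hmul]
    refine mul_ne_zero (mul_ne_zero hyG hyA2) (Finset.prod_ne_zero_iff.2 fun c _ h => ?_)
    rw [pencil_form, ← Algebra.smul_def, ← Algebra.smul_def] at h
    exact one_ne_zero (hind _ _ h).1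
  · intro K1 _ _ y1 hy10 hgen1 hw1 hvan hnl
    rw [hmul]
    by_cases hA2 : val y1 A₂ = 0
    · rw [hA2, mul_zero, zero_mul]
    obtain ⟨g, hg, hgnc, hrel⟩ := exists_curve hy10 hgen1 hw1 hnl
    have hcst := const_low hy10 hgen1 hw1 (α := α) (hol_mono hα fun x hx => by
      rw [← cone_van]
      exact cone_mono hvan hx) hg hgnc
    obtain ⟨a, b, hab, hc⟩ := hpen (α (g 0).rep)
    have h1 : val y1 (C a * A₁ + C b * A₂) = 0 := by
      refine (hrel _ ⟨e, pencil_hom hA₁ hA₂⟩).2 fun z => ?_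
      rw [pencil_form]
      refine hc _ ?_ (hg.2 z).2 (hcst z 0)
      rw [← cone_van]
      exact cone_mono hvan (hg.2 z).1
    rw [pencil_form] at h1
    have ha : a ≠ 0 := by
      intro ha
      rcases hab with h2 | h2
      · exact h2 ha
      · rw [ha, map_zero, zero_mul, zero_add] at h1
        have h3 : algebraMap ℂ K1 b ≠ 0 := by
          rwa [Ne, map_eq_zero]
        exact hA2 ((mul_eq_zero.1 h1).resolve_left h3)
    have ha' : algebraMap ℂ K1 a ≠ 0 := by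
      rwa [Ne, map_eq_zero]
    have h2 : val y1 A₁ = algebraMap ℂ K1 (-b / a) * val y1 A₂ := by
      rw [map_div₀, map_neg]
      field_simp
      linear_combination h1
    by_cases hcZ : -b / a ∈ Z
    · have h3 : val y1 (C 1 * A₁ + C (-(-b / a)) * A₂) = 0 := by
        rw [pencil_form, h2, map_one, map_neg]
        ring
      rw [Finset.prod_eq_zero (hZ.mem_toFinset.2 hcZ) h3, mul_zero]
    · rw [hthin K1 y1 hy10 hgen1 hw1 hvan hnl _ hcZ hA2 h2, zero_mul, zero_mul]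

theorem aff_eq (y : Fin (n + 1) → K) : {x | x ∈ VarPts ℂ y ∧ x 0 ≠ 0} = Aff (Van y) := by
  rw [aff_van]

/-- surfaces which are not covered by images of `G_m` -/
theorem pseudoBrody_of (hy0 : y 0 ≠ 0) (hw : Algebra.trdeg ℂ K = (2 : ℕ))
    (hT : OverTorus y) (hnr : ¬ GmRuled (Iy y) (X 0)) : PseudoBrody y := by
  obtain ⟨G, hG, hyG, hsp⟩ := special_in hy0 hw hT hnr
  refine ⟨G, hG, hyG, fun f hf hfc => ?_⟩
  rw [aff_eq] at hf
  have hE : ∀ H ∈ ({G} : Set (MvPolynomial (Fin (n + 1)) ℂ)), IsForm H := by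
    intro H hH
    rw [hH]
    exact hG
  have hgm : GmIn (Van y) {G} := by
    intro l p h1 h2 u hu i
    obtain ⟨g, hg, hgnc, hgf, K1, _, _, y1, hy10, hgen1, hw1, hrel⟩ :=
      gm_closure (F := Van y) (fun G hG => hG.1) h1 h2
    have hg1 := hrel.aff hg.1 fun z => (hg.2 z).2
    have hvan : Van y ⊆ Van y1 := fun H hH =>
      ⟨hH.1, (hrel H hH.1).2 fun z => (hg.2 z).1.2 ⟨H, hH⟩⟩
    have h3 := hsp K1 y1 hy10 hgen1 hw1 hvan (not_lgt_of_curve hy10 hgen1 hw1 hg1 hgnc)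
    have h4 := (hrel G hG).1 h3 (Complex.log u)
    have h5 := hgf (Complex.log u)
    rw [Complex.exp_log hu] at h5
    rw [h5]
    have hi : i.1 = G := i.2
    change val _ i.1 = 0
    rw [hi]
    obtain ⟨d, hd⟩ := hG
    rw [val_ev, ev_smul hd, ← val_ev, h4, mul_zero]
  have h6 := curves_in (F := Van y) (E := {G}) (fun H hH => hH.1) (surfacesOverTori hy0 hw hT)
    hE hgm hf hfc
  exact fun z => h6 z ⟨G, rfl⟩

end Pool.Agent.U647.GB
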