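import Pool.Agent.U647.AF.Low
import Pool.Agent.U647.AF.Smo

/-!
# Curves of bounded derivative in affine curves: the birational inverse of the morphism from `G_m`
-/

set_option autoImplicit false

open Filter Topology MvPolynomial LinearAlgebra.Projectivization FF

namespace Pool.Agent.U647.GB

open Pool.Agent.U647.AF
open Pool.Agent.W602.GT (IsForm val Cone SubVar coords VarPts LogGeneralType)
open Pool.Agent.N154.TB (Zeros CurveIn IsConst)
open Pool.Agent.N154.TC (Compl bounded_of_lip)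
open Pool.Agent.N154.GG (projDist holP_of proj_ext)
open Pool.Agent.N155 (StratumCentre HasCentre Ctr exists_closure nz nz_Phi Cv SG TX strat_curve
  finite_noncentre)
open Pool.Agent.Y190.OP (Phi HolP)
open Pool.Agent.W603.LV (canDeg)
open Pool.Agent.TH143.HE (gm)

variable {n : ℕ} {ι ι'' A : Type} {F : ι → MvPolynomial (Fin (n + 1)) ℂ}
  {P : A → ι'' → MvPolynomial (Fin (n + 1)) ℂ}

/-- homogenization of a polynomial in one variable -/
noncomputable def homq (a b : MvPolynomial (Fin n) ℂ) (N : ℕ) (q : Polynomial ℂ) :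
    MvPolynomial (Fin n) ℂ :=
  ∑ i ∈ Finset.range (N + 1), C (q.coeff i) * a ^ i * b ^ (N - i)

theorem aeval_homq {R : Type} [Field R] [Algebra ℂ R] (x : Fin n → R) (a b : MvPolynomial (Fin n) ℂ)
    {N : ℕ} {q : Polynomial ℂ} (hN : q.natDegree ≤ N) (hb : aeval x b ≠ 0) :
    aeval x (homq a b N q) = aeval x b ^ N * Polynomial.aeval (aeval x a / aeval x b) q := by
  unfold homq
  rw [Polynomial.aeval_eq_sum_range' (Nat.lt_succ_of_le hN), Finset.mul_sum, map_sum]
  refine Finset.sum_congr rfl fun i hi => ?_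
  have hi' : i ≤ N := Nat.lt_succ_iff.1 (Finset.mem_range.1 hi)
  rw [map_mul, map_mul, map_pow, map_pow, aeval_C, Algebra.smul_def, div_pow]
  have h1 : aeval x b ^ N = aeval x b ^ (N - i) * aeval x b ^ i := by
    rw [← pow_add, Nat.sub_add_cancel hi']
  rw [h1]
  have h2 : aeval x b ^ i ≠ 0 := pow_ne_zero _ hb
  field_simp

/-- **Curves of bounded derivative in one-dimensional subvarieties of affine varieties** -/
theorem gm_alg [Finite A] (hF : ∀ i, IsForm (F i)) (hPf : ∀ a i, IsForm (P a i))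
    (hx0 : ∀ x ∈ Compl F P, x 0 ≠ 0) (hcl : ∀ x ∈ Cone F, x 0 ≠ 0 → x ∈ Compl F P)
    {K1 : Type} [Field K1] [Algebra ℂ K1] {y1 : Fin (n + 1) → K1} (hgen : coords ℂ y1 = ⊤)
    (hw : Algebra.trdeg ℂ K1 = (1 : ℕ))
    {h : ℂ → ℙ ℂ (Fin (n + 1) → ℂ)} (hh : CurveIn (Compl F P) h) (hnc : ¬ IsConst h)
    (hlip : ∀ z w, projDist (h z) (h w) ≤ 2 * ‖z - w‖)
    (hrel' : ∀ G : MvPolynomial (Fin (n + 1)) ℂ, IsForm G →
      (val y1 G = 0 ↔ ∀ z, val (h z).rep G = 0)) :
    ∃ (l : ℕ) (p : Fin n → Polynomial ℂ) (a b : MvPolynomial (Fin n) ℂ),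
      (∀ u : ℂ, u ≠ 0 → (Fin.cons 1 (gm l p u) : Fin (n + 1) → ℂ) ∈ Compl F P) ∧
      (∃ u : ℂ, u ≠ 0 ∧ gm l p u ≠ gm l p 1) ∧
      (∀ G : MvPolynomial (Fin (n + 1)) ℂ, IsForm G →
        (∀ u : ℂ, u ≠ 0 → val (Fin.cons 1 (gm l p u) : Fin (n + 1) → ℂ) G = 0) → val y1 G = 0) ∧
      aeval (fun j : Fin n => y1 j.succ / y1 0) a ≠ 0 ∧
      aeval (fun j : Fin n => y1 j.succ / y1 0) b ≠ 0 ∧
      ∀ x : Fin n → ℂ, (∀ G : MvPolynomial (Fin n) ℂ,
        aeval (fun j : Fin n => y1 j.succ / y1 0) G = 0 → aeval x G = 0) →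
          aeval x a ≠ 0 → aeval x b ≠ 0 → x = gm l p (aeval x a / aeval x b) := by
  classical
  have hol := holP_of hh.1
  obtain ⟨φ, hφ⟩ : ∃ φ, φ = fun z => Phi (h z).rep := ⟨_, rfl⟩
  rw [← hφ] at hol
  have hnz : ∀ G : MvPolynomial (Fin (n + 1)) ℂ, IsForm G → ∀ z,
      (nz G (φ z) ↔ val (h z).rep G ≠ 0) := by
    rintro G ⟨d, hd⟩ z
    rw [hφ]
    change nz G (Phi (h z).rep) ↔ _
    rw [nz_Phi hd (h z).rep_nonzero, val_ev]
  have hrel : ∀ G : MvPolynomial (Fin (n + 1)) ℂ, IsForm G →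
      (val y1 G = 0 ↔ ∀ z, ¬ nz G (φ z)) := by
    intro G hG
    rw [hrel' G hG]
    exact forall_congr' fun z => by rw [hnz G hG z, not_not]
  have hy00 : y1 0 ≠ 0 := by
    intro h0
    have h1 := (hrel' (X 0) ⟨1, isHomogeneous_X _ _⟩).1 (by
      unfold Pool.Agent.W602.GT.val
      rw [aeval_X, h0]) 0
    rw [val_ev, eval_X] at h1
    exact hx0 _ (hh.2 0) h1
  have hy1 : y1 ≠ 0 := fun h0 => hy00 (by rw [h0]; rfl)
  have hyF : ∀ i, val y1 (F i) = 0 := fun i => (hrel' _ (hF i)).2 fun z => (hh.2 z).1.2 i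
  have hcv : Cv y1 φ := by
    refine ⟨hol, fun z => ⟨(h z).rep, ⟨(h z).rep_nonzero, fun G hG h0 => ?_⟩, by rw [hφ]⟩,
      fun G hG hv => ?_⟩
    · exact (hrel' G hG).1 h0 z
    · by_contra hcon
      push Not at hcon
      exact hv ((hrel G hG).2 hcon)
  have hoff : ∀ a z, ∃ l, val (h z).rep (P a l) ≠ 0 := by
    intro a z
    by_contra hcon
    push Not at hcon
    exact (hh.2 z).2 a hcon
  have hne : ∀ a, ∃ l, val y1 (P a l) ≠ 0 := by
    intro a
    obtain ⟨l, hl⟩ := hoff a 0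
    exact ⟨l, fun h0 => hl ((hrel' _ (hPf a l)).1 h0 0)⟩
  have hav : ∀ a, (∀ z, φ z ∈ SG (P a)) ∨ ∀ z, φ z ∉ SG (P a) := fun a => Or.inl fun z => by
    obtain ⟨l, hl⟩ := hoff a z
    exact ⟨l, (hnz _ (hPf a l) z).2 hl⟩
  have hB : ∀ z, ‖fderiv ℝ φ z‖ ≤ 2 := bounded_of_lip fun z w => by
    rw [hφ]
    exact hlip z w
  have hnl := strat_curve hPf hgen hcv hav hB
  have hff : IsFF ℂ K1 := ⟨Pool.Agent.TH143.GT.ess_of_coords hgen, by rw [hw, Nat.cast_one]⟩
  have hfin := strat_finite hPf hy1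
  obtain ⟨S, hS⟩ : ∃ S : Finset (Place ℂ K1), ∀ Q, Q ∈ S ↔ ¬ StratumCentre P y1 Q :=
    ⟨hfin.toFinset, fun Q => by simp⟩
  have hcan : canDeg ℂ K1 + S.card ≤ 0 := by
    by_contra hcon
    apply hnl
    have h1 := Pool.Agent.Q96.LS.lgt_one S (by omega)
    have h2 : (fun Q => Q ∈ S) = fun Q => ¬ StratumCentre P y1 Q := by
      funext Q
      exact propext (hS Q)
    rwa [h2] at h1
  -- the coordinates are not constant
  have hnconst : ¬ ∀ j, ∃ c : ℂ, y1 j / y1 0 = algebraMap ℂ K1 c := by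
    intro hc
    choose c hc using hc
    apply hnc
    have h1 : ∀ z j, (h z).rep j = c j * (h z).rep 0 := by
      intro z j
      have h2 : IsForm (X j - C (c j) * X 0 : MvPolynomial (Fin (n + 1)) ℂ) :=
        ⟨1, (isHomogeneous_X _ _).sub (by
          have := (isHomogeneous_C (Fin (n + 1)) (c j)).mul (isHomogeneous_X ℂ (0 : Fin (n + 1)))
          rwa [zero_add] at this)⟩
      have h3 := (hrel' _ h2).1 (by
        unfold Pool.Agent.W602.GT.val
        rw [map_sub, map_mul, aeval_X, aeval_X, aeval_C, ← hc j, div_mul_cancel₀ _ hy00, sub_self]) z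
      rw [val_ev, map_sub, map_mul, eval_X, eval_X, eval_C, sub_eq_zero] at h3
      exact h3
    intro z w
    have hz := hx0 _ (hh.2 z)
    have hw := hx0 _ (hh.2 w)
    rw [← (h z).mk_rep, ← (h w).mk_rep, Projectivization.mk_eq_mk_iff']
    refine ⟨(h z).rep 0 / (h w).rep 0, ?_⟩
    funext j
    rw [Pi.smul_apply, smul_eq_mul, h1 z j, h1 w j]
    field_simp
  have hregS : ∀ Q, Q ∉ S → ∀ j, Q.Reg (y1 j / y1 0) := by
    intro Q hQS
    have h1 : StratumCentre P y1 Q := by
      by_contra hcon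
      exact hQS ((hS Q).2 hcon)
    exact (reg_of_centre hF hx0 hy1 hyF fun a => h1 a (hne a)).2
  have hSne : S.Nonempty := by
    by_contra hcon
    rw [Finset.not_nonempty_iff_eq_empty] at hcon
    apply hnconst
    intro j
    exact const_of_reg fun Q => hregS Q (by rw [hcon]; simp) j
  obtain ⟨t, ht, hlau⟩ := Pool.Agent.TH143.LG.laurent hSne hcan
  have htr : Transcendental ℂ t := Pool.Agent.W619.PQ.transcendental_of_top ht
  have hlj : ∀ j, ∃ (l : ℕ) (p : Polynomial ℂ), y1 j / y1 0 * t ^ l = Polynomial.aeval t p := by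
    intro j
    apply hlau
    intro Q hQ
    by_contra hcon
    have h1 := hregS Q hcon j
    by_cases h0 : y1 j / y1 0 = 0
    · rw [h0, Q.ord_zero] at hQ
      exact lt_irrefl _ hQ
    · have := (Q.reg_iff h0).1 h1
      omega
  choose l p hp using hlj
  obtain ⟨m, hm⟩ : ∃ m : ℕ, ∀ j, l j ≤ m :=
    ⟨∑ j, l j, fun j => Finset.single_le_sum (f := l) (fun _ _ => Nat.zero_le _) (Finset.mem_univ j)⟩
  obtain ⟨q, hq⟩ : ∃ q : Fin (n + 1) → Polynomial ℂ, ∀ j,
      y1 j / y1 0 * t ^ m = Polynomial.aeval t (q j) := by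
    refine ⟨fun j => p j * Polynomial.X ^ (m - l j), fun j => ?_⟩
    rw [map_mul, map_pow, Polynomial.aeval_X, ← hp j, mul_assoc, ← pow_add, Nat.add_sub_cancel' (hm j)]
  have hq' := hq
  have ht0 : t ≠ 0 := by
    rintro rfl
    exact htr isAlgebraic_zero
  have hinj : ∀ a b : Polynomial ℂ, Polynomial.aeval t a = Polynomial.aeval t b → a = b :=
    fun a b hab => (transcendental_iff_injective.1 htr) hab
  have hq0 : q 0 = Polynomial.X ^ m := by
    apply hinj
    rw [← hq 0, div_self hy00, one_mul, map_pow, Polynomial.aeval_X]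
  -- the point over the polynomials
  have hqF : ∀ i, aeval q (F i) = 0 := by
    intro i
    obtain ⟨d, hd⟩ := hF i
    apply hinj
    rw [map_zero, MvPolynomial.comp_aeval_apply]
    have h1 : (fun j => Polynomial.aeval t (q j)) = fun j => (t ^ m / y1 0) * y1 j := by
      funext j
      rw [← hq j]
      ring
    change aeval (fun j => Polynomial.aeval t (q j)) (F i) = 0
    rw [h1, Pool.Agent.N155.aeval_smul' hd]
    have h2 := hyF i
    unfold Pool.Agent.W602.GT.val at h2
    rw [h2, mul_zero]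
  have hev : ∀ (u : ℂ) (B : MvPolynomial (Fin (n + 1)) ℂ),
      eval (fun j => (q j).eval u) B = (aeval q B).eval u := by
    intro u B
    have h1 : (Polynomial.evalRingHom u).comp (aeval q : MvPolynomial (Fin (n + 1)) ℂ →ₐ[ℂ] Polynomial ℂ).toRingHom =
        eval (fun j => (q j).eval u) := by
      apply MvPolynomial.ringHom_ext
      · intro c
        simp
      · intro j
        simp
    exact (RingHom.congr_fun h1 B).symm
  have hpt : ∀ u : ℂ, u ≠ 0 → (Fin.cons 1 (gm m (fun j => q j.succ) u) : Fin (n + 1) → ℂ) =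
      (u ^ m)⁻¹ • fun j => (q j).eval u := by
    intro u hu
    funext j
    refine Fin.cases ?_ (fun j => ?_) j
    · rw [Fin.cons_zero, Pi.smul_apply, smul_eq_mul, hq0, Polynomial.eval_pow, Polynomial.eval_X,
        inv_mul_cancel₀ (pow_ne_zero _ hu)]
    · rw [Fin.cons_succ, Pi.smul_apply, smul_eq_mul]
      unfold Pool.Agent.TH143.HE.gm
      rw [div_eq_inv_mul]
  have htt : t ∈ IntermediateField.adjoin ℂ (Set.range fun j : Fin n => y1 j.succ / y1 0) := by
    rw [gen_of_coords hy00 hgen]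
    trivial
  obtain ⟨a, b, hab⟩ := (IntermediateField.mem_adjoin_range_iff _ _ _).1 htt
  have hb0 : aeval (fun j : Fin n => y1 j.succ / y1 0) b ≠ 0 := by
    intro h0
    rw [h0, div_zero] at hab
    exact ht0 hab
  have ha0 : aeval (fun j : Fin n => y1 j.succ / y1 0) a ≠ 0 := by
    intro h0
    rw [h0, zero_div] at hab
    exact ht0 hab
  obtain ⟨N, hN⟩ : ∃ N : ℕ, ∀ j, (q j).natDegree ≤ N :=
    ⟨∑ j, (q j).natDegree, fun j => Finset.single_le_sum (f := fun j => (q j).natDegree)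
      (fun _ _ => Nat.zero_le _) (Finset.mem_univ j)⟩
  refine ⟨m, fun j => q j.succ, a, b, fun u hu => hcl _ ⟨?_, fun i => ?_⟩ ?_, ?_, ?_, ha0, hb0, ?_⟩
  · intro h0
    have := congrFun h0 0
    rw [Fin.cons_zero] at this
    exact one_ne_zero this
  · obtain ⟨d, hd⟩ := hF i
    rw [hpt u hu, val_ev, ev_smul hd, hev, hqF, Polynomial.eval_zero, mul_zero]
  · rw [Fin.cons_zero]
    exact one_ne_zero
  · by_contra hcon
    push Not at hcon
    apply hnconst
    intro j
    refine Fin.cases ?_ (fun j => ?_) j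
    · exact ⟨1, by rw [div_self hy00, map_one]⟩
    · have h1 := (Pool.Agent.TH143.HE.gm_const_iff m (fun j => q j.succ)).1 hcon j
      refine ⟨(q j.succ).coeff m, ?_⟩
      have h2 : q j.succ = Polynomial.C ((q j.succ).coeff m) * Polynomial.X ^ m := by
        ext i
        rw [Polynomial.coeff_C_mul, Polynomial.coeff_X_pow]
        by_cases hi : i = m
        · subst hi
          simp
        · rw [if_neg hi, mul_zero]
          exact h1 i hi
      have h3 := hq j.succ
      rw [h2, map_mul, map_pow, Polynomial.aeval_X, Polynomial.aeval_C] at h3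
      exact mul_right_cancel₀ (pow_ne_zero m ht0) h3
  · rintro G ⟨d, hd⟩ hG
    have h1 : aeval q G = 0 := by
      apply Polynomial.eq_zero_of_infinite_isRoot
      refine Set.Infinite.mono (s := {u : ℂ | u ≠ 0}) (fun u hu => ?_)
        (Set.finite_singleton (0 : ℂ)).infinite_compl
      have h2 := hG u hu
      rw [hpt u hu, val_ev, ev_smul hd, hev] at h2
      exact (mul_eq_zero.1 h2).resolve_left (pow_ne_zero _ (inv_ne_zero (pow_ne_zero _ hu)))
    have h2 := congrArg (Polynomial.aeval t) h1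
    rw [map_zero, MvPolynomial.comp_aeval_apply] at h2
    have h3 : (fun j => Polynomial.aeval t (q j)) = fun j => (t ^ m / y1 0) * y1 j := by
      funext j
      rw [← hq j]
      ring
    change aeval (fun j => Polynomial.aeval t (q j)) G = 0 at h2
    rw [h3, Pool.Agent.N155.aeval_smul' hd] at h2
    exact (mul_eq_zero.1 h2).resolve_left (pow_ne_zero _ (div_ne_zero (pow_ne_zero _ ht0) hy00))
  · intro x hx hxa hxb
    have hu0 : aeval x a / aeval x b ≠ 0 := div_ne_zero hxa hxb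
    funext j
    have h1 := hx (X j * a ^ m * b ^ N - b ^ m * homq a b N (q j.succ)) (by
      have h2 := hq' j.succ
      rw [hab] at h2
      rw [map_sub, map_mul, map_mul, map_mul, map_pow, map_pow, map_pow, aeval_X,
        aeval_homq _ a b (hN j.succ) hb0, ← h2, div_pow]
      field_simp
      ring)
    rw [map_sub, map_mul, map_mul, map_mul, map_pow, map_pow, map_pow, aeval_X,
      aeval_homq _ a b (hN j.succ) hxb] at h1
    unfold Pool.Agent.TH143.HE.gm
    rw [eq_div_iff (pow_ne_zero _ hu0), ← Polynomial.coe_aeval_eq_eval, div_pow]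
    have h4 : aeval x b ^ N ≠ 0 := pow_ne_zero _ hxb
    have h5 : aeval x b ^ m ≠ 0 := pow_ne_zero _ hxb
    have h6 : x j * aeval x a ^ m = aeval x b ^ m *
        Polynomial.aeval (aeval x a / aeval x b) (q j.succ) := by
      apply mul_left_cancel₀ h4
      linear_combination h1
    rw [mul_div_assoc', div_eq_iff h5, h6]
    ring

end Pool.Agent.U647.GB
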