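import Pool.Agent.U647.GB.Punc

/-!
# Limits of curves in affine varieties over affine functions
-/

set_option autoImplicit false

open Filter Topology Metric Set

namespace Pool.Agent.U647.GB

open Pool.Agent.Y190.OP Pool.Agent.N155
open Pool.Agent.N154.TC
open Pool.Agent.N154.GG (holP_comp_l)

variable {N m : ℕ} {Z B : Set (Mat N)} {o : Fin N} {Λ : AddSubgroup (Fin m → ℂ)}
  {a : Mat N → Fin m → ℂ} {D : Finset (Fin m → ℂ)} {δ : ℝ} {β α : Fin m → ℂ}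
  {𝓤 : Ultrafilter ℕ} {h : ℕ → ℂ → Mat N} {φ : ℕ → ℂ → Fin m → ℂ}

/-- bounds on circles give bounds on discs -/
theorem fill {S : Set ℂ} (hS : ∀ z0 : ℂ, ∃ r > 0, ∀ w ∈ ball z0 r, w ≠ z0 → w ∉ S)
    {Y : ℕ → ℂ → Fin N → ℂ} (hY : ∀ L : ℝ, ∀ᶠ k in (𝓤 : Filter ℕ), DifferentiableOn ℂ (Y k) (ball 0 L))
    (hb : ∀ z ∉ S, ∃ V ∈ 𝓝 z, ∃ C : ℝ, ∀ᶠ k in (𝓤 : Filter ℕ), ∀ w ∈ V, ‖Y k w‖ ≤ C) (z0 : ℂ) :
    ∃ V ∈ 𝓝 z0, ∃ C : ℝ, ∀ᶠ k in (𝓤 : Filter ℕ), DifferentiableOn ℂ (Y k) V ∧ ∀ w ∈ V, ‖Y k w‖ ≤ C := by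
  obtain ⟨r, hr, hrS⟩ := hS z0
  have h1 : ∃ C : ℝ, ∀ᶠ k in (𝓤 : Filter ℕ), ∀ w ∈ sphere z0 (r / 2), ‖Y k w‖ ≤ C := by
    refine (isCompact_sphere z0 (r / 2)).induction_on
      (p := fun s => ∃ C : ℝ, ∀ᶠ k in (𝓤 : Filter ℕ), ∀ w ∈ s, ‖Y k w‖ ≤ C) ?_ ?_ ?_ ?_
    · exact ⟨0, Eventually.of_forall fun k w hw => absurd hw (notMem_empty w)⟩
    · rintro s t hst ⟨C, hC⟩
      exact ⟨C, hC.mono fun k hk w hw => hk w (hst hw)⟩
    · rintro s t ⟨C, hC⟩ ⟨C', hC'⟩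
      refine ⟨max C C', ?_⟩
      filter_upwards [hC, hC'] with k h1 h2 w hw
      rcases hw with hw | hw
      · exact (h1 w hw).trans (le_max_left _ _)
      · exact (h2 w hw).trans (le_max_right _ _)
    · intro x hx
      rw [mem_sphere] at hx
      obtain ⟨V, hV, C, hC⟩ := hb x (hrS x (by
        rw [mem_ball, hx]
        linarith) (by
        rintro rfl
        rw [dist_self] at hx
        linarith))
      exact ⟨V, mem_nhdsWithin_of_mem_nhds hV, C, hC⟩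
  obtain ⟨C, hC⟩ := h1
  refine ⟨ball z0 (r / 2), ball_mem_nhds z0 (by positivity), C, ?_⟩
  filter_upwards [hC, hY (‖z0‖ + r)] with k h1 h2
  have hsub : ball z0 r ⊆ ball (0 : ℂ) (‖z0‖ + r) := by
    apply ball_subset_ball'
    rw [dist_zero_right]
    linarith
  have h3 := h2.mono hsub
  refine ⟨h3.mono (ball_subset_ball (by linarith)), fun w hw => ?_⟩
  refine Complex.norm_le_of_forall_mem_frontier_norm_le (U := ball z0 (r / 2)) isBounded_ball
    (h3.diffContOnCl_ball (closedBall_subset_ball (by linarith))) (fun x hx => ?_)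
    (subset_closure hw)
  rw [frontier_ball z0 (by positivity : r / 2 ≠ 0)] at hx
  exact h1 x hx

/-- limits of bounded functions -/
theorem limit_chart {Y : ℕ → ℂ → Fin N → ℂ} (hb : ∀ z0 : ℂ, ∃ V ∈ 𝓝 z0, ∃ C : ℝ,
    ∀ᶠ k in (𝓤 : Filter ℕ), DifferentiableOn ℂ (Y k) V ∧ ∀ w ∈ V, ‖Y k w‖ ≤ C) :
    ∃ y : ℂ → Fin N → ℂ, Differentiable ℂ y ∧ ∀ z, Tendsto (fun k => Y k z) 𝓤 (𝓝 (y z)) := by
  have h1 : ∀ j : Fin N, ∃ f : ℂ → ℂ, CConv (𝓤 : Filter ℕ) univ (fun k z => Y k z j) f := by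
    intro j
    apply ultra_montel
    intro z _
    obtain ⟨V, hV, C, hC⟩ := hb z
    refine ⟨V, hV, C, ?_⟩
    filter_upwards [hC] with k hk
    exact ⟨(differentiableOn_pi.1 hk.1) j, fun w hw => (norm_le_pi_norm _ j).trans (hk.2 w hw)⟩
  choose f hf using h1
  refine ⟨fun z j => f j z, ?_, fun z => ?_⟩
  · rw [differentiable_pi]
    intro j z
    have h2 := CConv.an (hf j) isOpen_univ (mem_univ z) (by
      obtain ⟨V, hV, C, hC⟩ := hb z
      exact ⟨V, hV, hC.mono fun k hk => (differentiableOn_pi.1 hk.1) j⟩)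
    exact h2.1.differentiableAt
  · rw [tendsto_pi_nhds]
    exact fun j => (hf j).pointwise (mem_univ z)

/-- **Limits of curves in affine varieties over affine functions** -/
theorem lemL (gd : GD Z B o Λ a D) (hα : α ≠ 0)
    (hd : ∀ L : ℝ, ∀ᶠ k in (𝓤 : Filter ℕ), Dsc (Vo Z o) Λ a 0 L (h k) (φ k))
    (hc : CConv (𝓤 : Filter ℕ) univ φ fun z => β + z • α) :
    ∃ H : ℂ → Mat N, HolP univ H ∧ (∀ z, H z ∈ Vo Z o) ∧ Over Λ a H (fun z => β + z • α) ∧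
      ∀ z, Tendsto (fun k => h k z) 𝓤 (𝓝 (H z)) := by
  classical
  have hT := gd.tv
  have hZc : IsCompact Z := by
    have := hT.comp
    rwa [gd.cl.closure_eq] at this
  have hZP : Z ⊆ PM := hT.sub
  have hlim : ∀ z : ℂ, ∃ y ∈ Z, Tendsto (fun k => h k z) 𝓤 (𝓝 y) := by
    intro z
    have h1 : (𝓤.map (fun k => h k z) : Filter (Mat N)) ≤ 𝓟 Z := by
      rw [Ultrafilter.coe_map, le_principal_iff, mem_map]
      filter_upwards [hd (‖z‖ + 1)] with k hk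
      exact (hk.mem z (mem_ball_zero_iff.2 (by linarith))).1
    obtain ⟨y, hy, hy'⟩ := hZc.ultrafilter_le_nhds (𝓤.map (fun k => h k z)) h1
    exact ⟨y, hy, hy'⟩
  choose H hHZ hHt using hlim
  obtain ⟨S, hSdef⟩ : ∃ S : Set ℂ, S = NN Λ D β α := ⟨_, rfl⟩
  have hSo : IsOpen Sᶜ := by
    rw [hSdef]
    exact (NN_closed hT).isOpen_compl
  have hSp : ∀ z0 : ℂ, ∃ r > 0, ∀ w ∈ ball z0 r, w ≠ z0 → w ∉ S := by
    rw [hSdef]
    exact NN_punct hT hα
  have hg : ∀ z ∉ S, ∃ r > 0, ∃ K : ℝ, ∀ᶠ k in (𝓤 : Filter ℕ), HolP (ball z r) (h k) ∧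
      (∀ w ∈ ball z r, h k w ∈ Vo Z o) ∧ ∀ w ∈ ball z r, ‖fderiv ℝ (h k) w‖ ≤ K := by
    intro z hz
    rw [hSdef] at hz
    exact grad_loc gd hd hc hz
  have hCC : CConv (𝓤 : Filter ℕ) Sᶜ h H := by
    intro z hz
    obtain ⟨r, hr, K, hK⟩ := hg z hz
    exact cconv_loc (hHt z) hr (hK.mono fun k hk => ⟨hk.1, hk.2.2⟩)
  have hHol : HolP Sᶜ H := by
    intro z hz
    obtain ⟨r, hr, K, hK⟩ := hg z hz
    have h1 := holP_limit (l := (𝓤 : Filter ℕ)) (U := ball z r ∩ Sᶜ) (isOpen_ball.inter hSo)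
      (fun w hw => hCC w hw.2) (hK.mono fun k hk => hk.1.mono inter_subset_left)
      fun w _ => hZP (hHZ w)
    exact h1.1 z ⟨mem_ball_self hr, hz⟩
  have hOv : ∀ z, β + z • α - a (H z) ∈ Λ := by
    intro z
    have h1 : ∀ᶠ k in (𝓤 : Filter ℕ), h k z ∈ Z ∧ φ k z - a (h k z) ∈ Λ := by
      filter_upwards [hd (‖z‖ + 1)] with k hk
      have hz : z ∈ ball (0 : ℂ) (‖z‖ + 1) := mem_ball_zero_iff.2 (by linarith)
      exact ⟨(hk.mem z hz).1, hk.ov z hz⟩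
    exact hT.lim (h1.mono fun k hk => hk.1) (hHt z) (hHZ z) (h1.mono fun k hk => hk.2)
      (hc.pointwise (mem_univ z))
  rcases dich_on hSo (by rw [hSdef]; exact NN_conn hT hα) o (fun z hz => by
    obtain ⟨r, hr, K, hK⟩ := hg z hz
    exact ⟨r, hr, hK.mono fun k hk => ⟨hk.1, fun w hw => (hk.2.1 w hw).2⟩⟩) hHol hCC with hA | hV
  · exfalso
    have hB : ∀ z ∉ S, H z ∈ B := by
      intro z hz
      refine gd.bd _ (hHZ z) (hA z hz) fun d hdD hdL => ?_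
      rw [hSdef] at hz
      refine notMem_NN.1 hz d hdD ?_
      have e := Λ.add_mem (hOv z) hdL
      rwa [sub_add_sub_cancel] at e
    obtain ⟨G, hG, hGB, hGH⟩ := extend_over hSp gd.ext hHol hB
    have hGc := gd.Bh G hG hGB
    obtain ⟨r, hr, hr'⟩ := lattice_small hT hα
    obtain ⟨r2, hr2, hr2'⟩ := hSp 0
    obtain ⟨ρ, hρ⟩ : ∃ ρ : ℝ, ρ = min r r2 := ⟨_, rfl⟩
    have hρ0 : 0 < ρ := by
      rw [hρ]
      exact lt_min hr hr2
    have hρ1 : ρ ≤ r := by rw [hρ]; exact min_le_left _ _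
    have hρ2 : ρ ≤ r2 := by rw [hρ]; exact min_le_right _ _
    have hm : ∀ t : ℝ, 0 < t → t < ρ → (t : ℂ) ∉ S := by
      intro t ht ht'
      refine hr2' _ ?_ ?_
      · rw [mem_ball_zero_iff, Complex.norm_real, Real.norm_of_nonneg ht.le]
        linarith
      · exact Complex.ofReal_ne_zero.2 ht.ne'
    have h1 := hm (ρ / 2) (by positivity) (by linarith)
    have h2 := hm (ρ / 4) (by positivity) (by linarith)
    have h3 : ((ρ / 2 : ℝ) : ℂ) = ((ρ / 4 : ℝ) : ℂ) := by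
      apply hr'
      · rw [← Complex.ofReal_sub, Complex.norm_real, Real.norm_of_nonneg (by linarith)]
        linarith
      · have e1 := Λ.sub_mem (hOv ((ρ / 2 : ℝ) : ℂ)) (hOv ((ρ / 4 : ℝ) : ℂ))
        rw [← hGH _ h1, ← hGH _ h2, hGc, hGc ((ρ / 4 : ℝ) : ℂ)] at e1
        have e2 : β + ((ρ / 2 : ℝ) : ℂ) • α - a (G 0) - (β + ((ρ / 4 : ℝ) : ℂ) • α - a (G 0)) =
            (((ρ / 2 : ℝ) : ℂ) - ((ρ / 4 : ℝ) : ℂ)) • α := by
          rw [sub_smul]
          abel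
        rwa [e2] at e1
    have h4 : ρ / 2 = ρ / 4 := Complex.ofReal_injective h3
    linarith
  · have hfill := fill (𝓤 := 𝓤) hSp (Y := fun k z => chart o (h k z)) (fun L => by
        filter_upwards [hd L] with k hk z hz
        exact (hk.hol.diff_chart hz (hk.mem z hz).2).differentiableWithinAt) (fun z hz => by
      have h1 : ContinuousAt (fun M : Mat N => ‖chart o M‖) (H z) := (continuousAt_chart (hV z hz)).norm
      have h2 : ∀ᶠ M : Mat N in 𝓝 (H z), ‖chart o M‖ < ‖chart o (H z)‖ + 1 :=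
        h1.eventually_lt_const (by linarith)
      have h3 := (hCC z hz).eventually h2
      rw [eventually_prod_iff] at h3
      obtain ⟨pa, hpa, pb, hpb, hab⟩ := h3
      refine ⟨{w | pb w}, hpb, ‖chart o (H z)‖ + 1, ?_⟩
      filter_upwards [hpa] with k hk w hw
      exact (hab hk hw).le)
    obtain ⟨y, hy, hyt⟩ := limit_chart hfill
    have hy1 : ∀ z, y z o = 1 := by
      intro z
      refine tendsto_nhds_unique ((continuous_apply o).continuousAt.tendsto.comp (hyt z)) ?_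
      refine tendsto_const_nhds.congr' ?_
      filter_upwards [hd (‖z‖ + 1)] with k hk
      exact (PM.chart_self (hk.mem z (mem_ball_zero_iff.2 (by linarith))).2).symm
    have hy0 : ∀ z, y z ≠ 0 := by
      intro z h0
      have := hy1 z
      rw [h0] at this
      exact zero_ne_one this
    have hHy : ∀ z, H z = Phi (y z) := by
      intro z
      refine tendsto_nhds_unique (hHt z) ?_
      refine ((continuousAt_Phi (hy0 z)).tendsto.comp (hyt z)).congr' ?_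
      filter_upwards [hd (‖z‖ + 1)] with k hk
      have h1 := hk.mem z (mem_ball_zero_iff.2 (by linarith))
      exact PM.Phi_chart (hZP h1.1) h1.2
    refine ⟨H, fun z _ => ⟨univ, y, isOpen_univ, mem_univ z, hy.differentiableOn,
      fun w _ => ⟨hy0 w, hHy w⟩⟩, fun z => ⟨hHZ z, ?_⟩, hOv, hHt⟩
    rw [hHy z]
    refine (Phi_diag_ne (hy0 z)).2 ?_
    rw [hy1 z]
    exact one_ne_zero

end Pool.Agent.U647.GB
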