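import Pool.Agent.U647.GB.Lem

/-!
# Entire curves in affine varieties over complex tori
-/

set_option autoImplicit false

open Filter Topology Metric Set

namespace Pool.Agent.U647.GB

open Pool.Agent.Y190.OP Pool.Agent.N155
open Pool.Agent.N154.TC
open Pool.Agent.N154.GG (holP_comp_l doubling hyper_ge)

variable {N m : ℕ} {Z B : Set (Mat N)} {o : Fin N} {Λ : AddSubgroup (Fin m → ℂ)}
  {a : Mat N → Fin m → ℂ} {D : Finset (Fin m → ℂ)} {δ : ℝ} {β α : Fin m → ℂ}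

theorem dsc_univ {P : ℂ → Mat N} {φ : ℂ → Fin m → ℂ} (hP : HolP univ P) (hPV : ∀ z, P z ∈ Vo Z o)
    (hφ : Differentiable ℂ φ) (ho : Over Λ a P φ) (z : ℂ) (R : ℝ) : Dsc (Vo Z o) Λ a z R P φ :=
  ⟨hP.mono (subset_univ _), fun w _ => hPV w, hφ.differentiableOn, fun w _ => ho w⟩

/-- there are no curves over nonconstant affine functions -/
theorem no_affine (gd : GD Z B o Λ a D) (hα : α ≠ 0) {H : ℂ → Mat N} (hH : HolP univ H)
    (hHV : ∀ z, H z ∈ Vo Z o) (ho : Over Λ a H (fun z => β + z • α)) : False := by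
  classical
  have hZP : Z ⊆ PM := gd.tv.sub
  have hfd : Differentiable ℂ fun z => chart o (H z) := fun z =>
    hH.diff_chart (mem_univ z) (hHV z).2
  have hbd : ∃ C : ℝ, ∀ z, ‖chart o (H z)‖ ≤ C := by
    by_contra hcon
    push Not at hcon
    choose w hw using fun k : ℕ => hcon ((k : ℝ) + 1)
    choose l hlΛ hl using fun k => gd.tv.coc.choose_spec (β + w k • α)
    set 𝓤 : Ultrafilter ℕ := hyperfilter ℕ with h𝓤
    obtain ⟨β', -, hβ'⟩ := exists_lim_v (𝓤 := 𝓤) (h := fun k => β + w k • α - l k)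
      (C := gd.tv.coc.choose) (Eventually.of_forall hl)
    have hlin : Differentiable ℂ fun z : ℂ => β + z • α := by fun_prop
    have hD : ∀ (L : ℝ) (k : ℕ), Dsc (Vo Z o) Λ a 0 L (fun t => H (w k + ((1 : ℝ) : ℂ) * t))
        (fun t => β + (w k + ((1 : ℝ) : ℂ) * t) • α - l k) := fun L k =>
      (dsc_univ hH hHV hlin ho 0 (‖w k - 0‖ + 1 * L)).affine (w k) one_pos le_rfl (hlΛ k)
    have hC : CConv (𝓤 : Filter ℕ) univ (fun k t => β + (w k + ((1 : ℝ) : ℂ) * t) • α - l k)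
        (fun z => β' + z • α) := by
      intro z _
      have e : (fun p : ℕ × ℂ => β + (w p.1 + ((1 : ℝ) : ℂ) * p.2) • α - l p.1) =
          fun p : ℕ × ℂ => (β + w p.1 • α - l p.1) + p.2 • α := by
        funext p
        rw [Complex.ofReal_one, one_mul, add_smul]
        abel
      rw [e]
      exact (hβ'.comp tendsto_fst).add (tendsto_snd.smul_const α)
    obtain ⟨H', -, hH', -, ht⟩ := lemL gd hα (𝓤 := 𝓤) (fun L => Eventually.of_forall (hD L)) hC
    have h1 := ht 0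
    have h2 : ContinuousAt (fun M : Mat N => ‖chart o M‖) (H' 0) :=
      (continuousAt_chart (hH' 0).2).norm
    have h3 := h2.tendsto.comp h1
    have h4 := h3.eventually_lt_const (show ‖chart o (H' 0)‖ < ‖chart o (H' 0)‖ + 1 by linarith)
    obtain ⟨k, hk1, hk2⟩ := (h4.and (hyper_ge (‖chart o (H' 0)‖ + 1))).exists
    have h5 := hw k
    have e : w k + ((1 : ℝ) : ℂ) * 0 = w k := by simp
    change ‖chart o (H (w k + ((1 : ℝ) : ℂ) * 0))‖ < _ at hk1
    rw [e] at hk1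
    linarith
  obtain ⟨C, hC⟩ := hbd
  have hb : Bornology.IsBounded (range fun z => chart o (H z)) := by
    rw [isBounded_iff_forall_norm_le]
    refine ⟨C, ?_⟩
    rintro _ ⟨z, rfl⟩
    exact hC z
  have hcst : ∀ z, H z = H 0 := by
    intro z
    have h1 := hfd.apply_eq_apply_of_bounded hb z 0
    have h2 := congrArg Phi h1
    change Phi (chart o (H z)) = Phi (chart o (H 0)) at h2
    rwa [PM.Phi_chart (hZP (hHV z).1) (hHV z).2, PM.Phi_chart (hZP (hHV 0).1) (hHV 0).2] at h2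
  obtain ⟨r, hr, hr'⟩ := lattice_small gd.tv hα
  have h1 : ((r / 2 : ℝ) : ℂ) = 0 := by
    apply hr'
    · rw [sub_zero, Complex.norm_real, Real.norm_of_nonneg (by linarith)]
      linarith
    · have e1 := Λ.sub_mem (ho ((r / 2 : ℝ) : ℂ)) (ho 0)
      rw [hcst ((r / 2 : ℝ) : ℂ)] at e1
      have e2 : β + ((r / 2 : ℝ) : ℂ) • α - a (H 0) - (β + (0 : ℂ) • α - a (H 0)) =
          (((r / 2 : ℝ) : ℂ) - 0) • α := by
        rw [sub_smul]
        abel
      rwa [e2] at e1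
  have h2 := Complex.ofReal_eq_zero.1 h1
  linarith

/-- **The lifts of entire curves are constant** -/
theorem GD.const (gd : GD Z B o Λ a D) {P : ℂ → Mat N} {φ : ℂ → Fin m → ℂ} (hP : HolP univ P)
    (hPV : ∀ z, P z ∈ Vo Z o) (hφ : Differentiable ℂ φ) (ho : Over Λ a P φ) :
    ∀ z, φ z = φ 0 := by
  classical
  by_contra hne
  have hcd : Continuous fun z => ‖deriv φ z‖ := (hφ.contDiff (n := 1)).continuous_deriv_one.norm
  obtain ⟨z0, hz0⟩ : ∃ z0, deriv φ z0 ≠ 0 := by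
    by_contra hcon
    push Not at hcon
    exact hne fun z => is_const_of_deriv_eq_zero hφ hcon z 0
  have hz0' : 0 < ‖deriv φ z0‖ := norm_pos_iff.2 hz0
  have hdb : ∀ k : ℕ, ∃ z, ‖deriv φ z0‖ ≤ ‖deriv φ z‖ ∧
      ∀ w, ‖w - z‖ * ‖deriv φ z‖ ≤ (k : ℝ) → ‖deriv φ w‖ ≤ 2 * ‖deriv φ z‖ := by
    intro k
    obtain ⟨z, e1, -, e3⟩ := doubling (f := fun z => ‖deriv φ z‖) (s := fun z => ‖deriv φ z‖)
      (fun _ => le_rfl) (fun z => by
        refine ⟨{w | ‖deriv φ w‖ < ‖deriv φ z‖ + 1}, (isOpen_lt hcd continuous_const).mem_nhds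
          (by rw [Set.mem_ofPred_eq]; linarith), ‖deriv φ z‖ + 1, ?_⟩
        rintro _ ⟨w, hw, rfl⟩
        exact (show ‖deriv φ w‖ < ‖deriv φ z‖ + 1 from hw).le)
      (κ := 2) (A := k) (z0 := z0) (by norm_num) (Nat.cast_nonneg k) hz0'
    exact ⟨z, e1, e3⟩
  choose zk hz1 hz2 using hdb
  have hμ : ∀ k, 0 < ‖deriv φ (zk k)‖ := fun k => hz0'.trans_le (hz1 k)
  choose l hlΛ hl using fun k => gd.tv.coc.choose_spec (φ (zk k))
  obtain ⟨c, hcdef⟩ : ∃ c : ℕ → ℝ, c = fun k => ‖deriv φ (zk k)‖⁻¹ := ⟨_, rfl⟩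
  have hc0 : ∀ k, 0 < c k := fun k => by rw [hcdef]; exact inv_pos.2 (hμ k)
  have hcμ : ∀ k, c k * ‖deriv φ (zk k)‖ = 1 := fun k => by
    rw [hcdef]
    exact inv_mul_cancel₀ (hμ k).ne'
  set 𝓤 : Ultrafilter ℕ := hyperfilter ℕ with h𝓤
  obtain ⟨Φ, hΦ⟩ : ∃ Φ : ℕ → ℂ → Fin m → ℂ, Φ = fun k t => φ (zk k + (c k : ℂ) * t) - l k :=
    ⟨_, rfl⟩
  have hD : ∀ (L : ℝ) (k : ℕ), Dsc (Vo Z o) Λ a 0 L (fun t => P (zk k + (c k : ℂ) * t)) (Φ k) := by
    intro L k
    rw [hΦ]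
    exact (dsc_univ hP hPV hφ ho 0 (‖zk k - 0‖ + c k * L)).affine (zk k) (hc0 k) le_rfl (hlΛ k)
  have hder : ∀ k t, deriv (Φ k) t = (c k : ℂ) • deriv φ (zk k + (c k : ℂ) * t) := by
    intro k t
    have h1 : HasDerivAt (fun t : ℂ => zk k + (c k : ℂ) * t) (c k : ℂ) t := by
      have := ((hasDerivAt_id t).const_mul (c k : ℂ)).const_add (zk k)
      rwa [mul_one] at this
    have h2 := (hφ (zk k + (c k : ℂ) * t)).hasDerivAt.scomp t h1
    have h3 := h2.sub_const (l k)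
    rw [hΦ]
    exact h3.deriv
  have hnd : ∀ k t, ‖deriv (Φ k) t‖ = c k * ‖deriv φ (zk k + (c k : ℂ) * t)‖ := by
    intro k t
    rw [hder, norm_smul, Complex.norm_real, Real.norm_of_nonneg (hc0 k).le]
  have hle : ∀ (k : ℕ) (t : ℂ), ‖t‖ ≤ k → ‖deriv (Φ k) t‖ ≤ 2 := by
    intro k t ht
    rw [hnd]
    have h1 := hz2 k (zk k + (c k : ℂ) * t) (by
      rw [add_sub_cancel_left, norm_mul, Complex.norm_real, Real.norm_of_nonneg (hc0 k).le]
      calc c k * ‖t‖ * ‖deriv φ (zk k)‖ = (c k * ‖deriv φ (zk k)‖) * ‖t‖ := by ring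
        _ ≤ k := by rw [hcμ, one_mul]; exact ht)
    calc c k * ‖deriv φ (zk k + (c k : ℂ) * t)‖ ≤ c k * (2 * ‖deriv φ (zk k)‖) :=
          mul_le_mul_of_nonneg_left h1 (hc0 k).le
      _ = 2 := by linear_combination 2 * hcμ k
  obtain ⟨Ψ, hΨ, hΨc, hΨd⟩ := exists_limit_fun_v (𝓤 := 𝓤) (φ := Φ)
    (fun L => Eventually.of_forall fun k => (hD L k).dif) (by
      refine ⟨gd.tv.coc.choose, Eventually.of_forall fun k => ?_⟩
      have : Φ k 0 = φ (zk k) - l k := by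
        rw [hΦ]
        simp
      rw [this]
      exact hl k) (by
      intro L
      refine ⟨2, ?_⟩
      filter_upwards [hyper_ge (L + 1)] with k hk z hz
      exact hle k z ((mem_ball_zero_iff.1 hz).le.trans (by linarith)))
  have hΨ2 : ∀ z, ‖deriv Ψ z‖ ≤ 2 := by
    intro z
    refine le_of_tendsto (hΨd z).norm ?_
    filter_upwards [hyper_ge (‖z‖ + 1)] with k hk
    exact hle k z (by linarith)
  have hdd : Differentiable ℂ (deriv Ψ) := fun z => (hΨ.analyticAt z).deriv.differentiableAt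
  have hconst : ∀ z, deriv Ψ z = deriv Ψ 0 := fun z => hdd.apply_eq_apply_of_bounded (by
    rw [isBounded_iff_forall_norm_le]
    refine ⟨2, ?_⟩
    rintro _ ⟨z, rfl⟩
    exact hΨ2 z) z 0
  have hα1 : deriv Ψ 0 ≠ 0 := by
    have h1 := (hΨd 0).norm
    have h2 : ∀ k, ‖deriv (Φ k) 0‖ = 1 := by
      intro k
      rw [hnd, mul_zero, add_zero, hcμ]
    simp only [h2] at h1
    have h3 := tendsto_nhds_unique h1 tendsto_const_nhds
    rw [← norm_ne_zero_iff, h3]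
    exact one_ne_zero
  have hΨe : Ψ = fun z => Ψ 0 + z • deriv Ψ 0 := by
    funext z
    have h1 : ∀ w, HasDerivAt (fun z => Ψ z - z • deriv Ψ 0) 0 w := by
      intro w
      have e1 := (hΨ w).hasDerivAt.sub ((hasDerivAt_id w).smul_const (deriv Ψ 0))
      rw [one_smul, hconst w, sub_self] at e1
      exact e1
    have h2 := is_const_of_deriv_eq_zero (fun w => (h1 w).differentiableAt)
      (fun w => (h1 w).deriv) z 0
    simp only [zero_smul, sub_zero] at h2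
    rw [← h2]
    abel
  rw [hΨe] at hΨc
  obtain ⟨H, hH, hHV, hHo, -⟩ := lemL gd hα1 (𝓤 := 𝓤) (fun L => Eventually.of_forall (hD L)) hΨc
  exact no_affine gd hα1 hH hHV hHo

end Pool.Agent.U647.GB
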