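import Pool.Agent.U647.GB.Bad

/-!
# Extension over punctures
-/

set_option autoImplicit false

open Filter Topology Metric Set

namespace Pool.Agent.U647.GB

open Pool.Agent.Y190.OP Pool.Agent.N155
open Pool.Agent.N154.TC
open Pool.Agent.N154.GG (holP_comp_l)

variable {N : ℕ} {B : Set (Mat N)}

theorem holP_congr {U : Set ℂ} (hU : IsOpen U) {P Q : ℂ → Mat N} (hP : HolP U P)
    (h : ∀ z ∈ U, Q z = P z) : HolP U Q := by
  intro z hz
  obtain ⟨V, F, hV, hzV, hd, hF⟩ := hP z hz
  refine ⟨V ∩ U, F, hV.inter hU, ⟨hzV, hz⟩, hd.mono inter_subset_left, fun w hw => ?_⟩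
  rw [h w hw.2]
  exact hF w hw.1

/-- **Extension over punctures** -/
theorem extend_over {S : Set ℂ} (hS : ∀ z0 : ℂ, ∃ r > 0, ∀ w ∈ ball z0 r, w ≠ z0 → w ∉ S)
    (hext : Ext B) {H : ℂ → Mat N} (hH : HolP Sᶜ H) (hB : ∀ z ∉ S, H z ∈ B) :
    ∃ G : ℂ → Mat N, HolP univ G ∧ (∀ z, G z ∈ B) ∧ ∀ z ∉ S, G z = H z := by
  classical
  choose r hr hrS using hS
  have hmaps : ∀ z0 : ℂ, MapsTo (fun t : ℂ => z0 + (r z0 : ℂ) * t) PD1 Sᶜ := by
    intro z0 t ht
    have h1 := mem_ball_zero_iff.1 ht.1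
    refine hrS z0 _ ?_ ?_
    · rw [mem_ball, dist_eq_norm, add_sub_cancel_left, norm_mul, Complex.norm_real,
        Real.norm_of_nonneg (hr z0).le]
      nlinarith [hr z0]
    · intro h2
      have h3 : (r z0 : ℂ) * t = 0 := by
        have : z0 + (r z0 : ℂ) * t = z0 + 0 := by rw [add_zero]; exact h2
        exact add_left_cancel this
      rcases mul_eq_zero.1 h3 with h4 | h4
      · exact (hr z0).ne' (Complex.ofReal_eq_zero.1 h4)
      · exact ht.2 h4
  have hPD : IsOpen PD1 := isOpen_ball.sdiff isClosed_singleton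
  have h1 : ∀ z0 : ℂ, ∃ P' : ℂ → Mat N, HolP (ball 0 1) P' ∧ (∀ z ∈ ball (0 : ℂ) 1, P' z ∈ B) ∧
      ∀ z ∈ PD1, P' z = H (z0 + (r z0 : ℂ) * z) := by
    intro z0
    have hd : Differentiable ℂ (fun t : ℂ => z0 + (r z0 : ℂ) * t) := by fun_prop
    exact hext (fun t => H (z0 + (r z0 : ℂ) * t))
      (holP_comp_l hH hd.differentiableOn hPD (hmaps z0)) fun z hz => hB _ (hmaps z0 hz)
  choose P' hP1 hP2 hP3 using h1
  refine ⟨fun z => if z ∈ S then P' z 0 else H z, fun z0 _ => ?_, fun z => ?_, fun z hz => ?_⟩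
  · have hmaps2 : MapsTo (fun w : ℂ => (w - z0) / (r z0 : ℂ)) (ball z0 (r z0)) (ball 0 1) := by
      intro w hw
      rw [mem_ball, dist_eq_norm] at hw
      rw [mem_ball_zero_iff, norm_div, Complex.norm_real, Real.norm_of_nonneg (hr z0).le,
        div_lt_one (hr z0)]
      exact hw
    have hd : Differentiable ℂ (fun w : ℂ => (w - z0) / (r z0 : ℂ)) := by fun_prop
    have h2 : HolP (ball z0 (r z0)) (fun w => P' z0 ((w - z0) / (r z0 : ℂ))) :=
      holP_comp_l (hP1 z0) hd.differentiableOn isOpen_ball hmaps2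
    have hne : (r z0 : ℂ) ≠ 0 := Complex.ofReal_ne_zero.2 (hr z0).ne'
    have hoff : ∀ w ∈ ball z0 (r z0), w ≠ z0 → P' z0 ((w - z0) / (r z0 : ℂ)) = H w := by
      intro w hw hne'
      rw [hP3 z0 _ ⟨hmaps2 hw, fun h3 => ?_⟩]
      · congr 1
        field_simp
        ring
      · rw [mem_singleton_iff, div_eq_zero_iff] at h3
        exact hne' (sub_eq_zero.1 (h3.resolve_right hne))
    by_cases hz0 : z0 ∈ S
    · refine holP_congr isOpen_ball h2 (fun w hw => ?_) z0 (mem_ball_self (hr z0))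
      by_cases hwz : w = z0
      · subst hwz
        rw [if_pos hz0, sub_self, zero_div]
      · rw [if_neg (hrS z0 w hw hwz), hoff w hw hwz]
    · refine holP_congr isOpen_ball (P := H) (fun w hw => hH w ?_) (fun w hw => ?_) z0
        (mem_ball_self (hr z0))
      · by_cases hwz : w = z0
        · rw [hwz]
          exact hz0
        · exact hrS z0 w hw hwz
      · have : w ∉ S := by
          by_cases hwz : w = z0
          · rw [hwz]
            exact hz0
          · exact hrS z0 w hw hwz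
        rw [if_neg this]
  · simp only
    split_ifs with h
    · exact hP2 z 0 (mem_ball_self one_pos)
    · exact hB z h
  · simp only
    rw [if_neg hz]

end Pool.Agent.U647.GB
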