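import Pool.Agent.U647.GB.Deg

/-!
# Relations on the curves of a pencil
-/

set_option autoImplicit false

open MvPolynomial

namespace Pool.Agent.U647.GB

variable {n : ℕ}

theorem exists_P2 {K : Type} [Field K] [Algebra ℂ K] (hw : Algebra.trdeg ℂ K = (2 : ℕ)) (s a b : K) :
    ∃ P : Polynomial (Polynomial (MvPolynomial (Fin 1) ℂ)), P ≠ 0 ∧ P.eval₂ (ev2 a b) s = 0 := by
  have h1 : ¬ AlgebraicIndependent ℂ ![s, a, b] := by
    intro h
    have h2 := h.cardinalMk_le_trdeg
    rw [hw, Cardinal.mk_fin] at h2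
    exact absurd (Nat.cast_le.1 h2) (by norm_num)
  rw [algebraicIndependent_iff] at h1
  push Not at h1
  obtain ⟨p, hp, hp0⟩ := h1
  obtain ⟨Ψ, hΨ⟩ : ∃ Ψ : MvPolynomial (Fin 3) ℂ →+* K, Ψ =
      (Polynomial.eval₂RingHom (ev2 a b) s).comp
        ((Polynomial.mapRingHom ((finSuccEquiv ℂ 1 : MvPolynomial (Fin 2) ℂ ≃ₐ[ℂ] _) :
          MvPolynomial (Fin 2) ℂ →+* Polynomial (MvPolynomial (Fin 1) ℂ))).comp
          ((finSuccEquiv ℂ 2 : MvPolynomial (Fin 3) ℂ ≃ₐ[ℂ] _) :
            MvPolynomial (Fin 3) ℂ →+* Polynomial (MvPolynomial (Fin 2) ℂ))) := ⟨_, rfl⟩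
  have hΨe : Ψ = (aeval ![s, a, b] : MvPolynomial (Fin 3) ℂ →ₐ[ℂ] K).toRingHom := by
    rw [hΨ]
    apply MvPolynomial.ringHom_ext
    · intro c
      simp [ev2, finSuccEquiv_apply]
    · intro i
      refine Fin.cases ?_ (fun i => ?_) i
      · simp [ev2, finSuccEquiv_apply]
      · rw [RingHom.comp_apply, RingHom.comp_apply, RingHom.coe_coe, finSuccEquiv_X_succ]
        refine Fin.cases ?_ (fun i => ?_) i
        · simp only [Polynomial.coe_mapRingHom, Polynomial.map_C, RingHom.coe_coe,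
            finSuccEquiv_X_zero, Polynomial.coe_eval₂RingHom, Polynomial.eval₂_C]
          unfold ev2
          simp
        · simp only [Polynomial.coe_mapRingHom, Polynomial.map_C, RingHom.coe_coe,
            finSuccEquiv_X_succ, Polynomial.coe_eval₂RingHom, Polynomial.eval₂_C]
          unfold ev2
          have hi : i = 0 := Subsingleton.elim _ _
          subst hi
          simp
  refine ⟨(finSuccEquiv ℂ 2 p).map ((finSuccEquiv ℂ 1 : MvPolynomial (Fin 2) ℂ ≃ₐ[ℂ] _) :
    MvPolynomial (Fin 2) ℂ →+* Polynomial (MvPolynomial (Fin 1) ℂ)), ?_, ?_⟩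
  · rw [Ne, Polynomial.map_eq_zero_iff]
    · intro h
      exact hp0 ((map_eq_zero_iff _ (finSuccEquiv ℂ 2).injective).1 h)
    · exact (finSuccEquiv ℂ 1).injective
  · have h2 : Ψ p = 0 := by
      rw [hΨe]
      exact hp
    rw [hΨ] at h2
    exact h2

/-- homogenization -/
theorem eval_hom {A : Type} [CommRing A] (Θ : A →+* MvPolynomial (Fin n) ℂ) (P : Polynomial A)
    (a b : MvPolynomial (Fin n) ℂ) {R : Type} [Field R] [Algebra ℂ R] (x : Fin n → R)
    (hb : aeval x b ≠ 0) :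
    aeval x (∑ k ∈ Finset.range (P.natDegree + 1), Θ (P.coeff k) * a ^ k * b ^ (P.natDegree - k)) =
      aeval x b ^ P.natDegree * P.eval₂ ((aeval x : MvPolynomial (Fin n) ℂ →ₐ[ℂ] R).toRingHom.comp Θ)
        (aeval x a / aeval x b) := by
  rw [Polynomial.eval₂_eq_sum_range, Finset.mul_sum, map_sum]
  refine Finset.sum_congr rfl fun i hi => ?_
  have hi' : i ≤ P.natDegree := Nat.lt_succ_iff.1 (Finset.mem_range.1 hi)
  rw [map_mul, map_mul, map_pow, map_pow, div_pow]
  have h1 : aeval x b ^ P.natDegree = aeval x b ^ (P.natDegree - i) * aeval x b ^ i := by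
    rw [← pow_add, Nat.sub_add_cancel hi']
  rw [h1]
  have h2 : aeval x b ^ i ≠ 0 := pow_ne_zero _ hb
  change aeval x (Θ (P.coeff i)) * _ * _ = _ * (aeval x (Θ (P.coeff i)) * _)
  field_simp

theorem rel_spec {K : Type} [Field K] [Algebra ℂ K] (hw : Algebra.trdeg ℂ K = (2 : ℕ))
    (x : Fin n → K) (a1 a2 : MvPolynomial (Fin n) ℂ) (ha2 : aeval x a2 ≠ 0) :
    ∃ (D : ℕ) (Z : Set ℂ), Z.Finite ∧ ∀ (K1 : Type) [Field K1] [Algebra ℂ K1] (v : Fin n → K1),
      (∀ G : MvPolynomial (Fin n) ℂ, aeval x G = 0 → aeval v G = 0) → ∀ c : ℂ, c ∉ Z →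
        aeval v a2 ≠ 0 → aeval v a1 = algebraMap ℂ K1 c * aeval v a2 → ∀ i j,
          ∃ R : Polynomial (MvPolynomial (Fin 1) ℂ), R ≠ 0 ∧ R.natDegree ≤ D ∧
            ev2 (v i) (v j) R = 0 := by
  classical
  choose P hP hP0 using fun i j => exists_P2 hw (aeval x a1 / aeval x a2) (x i) (x j)
  obtain ⟨D, hD⟩ : ∃ D : ℕ, ∀ i j k, ((P i j).coeff k).natDegree ≤ D := by
    refine ⟨∑ i, ∑ j, ∑ k ∈ Finset.range ((P i j).natDegree + 1), ((P i j).coeff k).natDegree,
      fun i j k => ?_⟩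
    by_cases hk : k ≤ (P i j).natDegree
    · refine le_trans ?_ (Finset.single_le_sum (f := fun i => ∑ j,
        ∑ k ∈ Finset.range ((P i j).natDegree + 1), ((P i j).coeff k).natDegree)
        (fun _ _ => Nat.zero_le _) (Finset.mem_univ i))
      refine le_trans ?_ (Finset.single_le_sum (f := fun j =>
        ∑ k ∈ Finset.range ((P i j).natDegree + 1), ((P i j).coeff k).natDegree)
        (fun _ _ => Nat.zero_le _) (Finset.mem_univ j))
      exact Finset.single_le_sum (f := fun k => ((P i j).coeff k).natDegree)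
        (fun _ _ => Nat.zero_le _) (Finset.mem_range.2 (Nat.lt_succ_of_le hk))
    · rw [Polynomial.coeff_eq_zero_of_natDegree_lt (not_le.1 hk), Polynomial.natDegree_zero]
      exact Nat.zero_le _
  refine ⟨D, ⋃ i, ⋃ j, {c : ℂ | (P i j).IsRoot (Polynomial.C (C c))}, ?_, ?_⟩
  · refine Set.finite_iUnion fun i => Set.finite_iUnion fun j => ?_
    have h1 := Polynomial.finite_setOfPred_isRoot (hP i j)
    refine h1.preimage (Set.injOn_of_injective ?_)
    intro c c' h
    exact MvPolynomial.C_injective _ _ (Polynomial.C_injective h)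
  · intro K1 _ _ v hv c hc hv2 hv1 i j
    have hcij : ¬ (P i j).IsRoot (Polynomial.C (C c)) := fun h =>
      hc (Set.mem_iUnion.2 ⟨i, Set.mem_iUnion.2 ⟨j, h⟩⟩)
    refine ⟨(P i j).eval (Polynomial.C (C c)), hcij, ?_, ?_⟩
    · rw [Polynomial.eval_eq_sum_range]
      refine Polynomial.natDegree_sum_le_of_forall_le _ _ fun k _ => ?_
      refine Polynomial.natDegree_mul_le.trans ?_
      rw [← Polynomial.C_pow, Polynomial.natDegree_C, add_zero]
      exact hD i j k
    · obtain ⟨Θ, hΘ⟩ : ∃ Θ : Polynomial (MvPolynomial (Fin 1) ℂ) →+* MvPolynomial (Fin n) ℂ,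
          Θ = Polynomial.eval₂RingHom (aeval (fun _ : Fin 1 => X j) :
            MvPolynomial (Fin 1) ℂ →ₐ[ℂ] MvPolynomial (Fin n) ℂ).toRingHom (X i) := ⟨_, rfl⟩
      have hcomp : ∀ (R : Type) [Field R] [Algebra ℂ R] (u : Fin n → R),
          (aeval u : MvPolynomial (Fin n) ℂ →ₐ[ℂ] R).toRingHom.comp Θ = ev2 (u i) (u j) := by
        intro R _ _ u
        rw [hΘ]
        unfold ev2
        apply Polynomial.ringHom_ext
        · intro G
          simp only [RingHom.comp_apply, Polynomial.coe_eval₂RingHom, Polynomial.eval₂_C]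
          change aeval u (aeval (fun _ : Fin 1 => X j) G) = aeval (fun _ : Fin 1 => u j) G
          rw [MvPolynomial.comp_aeval_apply]
          simp
        · simp
      have h1 := eval_hom Θ (P i j) a1 a2 x ha2
      rw [hcomp, hP0 i j, mul_zero] at h1
      have h2 := hv _ h1
      rw [eval_hom Θ (P i j) a1 a2 v hv2, hcomp] at h2
      have h3 := (mul_eq_zero.1 h2).resolve_left (pow_ne_zero _ hv2)
      rw [hv1, mul_div_cancel_right₀ _ hv2] at h3
      have h4 : algebraMap ℂ K1 c = ev2 (v i) (v j) (Polynomial.C (C c)) := by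
        unfold ev2
        simp
      rw [h4, Polynomial.eval₂_at_apply] at h3
      exact h3

end Pool.Agent.U647.GB
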