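import Pool.Agent.U647.GB.Cur

/-!
# Maps of rational curves to complex tori
-/

set_option autoImplicit false

open Filter Topology MvPolynomial LinearAlgebra.Projectivization

namespace Pool.Agent.U647.GB

open Pool.Agent.U647.AF
open Pool.Agent.W602.GT (IsForm val Cone SubVar coords VarPts)
open Pool.Agent.N154.TB (Zeros CurveIn IsConst BrodyHyp)
open Pool.Agent.N154.TC (TV TS td_of isCompact_TF cone_conic aM La aM_Phi mem_La_iff mem_TS Over)
open Pool.Agent.N154.TT (HolToTorus)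
open Pool.Agent.N154.GG (HolMap projDist holP_of proj_ext)
open Pool.Agent.Y190.OP (Phi HolP)
open Pool.Agent.TH143.HE (gm)

variable {n m : ℕ} {ι : Type} {E : ι → MvPolynomial (Fin (n + 1)) ℂ}
  {L : Submodule ℤ (Fin m → ℂ)} {α : (Fin (n + 1) → ℂ) → (Fin m → ℂ) ⧸ L}

theorem tv_cone [DiscreteTopology L] [IsZLattice ℝ L] (hE : ∀ i, IsForm (E i))
    (hα : HolToTorus (Cone E) L α) : TV (TS (Cone E)) (La L) (aM L α (Cone E)) := by
  have hZc := isCompact_TF hE
  refine td_of (cone_conic hE) hα hZc subset_rfl ?_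
  intro 𝓤 h H h1 h2 h3 h4 z
  refine hZc.isClosed.mem_of_tendsto (h3.pointwise (Set.mem_univ z)) ?_
  filter_upwards [h1 (‖z‖ + 1)] with k hk
  exact hk.2 z (mem_ball_zero_iff.2 (by linarith))

theorem diff_aeval {x : ℂ → Fin n → ℂ} (hx : ∀ j, Differentiable ℂ fun z => x z j)
    (G : MvPolynomial (Fin n) ℂ) : Differentiable ℂ fun z => aeval (x z) G := by
  induction G using MvPolynomial.induction_on with
  | C c =>
    simp only [aeval_C]
    exact differentiable_const _
  | add p q hp hq =>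
    simp only [map_add]
    exact hp.add hq
  | mul_X p j hp =>
    simp only [map_mul, aeval_X]
    exact hp.mul (hx j)

theorem same_fibre [DiscreteTopology L] [IsZLattice ℝ L] (hE : ∀ i, IsForm (E i))
    (hα : HolToTorus (Cone E) L α) {K : Type} [Field K] [Algebra ℂ K] {y : Fin (n + 1) → K}
    (hy0 : y 0 ≠ 0) (hsub : Aff (Van y) ⊆ Cone E) {l : ℕ} {p : Fin n → Polynomial ℂ}
    {a b : MvPolynomial (Fin n) ℂ}
    (hγ : ∀ u : ℂ, u ≠ 0 → (Fin.cons 1 (gm l p u) : Fin (n + 1) → ℂ) ∈ Aff (Van y))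
    (ha : aeval (fun j : Fin n => y j.succ / y 0) a ≠ 0)
    (hb : aeval (fun j : Fin n => y j.succ / y 0) b ≠ 0)
    (hinv : ∀ x : Fin n → ℂ, (∀ G : MvPolynomial (Fin n) ℂ,
        aeval (fun j : Fin n => y j.succ / y 0) G = 0 → aeval x G = 0) →
          aeval x a ≠ 0 → aeval x b ≠ 0 → x = gm l p (aeval x a / aeval x b))
    {g : ℂ → ℙ ℂ (Fin (n + 1) → ℂ)} (hg : CurveIn (Aff (Van y)) g) (hnc : ¬ IsConst g)
    (hrel : Rel g y) {t : (Fin m → ℂ) ⧸ L} (ht : ∀ z, α (g z).rep = t) :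
    ∀ u : ℂ, u ≠ 0 → α (Fin.cons 1 (gm l p u)) = t := by
  obtain ⟨x, hx, hxg⟩ := aff_curve hg
  have h0 : ∀ z, (g z).rep 0 ≠ 0 := fun z => (hg.2 z).2
  have hxj : ∀ z, (fun j : Fin n => (g z).rep j.succ / (g z).rep 0) = x z := by
    intro z
    funext j
    have h1 := congrFun (hxg z) j.succ
    rw [Fin.cons_succ, Pi.smul_apply, smul_eq_mul] at h1
    rw [h1, div_eq_inv_mul]
  have hvan : ∀ G : MvPolynomial (Fin n) ℂ, aeval (fun j : Fin n => y j.succ / y 0) G = 0 ↔
      ∀ z, aeval (x z) G = 0 := by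
    intro G
    have h1 := hrel (hmg G) ⟨_, hmg_form G⟩
    have h2 : val y (hmg G) = 0 ↔ aeval (fun j : Fin n => y j.succ / y 0) G = 0 := by
      change aeval y (hmg G) = 0 ↔ _
      rw [hmg_aeval hy0, mul_eq_zero, or_iff_right (pow_ne_zero _ hy0)]
    have h3 : ∀ z, val (g z).rep (hmg G) = 0 ↔ aeval (x z) G = 0 := by
      intro z
      change aeval (g z).rep (hmg G) = 0 ↔ _
      rw [hmg_aeval (h0 z), mul_eq_zero, or_iff_right (pow_ne_zero _ (h0 z)), hxj z]
    rw [← h2, h1]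
    exact forall_congr' h3
  obtain ⟨z0, hz0⟩ : ∃ z0, aeval (x z0) (a * b) ≠ 0 := by
    by_contra hcon
    push Not at hcon
    have h1 := (hvan (a * b)).2 hcon
    rw [map_mul] at h1
    exact (mul_ne_zero ha hb) h1
  rw [map_mul] at hz0
  have hza := left_ne_zero_of_mul hz0
  have hzb := right_ne_zero_of_mul hz0
  have hxinv : ∀ z, aeval (x z) a ≠ 0 → aeval (x z) b ≠ 0 →
      x z = gm l p (aeval (x z) a / aeval (x z) b) := fun z h1 h2 =>
    hinv _ (fun G hG => (hvan G).1 hG z) h1 h2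
  obtain ⟨τ, hτ⟩ : ∃ τ : ℂ → ℂ, τ = fun z => aeval (x z) a / aeval (x z) b := ⟨_, rfl⟩
  have hτa : AnalyticAt ℂ τ z0 := by
    rw [hτ]
    exact ((diff_aeval hx a).analyticAt z0).div ((diff_aeval hx b).analyticAt z0) hzb
  have hτ0 : τ z0 ≠ 0 := by
    rw [hτ]
    exact div_ne_zero hza hzb
  have hev : ∀ᶠ z in 𝓝 z0, aeval (x z) a ≠ 0 ∧ aeval (x z) b ≠ 0 ∧ τ z ≠ 0 :=
    ((diff_aeval hx a).continuous.continuousAt.eventually_ne hza).and
      (((diff_aeval hx b).continuous.continuousAt.eventually_ne hzb).and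
        (hτa.continuousAt.eventually_ne hτ0))
  have hxτ : ∀ᶠ z in 𝓝 z0, x z = gm l p (τ z) := by
    filter_upwards [hev] with z hz
    rw [hτ]
    exact hxinv z hz.1 hz.2.1
  obtain ⟨s, hs⟩ : ∃ s : ℂ → ℂ, s = fun z => Complex.log (τ z / τ z0) := ⟨_, rfl⟩
  have hsa : AnalyticAt ℂ s z0 := by
    rw [hs]
    refine (hτa.div analyticAt_const hτ0).clog ?_
    change τ z0 / τ z0 ∈ Complex.slitPlane
    rw [div_self hτ0]
    exact Complex.one_mem_slitPlane
  have hs0 : s z0 = 0 := by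
    rw [hs]
    simp only
    rw [div_self hτ0, Complex.log_one]
  have hse : ∀ᶠ z in 𝓝 z0, τ z0 * Complex.exp (s z) = τ z := by
    filter_upwards [hev] with z hz
    rw [hs]
    simp only
    rw [Complex.exp_log (div_ne_zero hz.2.2 hτ0)]
    field_simp
  have hmap : 𝓝 (0 : ℂ) ≤ Filter.map s (𝓝 z0) := by
    rcases hsa.eventually_constant_or_nhds_le_map_nhds with h1 | h1
    · exfalso
      apply hnc
      rw [const_iff h0 hxg]
      have h2 : ∀ᶠ z in 𝓝 z0, x z = x z0 := by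
        filter_upwards [h1, hse, hxτ] with z e1 e2 e3
        rw [e1, hs0, Complex.exp_zero, mul_one] at e2
        rw [e3, ← e2, ← hxτ.self_of_nhds]
      have h3 : ∀ z, x z = x z0 := by
        intro z
        funext j
        have h4 : (fun z => x z j) = fun _ => x z0 j :=
          AnalyticOnNhd.eq_of_eventuallyEq (fun z _ => (hx j).analyticAt z)
            (fun z _ => analyticAt_const) (h2.mono fun z hz => by
              change x z j = x z0 j
              rw [hz])
        exact congrFun h4 z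
      intro z z'
      rw [h3 z, h3 z']
    · rwa [hs0] at h1
  -- the curve
  obtain ⟨e, he⟩ : ∃ e : ℂ → Fin (n + 1) → ℂ,
      e = fun w => Fin.cons 1 (gm l p (τ z0 * Complex.exp w)) := ⟨_, rfl⟩
  have hu0 : ∀ w : ℂ, τ z0 * Complex.exp w ≠ 0 := fun w => mul_ne_zero hτ0 (Complex.exp_ne_zero w)
  have heA : ∀ w, e w ∈ Aff (Van y) := by
    intro w
    rw [he]
    exact hγ _ (hu0 w)
  have heE : ∀ w, e w ∈ Cone E := fun w => hsub (heA w)
  have hed : Differentiable ℂ e := by
    rw [he, differentiable_pi]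
    intro j
    refine Fin.cases ?_ (fun j => ?_) j
    · simp only [Fin.cons_zero]
      exact differentiable_const _
    · simp only [Fin.cons_succ]
      unfold Pool.Agent.TH143.HE.gm
      have h1 : Differentiable ℂ fun w : ℂ => τ z0 * Complex.exp w := by fun_prop
      exact ((p j).differentiable.comp h1).div (h1.pow l) fun w => pow_ne_zero _ (hu0 w)
  have tv := tv_cone hE hα
  have hPe : HolP Set.univ fun w => Phi (e w) := fun w _ =>
    ⟨Set.univ, e, isOpen_univ, Set.mem_univ w, hed.differentiableOn, fun w _ => ⟨(heE w).1, rfl⟩⟩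
  obtain ⟨ψ, hψ, ho⟩ := tv.exists_lift hPe fun w => ⟨e w, heE w, rfl⟩
  have hval : ∀ w, α (e w) = Submodule.Quotient.mk (ψ w) := by
    intro w
    rw [← aM_Phi (cone_conic hE) hα (heE w)]
    exact (mem_La_iff.1 (ho w)).symm
  have hst : ∀ᶠ z in 𝓝 z0, α (e (s z)) = t := by
    filter_upwards [hse, hxτ] with z e1 e2
    have h1 : e (s z) = ((g z).rep 0)⁻¹ • (g z).rep := by
      rw [← hxg z, e2, he]
      simp only
      rw [e1]
    rw [h1, hα.homog _ (hsub (hg.2 z)) _ (inv_ne_zero (h0 z))]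
    exact ht z
  have hw0 : ∀ᶠ w in 𝓝 (0 : ℂ), α (e w) = t := hmap (Filter.eventually_map.2 hst)
  have hψ0 : ∀ᶠ w in 𝓝 (0 : ℂ), ψ w - ψ 0 ∈ La L := by
    filter_upwards [hw0] with w hw
    rw [mem_La_iff, ← hval, ← hval, hw, hw0.self_of_nhds]
  have hψc := tv.ev_const (f := fun w => ψ w - ψ 0) (z0 := (0 : ℂ))
    ((hψ.sub_const _).continuous.continuousAt) hψ0
  have hψe : ψ = fun _ => ψ 0 :=
    AnalyticOnNhd.eq_of_eventuallyEq (z₀ := (0 : ℂ)) (fun z _ => hψ.analyticAt z)
      (fun z _ => analyticAt_const) (hψc.mono fun w hw => by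
        simp only [sub_self] at hw
        exact sub_eq_zero.1 hw)
  intro u hu
  have h1 := hval (Complex.log (u / τ z0))
  have h2 : τ z0 * Complex.exp (Complex.log (u / τ z0)) = u := by
    rw [Complex.exp_log (div_ne_zero hu hτ0)]
    field_simp
  have h3 : e (Complex.log (u / τ z0)) = Fin.cons 1 (gm l p u) := by
    rw [he]
    simp only
    rw [h2]
  rw [h3, congrFun hψe (Complex.log (u / τ z0)), ← hval 0, hw0.self_of_nhds] at h1
  exact h1

end Pool.Agent.U647.GB
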