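import Pool.Agent.U647.GB.Ggl

/-!
# Finitely many special curves
-/

set_option autoImplicit false

open Filter Topology MvPolynomial LinearAlgebra.Projectivization

namespace Pool.Agent.U647.GB

open Pool.Agent.U647.AF
open Pool.Agent.W602.GT (IsForm val Cone SubVar coords VarPts LogGeneralType)
open Pool.Agent.N154.TB (Zeros CurveIn IsConst BrodyHyp)
open Pool.Agent.N154.TT (HolToTorus)
open Pool.Agent.N155 (spec_dense)
open Pool.Agent.TH143.HE (gm)
open Pool.Agent.W603.GR (OffQ)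
open Pool.Agent.V1153.UG (GmBdd GmThin GmRuled)

variable {n : ℕ} {K : Type} [Field K] [Algebra ℂ K] {y : Fin (n + 1) → K}

/-- All nonconstant entire curves in `V` are contained in finitely many closed curves, which are the
closed curves in `V` not of log general type. -/
def FinitelySpecial (y : Fin (n + 1) → K) : Prop :=
  (SpecialCurves y).Finite ∧ ∀ f : ℂ → ℙ ℂ (Fin (n + 1) → ℂ),
    CurveIn {x | x ∈ VarPts ℂ y ∧ x 0 ≠ 0} f → ¬ IsConst f →
      {G | IsForm G ∧ ∀ z, val (f z).rep G = 0} ∈ SpecialCurves y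

theorem finite_special (hw : Algebra.trdeg ℂ K = (2 : ℕ)) (h : PseudoBrody y) :
    (SpecialCurves y).Finite := by
  obtain ⟨G, ⟨E, hG⟩, hyG, hall⟩ := h
  refine (Pool.Agent.Q96.HE.finite_curves (b := y) (d := 2) hw le_rfl G hG hyG).subset ?_
  rintro W ⟨K1, _, _, y1, hy10, hgen1, hw1, hsp, hnl, rfl⟩
  obtain ⟨g, hg, hgnc, hrel⟩ := exists_curve hy10 hgen1 hw1 hnl
  have hvan : Van y ⊆ Van y1 := fun H hH => ⟨hH.1, hsp H hH.1 hH.2⟩
  have h1 : val y1 G = 0 := by
    refine (hrel G ⟨E, hG⟩).2 (hall g ⟨hg.1, fun z => ?_⟩ hgnc)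
    rw [aff_eq]
    exact ⟨cone_mono hvan (hg.2 z).1, (hg.2 z).2⟩
  exact ⟨K1, _, _, y1, fun H d hH h => hsp H ⟨d, hH⟩ h, h1, nonconst_of hy10 hgen1 hw1, rfl⟩

theorem closure_special (hw : Algebra.trdeg ℂ K = (2 : ℕ)) (h : PseudoBrody y)
    {f : ℂ → ℙ ℂ (Fin (n + 1) → ℂ)} (hf : CurveIn {x | x ∈ VarPts ℂ y ∧ x 0 ≠ 0} f)
    (hfc : ¬ IsConst f) : {G | IsForm G ∧ ∀ z, val (f z).rep G = 0} ∈ SpecialCurves y := by
  obtain ⟨G, hGf, hyG, hall⟩ := h
  obtain ⟨K1, _, _, w1, y1, hy1, hgen1, hw1, hrel, hc⟩ := exists_rel hf.1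
  have h0 : ∀ z, (f z).rep 0 ≠ 0 := fun z => (hf.2 z).2
  have hy10 := hrel.ne h0
  have hspec : ∀ H : MvPolynomial (Fin (n + 1)) ℂ, IsForm H → val y H = 0 → val y1 H = 0 :=
    fun H hH h => (hrel H hH).2 fun z => (hf.2 z).1.2 H hH h
  have h1 : val y1 G = 0 := (hrel G hGf).2 (hall f hf hfc)
  have hlt : w1 < 2 := by
    by_contra hcon
    push Not at hcon
    exact hyG (spec_dense hy1 hgen1 hw hw1 hcon hspec hGf h1)
  have hw' : w1 = 1 := by
    have : w1 ≠ 0 := fun h => hfc (hc h)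
    omega
  subst hw'
  refine ⟨K1, _, _, y1, hy10, hgen1, hw1, hspec,
    not_lgt_of_curve hy10 hgen1 hw1 (hrel.aff hf.1 h0) hfc, ?_⟩
  ext H
  constructor
  · rintro ⟨h2, h3⟩
    exact ⟨h2, (hrel H h2).2 h3⟩
  · rintro ⟨h2, h3⟩
    exact ⟨h2, (hrel H h2).1 h3⟩

theorem not_ruled_of_finite (hy0 : y 0 ≠ 0) (hgen : coords ℂ y = ⊤)
    (hw : Algebra.trdeg ℂ K = (2 : ℕ)) (h : (SpecialCurves y).Finite) :
    ¬ GmRuled (Iy y) (X 0) := by
  classical
  have hex : ∀ W ∈ SpecialCurves y, ∃ G, (∃ d, G.IsHomogeneous d) ∧ G ∈ W ∧ val y G ≠ 0 := by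
    rintro W ⟨K1, _, _, y1, hy10, hgen1, hw1, hsp, hnl, rfl⟩
    by_contra hcon
    push Not at hcon
    have h1 : 2 ≤ 1 := trdeg_mono hy10 hy0 hgen hw1 hw fun G hG h => hcon G hG ⟨hG, h⟩
    omega
  choose! G hGd hGW hyG using hex
  choose! d hd using hGd
  apply Pool.Agent.V1153.UG.not_ruled_of_thin
  intro N
  have hform : (∏ W ∈ h.toFinset, G W).IsHomogeneous (∑ W ∈ h.toFinset, d W) :=
    IsHomogeneous.prod _ _ _ fun W hW => hd W (h.mem_toFinset.1 hW)
  refine ⟨∏ W ∈ h.toFinset, G W, ⟨_, hform⟩, fun hI => ?_, ?_⟩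
  · have h1 := val_of_mem hI
    unfold Pool.Agent.W602.GT.val at h1
    rw [map_prod] at h1
    exact Finset.prod_ne_zero_iff.2 (fun W hW => hyG W (h.mem_toFinset.1 hW)) h1
  · intro P hP
    obtain ⟨c, k, hc, hck⟩ := hP.off
    rw [aeval_X] at hck
    obtain ⟨p, hp⟩ : ∃ p : Fin n → Polynomial ℂ, p = fun j => Polynomial.C c⁻¹ * P j.succ :=
      ⟨_, rfl⟩
    have hgp : gmP k p = fun j => Polynomial.C c⁻¹ * P j := by
      funext j
      unfold gmP
      refine Fin.cases ?_ (fun j => ?_) j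
      · rw [Fin.cons_zero, hck, ← mul_assoc, ← Polynomial.C_mul, inv_mul_cancel₀ hc,
          Polynomial.C_1, one_mul]
      · rw [Fin.cons_succ, hp]
    have hgpG : ∀ {H : MvPolynomial (Fin (n + 1)) ℂ} {d : ℕ}, H.IsHomogeneous d →
        aeval (gmP k p) H = Polynomial.C c⁻¹ ^ d * aeval P H := by
      intro H d hH
      rw [hgp, aeval_smul2 hH]
    have hmem : ∀ u : ℂ, u ≠ 0 → (Fin.cons 1 (gm k p u) : Fin (n + 1) → ℂ) ∈ Aff (Van y) := by
      intro u hu
      refine ⟨⟨fun h0 => ?_, fun i => ?_⟩, ?_⟩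
      · have := congrFun h0 0
        rw [Fin.cons_zero] at this
        exact one_ne_zero this
      · change val _ i.1 = 0
        obtain ⟨d, hd⟩ := i.2.1
        rw [val_gm hu i.2.1, hgpG hd, hP.mem i.1 ((mem_Iy i.2.1).2 i.2.2) i.2.1, mul_zero,
          Polynomial.eval_zero]
      · rw [Fin.cons_zero]
        exact one_ne_zero
    have hne : ∃ u : ℂ, u ≠ 0 ∧ gm k p u ≠ gm k p 1 := by
      by_contra hcon
      push Not at hcon
      obtain ⟨s, t, j, i, hji⟩ := hP.nc
      have h1 : ∀ j, P j = Polynomial.C ((P j).eval 1) * Polynomial.X ^ k := by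
        intro j
        refine Fin.cases ?_ (fun j => ?_) j
        · rw [hck]
          simp
        · have h2 := (Pool.Agent.TH143.HE.gm_const_iff k p).1 hcon j
          have h3 : P j.succ = Polynomial.C ((P j.succ).coeff k) * Polynomial.X ^ k := by
            ext i
            rw [Polynomial.coeff_C_mul, Polynomial.coeff_X_pow]
            by_cases hi : i = k
            · subst hi
              simp
            · rw [if_neg hi, mul_zero]
              have h4 := h2 i hi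
              rw [hp, Polynomial.coeff_C_mul] at h4
              exact (mul_eq_zero.1 h4).resolve_left (inv_ne_zero hc)
          have h5 : (P j.succ).eval 1 = (P j.succ).coeff k := by
            conv_lhs => rw [h3]
            simp
          rw [h5]
          exact h3
      apply hji
      rw [h1 j, h1 i]
      simp only [Polynomial.eval_mul, Polynomial.eval_C, Polynomial.eval_pow, Polynomial.eval_X,
        one_pow, mul_one]
      ring
    obtain ⟨g, hg, hgnc, hgf, K1, _, _, y1, hy10, hgen1, hw1, hrel⟩ :=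
      gm_closure (F := Van y) (fun G hG => hG.1) hmem hne
    have hW : {G | IsForm G ∧ val y1 G = 0} ∈ SpecialCurves y :=
      ⟨K1, _, _, y1, hy10, hgen1, hw1,
        fun H hH h => (hrel H hH).2 fun z => (hg.2 z).1.2 ⟨H, hH, h⟩,
        not_lgt_of_curve hy10 hgen1 hw1 (hrel.aff hg.1 fun z => (hg.2 z).2) hgnc, rfl⟩
    have h1 : val y1 (∏ W ∈ h.toFinset, G W) = 0 := by
      unfold Pool.Agent.W602.GT.val
      rw [map_prod]
      exact Finset.prod_eq_zero (h.mem_toFinset.2 hW) (hGW _ hW).2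
    have h2 : aeval (gmP k p) (∏ W ∈ h.toFinset, G W) = 0 := by
      apply Polynomial.eq_zero_of_infinite_isRoot
      refine Set.Infinite.mono (s := {u : ℂ | u ≠ 0}) (fun u hu => ?_)
        (Set.finite_singleton (0 : ℂ)).infinite_compl
      have h3 := (hrel _ ⟨_, hform⟩).1 h1 (Complex.log u)
      have h4 := hgf (Complex.log u)
      rw [Complex.exp_log hu] at h4
      refine (val_gm (l := k) (p := p) hu ⟨_, hform⟩).1 ?_
      rw [h4, val_ev, ev_smul hform, ← val_ev, h3, mul_zero]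
    rw [hgpG hform] at h2
    have h3 : aeval P (∏ W ∈ h.toFinset, G W) = 0 :=
      (mul_eq_zero.1 h2).resolve_left (pow_ne_zero _ (by
        rw [Ne, Polynomial.C_eq_zero]
        exact inv_ne_zero hc))
    intro t
    rw [← Pool.Agent.V1153.UG.eval_aeval, h3, Polynomial.eval_zero]

/-- **The strong Green-Griffiths-Lang conjecture for affine surfaces over complex tori** -/
theorem ggl (hy0 : y 0 ≠ 0) (hgen : coords ℂ y = ⊤) (hw : Algebra.trdeg ℂ K = (2 : ℕ))
    (hT : OverTorus y) :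
    [PseudoBrody y, (SpecialCurves y).Finite, FinitelySpecial y, ¬ GmRuled (Iy y) (X 0)].TFAE ∧
      (LogGeneralType ℂ K 2 (OffQ (X 0 : MvPolynomial (Fin (n + 1)) ℂ) 1 y) →
        FinitelySpecial y) := by
  have h12 : PseudoBrody y → FinitelySpecial y := fun h =>
    ⟨finite_special hw h, fun f hf hfc => closure_special hw h hf hfc⟩
  have h41 : ¬ GmRuled (Iy y) (X 0) → PseudoBrody y := pseudoBrody_of hy0 hw hT
  refine ⟨?_, fun h => h12 (h41 ?_)⟩
  · tfae_have 1 → 3 := h12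
    tfae_have 3 → 2 := fun h => h.1
    tfae_have 2 → 4 := not_ruled_of_finite hy0 hgen hw
    tfae_have 4 → 1 := h41
    tfae_finish
  · exact Pool.Agent.V1153.UG.not_ruled_of_lgt (isHomogeneous_X ℂ (0 : Fin (n + 1)))
      (funField hy0 hgen hw) h

end Pool.Agent.U647.GB
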