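import Pool.Agent.U647.GB.Trf
import Pool.Agent.U647.GB.Tfa
import Pool.Agent.U647.GB.Brd
import Pool.Agent.N254.SQ.LocDefsQ

/-!
# The exceptional sets of affine surfaces over complex tori
-/

set_option autoImplicit false

open FF Filter Topology MvPolynomial Metric LinearAlgebra.Projectivization

namespace Pool.Agent.U647.GB

open Pool.Agent.U647.AF
open Pool.Agent.W602.GT (IsForm val Cone SubVar coords VarPts LogGeneralType)
open Pool.Agent.N254.SQ (Eqs NotIn ValueNotIn LogGeneral ValueIn OnSpecialQ OnCurvesQ OnDiscsQ Extends)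
open Pool.Agent.N154.TB (Zeros CurveIn IsConst BrodyHyp)
open Pool.Agent.N155 (spec_dense)
open Pool.Agent.W603.GR (OffQ)
open Pool.Agent.V1153.UG (GmRuled)

variable {n : ℕ} {K : Type} [Field K] [Algebra ℂ K] {y : Fin (n + 1) → K}

/-- the hyperplane at infinity -/
noncomputable def AtInf (n : ℕ) : Set (MvPolynomial (Fin (n + 1)) ℂ) := {X 0}

theorem notIn_inf : NotIn (AtInf n) y ↔ y 0 ≠ 0 := by
  constructor
  · rintro ⟨H, hH, h⟩
    rw [AtInf, Set.mem_singleton_iff] at hH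
    rw [hH, aeval_X] at h
    exact h
  · intro h
    refine ⟨X 0, rfl, ?_⟩
    rw [aeval_X]
    exact h

theorem valueNotIn_inf (hy0 : y 0 ≠ 0) (P : Place ℂ K) :
    ¬ ValueNotIn (AtInf n) y P ↔ OffQ (X 0 : MvPolynomial (Fin (n + 1)) ℂ) 1 y P := by
  have hv : val y (X 0 : MvPolynomial (Fin (n + 1)) ℂ) = y 0 := by
    unfold Pool.Agent.W602.GT.val
    rw [aeval_X]
  rw [not_iff_comm]
  unfold Pool.Agent.W603.GR.OffQ
  rw [hv, Nat.cast_one]
  simp only [one_mul]
  constructor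
  · intro h
    push Not at h
    refine ⟨(y 0)⁻¹, fun j => ?_, ⟨0, ?_, ?_⟩, X 0, rfl, ?_, ?_⟩
    · by_cases hj : y j = 0
      · rw [hj, mul_zero]
        exact Or.inl rfl
      · right
        rw [P.ord_mul (inv_ne_zero hy0) hj, P.ord_inv]
        have := h j hj
        omega
    · rw [inv_mul_cancel₀ hy0]
      exact one_ne_zero
    · rw [inv_mul_cancel₀ hy0, P.ord_one]
    · rw [aeval_X, Pi.smul_apply, smul_eq_mul, inv_mul_cancel₀ hy0]
      exact one_ne_zero
    · rw [aeval_X, Pi.smul_apply, smul_eq_mul, inv_mul_cancel₀ hy0, P.ord_one]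
  · rintro ⟨c, hreg, -, H, hH, hne, hord⟩ ⟨i, hi, hlt⟩
    rw [AtInf, Set.mem_singleton_iff] at hH
    rw [hH, aeval_X, Pi.smul_apply, smul_eq_mul] at hne hord
    have hc : c ≠ 0 := left_ne_zero_of_mul hne
    rw [P.ord_mul hc hy0] at hord
    rcases hreg i with h1 | h1
    · exact mul_ne_zero hc hi h1
    · rw [P.ord_mul hc hi] at h1
      omega

theorem logGeneral_inf (hy0 : y 0 ≠ 0) {w : ℕ} : LogGeneral (AtInf n) K w y ↔
    LogGeneralType ℂ K w (OffQ (X 0 : MvPolynomial (Fin (n + 1)) ℂ) 1 y) := by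
  unfold Pool.Agent.N254.SQ.LogGeneral
  have h : (fun P => ¬ ValueNotIn (AtInf n) y P) =
      OffQ (X 0 : MvPolynomial (Fin (n + 1)) ℂ) 1 y := by
    funext P
    exact propext (valueNotIn_inf hy0 P)
  rw [h]

/-- curves given by homogeneous coordinates -/
theorem onCurves_iff {G : MvPolynomial (Fin (n + 1)) ℂ} (hG : IsForm G) :
    OnCurvesQ (Eqs y) (AtInf n) G ↔ ∀ g : ℂ → ℙ ℂ (Fin (n + 1) → ℂ), CurveIn (Aff (Van y)) g →
      ¬ IsConst g → ∀ z, val (g z).rep G = 0 := by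
  obtain ⟨d, hd⟩ := hG
  constructor
  · intro h g hg hgnc z
    obtain ⟨x, hx, hxg⟩ := aff_curve hg
    have h0 : ∀ z, (g z).rep 0 ≠ 0 := fun z => (hg.2 z).2
    have hmem : ∀ z, (Fin.cons 1 (x z) : Fin (n + 1) → ℂ) ≠ 0 := fun z h1 => by
      have := congrFun h1 0
      rw [Fin.cons_zero] at this
      exact one_ne_zero this
    have h1 := h (fun z => (Fin.cons 1 (x z) : Fin (n + 1) → ℂ)) (by
        rw [differentiable_pi]
        intro j
        refine Fin.cases ?_ (fun j => ?_) j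
        · simp only [Fin.cons_zero]
          exact differentiable_const _
        · simp only [Fin.cons_succ]
          exact hx j) hmem (fun z p hp => by
        obtain ⟨⟨e, he⟩, hp0⟩ := hp
        rw [hxg, ev_smul he]
        have h2 := (hg.2 z).1.2 ⟨p, ⟨e, he⟩, hp0⟩
        rw [val_ev] at h2
        change eval (g z).rep p = 0 at h2
        rw [h2, mul_zero]) (fun z => ⟨X 0, rfl, by
        rw [eval_X, Fin.cons_zero]
        exact one_ne_zero⟩)
    rcases h1 with h1 | h1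
    · exfalso
      apply hgnc
      rw [const_iff h0 hxg]
      intro z z'
      obtain ⟨c, hc⟩ := h1 z' z
      have h2 := congrFun hc 0
      rw [Pi.smul_apply, Fin.cons_zero, Fin.cons_zero, smul_eq_mul, mul_one] at h2
      rw [← h2, one_smul] at hc
      exact Fin.cons_right_injective (α := fun _ => ℂ) (1 : ℂ) hc
    · have h2 := h1 z
      rw [hxg, ev_smul hd, mul_eq_zero, or_iff_right (pow_ne_zero _ (inv_ne_zero (h0 z)))] at h2
      rw [val_ev]
      exact h2
  · intro h f hf hf0 hfS hfT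
    by_cases hc : ∀ z w, ∃ c : ℂ, f w = c • f z
    · exact Or.inl hc
    right
    have h0 : ∀ z, f z 0 ≠ 0 := by
      intro z
      obtain ⟨H, hH, hne⟩ := hfT z
      rw [AtInf, Set.mem_singleton_iff] at hH
      rwa [hH, eval_X] at hne
    have hfx : ∀ z, (Fin.cons 1 (fun j : Fin n => f z j.succ / f z 0) : Fin (n + 1) → ℂ) =
        (f z 0)⁻¹ • f z := by
      intro z
      funext j
      rw [Pi.smul_apply, smul_eq_mul]
      refine Fin.cases ?_ (fun j => ?_) j
      · rw [Fin.cons_zero, inv_mul_cancel₀ (h0 z)]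
      · rw [Fin.cons_succ, div_eq_inv_mul]
    obtain ⟨g, hg, hgf⟩ := proj_curve (F := Van y) (fun G hG => hG.1)
      (f := fun z (j : Fin n) => f z j.succ / f z 0)
      (fun j => (differentiable_pi.1 hf j.succ).div (differentiable_pi.1 hf 0) h0) (fun z => by
        rw [hfx]
        refine ⟨⟨smul_ne_zero (inv_ne_zero (h0 z)) (hf0 z), fun i => ?_⟩, ?_⟩
        · obtain ⟨e, he⟩ := i.2.1
          rw [val_ev, ev_smul he]
          change _ * eval (f z) i.1 = 0
          rw [hfS z i.1 ⟨⟨e, he⟩, i.2.2⟩, mul_zero]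
        · rw [Pi.smul_apply, smul_eq_mul, inv_mul_cancel₀ (h0 z)]
          exact one_ne_zero)
    have hg0 : ∀ z, (g z).rep 0 ≠ 0 := fun z => (hg.2 z).2
    have hgnc : ¬ IsConst g := by
      intro hgc
      apply hc
      intro z w
      have h1 := (const_iff hg0 hgf).1 hgc w z
      have h2 : (f w 0)⁻¹ • f w = (f z 0)⁻¹ • f z := by
        rw [← hfx, ← hfx, h1]
      refine ⟨f w 0 * (f z 0)⁻¹, ?_⟩
      rw [mul_smul, ← h2, smul_smul, mul_inv_cancel₀ (h0 w), one_smul]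
    intro z
    have h1 := h g hg hgnc z
    rw [val_ev] at h1
    have h2 := congrArg (fun v => eval v G) (hgf z)
    rw [hfx, ev_smul hd, ev_smul hd, h1, mul_zero, mul_eq_zero,
      or_iff_right (pow_ne_zero _ (inv_ne_zero (h0 z)))] at h2
    exact h2

theorem onCurves_iff' {G : MvPolynomial (Fin (n + 1)) ℂ} (hG : IsForm G) :
    OnCurvesQ (Eqs y) (AtInf n) G ↔ ∀ g : ℂ → ℙ ℂ (Fin (n + 1) → ℂ),
      CurveIn {x | x ∈ VarPts ℂ y ∧ x 0 ≠ 0} g → ¬ IsConst g → ∀ z, val (g z).rep G = 0 := by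
  rw [onCurves_iff hG, aff_eq]

/-- preimages of the exponential map near the essential singularity -/
theorem exp_seq {ζ : ℂ} (hζ : ζ ≠ 0) {ε : ℝ} (hε : 0 < ε) :
    ∃ w : ℂ, w ∈ ball (0 : ℂ) ε \ {0} ∧ Complex.exp w⁻¹ = ζ := by
  obtain ⟨k, hk⟩ := exists_nat_gt ((ε⁻¹ + ‖Complex.log ζ‖) / (2 * Real.pi))
  have hpi : 0 < 2 * Real.pi := by positivity
  rw [div_lt_iff₀ hpi] at hk
  obtain ⟨v, hv⟩ : ∃ v : ℂ, v = Complex.log ζ + k * (2 * Real.pi * Complex.I) := ⟨_, rfl⟩
  have h1 : ε⁻¹ < ‖v‖ := by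
    have h2 : ‖(k : ℂ) * (2 * Real.pi * Complex.I)‖ = k * (2 * Real.pi) := by
      rw [norm_mul, norm_mul, norm_mul, Complex.norm_I, Complex.norm_natCast, Complex.norm_real,
        Real.norm_of_nonneg Real.pi_pos.le, Complex.norm_ofNat, mul_one]
    have h3 : ‖(k : ℂ) * (2 * Real.pi * Complex.I)‖ ≤ ‖v‖ + ‖Complex.log ζ‖ := by
      have h4 : (k : ℂ) * (2 * Real.pi * Complex.I) = v - Complex.log ζ := by rw [hv]; ring
      rw [h4]
      exact norm_sub_le _ _
    rw [h2] at h3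
    linarith
  have hv0 : v ≠ 0 := by
    rintro rfl
    rw [norm_zero] at h1
    exact absurd h1 (not_lt.2 (inv_pos.2 hε).le)
  refine ⟨v⁻¹, ⟨?_, ?_⟩, ?_⟩
  · rw [mem_ball_zero_iff, norm_inv]
    exact inv_lt_of_inv_lt₀ hε h1
  · rw [Set.mem_singleton_iff]
    exact inv_ne_zero hv0
  · rw [inv_inv, hv, Complex.exp_add, Complex.exp_log hζ, Complex.exp_nat_mul_two_pi_mul_I, mul_one]

theorem curves_of_discs {G : MvPolynomial (Fin (n + 1)) ℂ} (hG : IsForm G)
    (h : OnDiscsQ (Eqs y) (AtInf n) G) : OnCurvesQ (Eqs y) (AtInf n) G := by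
  rw [onCurves_iff hG]
  obtain ⟨d, hd⟩ := hG
  intro g hg hgnc z
  obtain ⟨x, hx, hxg⟩ := aff_curve hg
  have h0 : ∀ z, (g z).rep 0 ≠ 0 := fun z => (hg.2 z).2
  have hcne : ∀ x : Fin n → ℂ, (Fin.cons 1 x : Fin (n + 1) → ℂ) ≠ 0 := fun x h1 => by
    have := congrFun h1 0
    rw [Fin.cons_zero] at this
    exact one_ne_zero this
  obtain ⟨f, hf⟩ : ∃ f : ℂ → Fin (n + 1) → ℂ, f = fun w =>
    (Fin.cons 1 (x (Complex.exp w⁻¹)) : Fin (n + 1) → ℂ) := ⟨_, rfl⟩
  have hdf : ∀ w : ℂ, w ≠ 0 → DifferentiableAt ℂ f w := by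
    intro w hw
    rw [hf, differentiableAt_pi]
    intro j
    refine Fin.cases ?_ (fun j => ?_) j
    · simp only [Fin.cons_zero]
      exact differentiableAt_const _
    · simp only [Fin.cons_succ]
      exact (hx j).differentiableAt.comp w ((Complex.differentiable_exp _).comp w
        (differentiableAt_inv hw))
  have hopen : IsOpen (ball (0 : ℂ) 1 \ {0}) := isOpen_ball.sdiff isClosed_singleton
  have hdo : DifferentiableOn ℂ f (ball 0 1 \ {0}) := fun w hw =>
    (hdf w hw.2).differentiableWithinAt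
  have hfne : ∀ w, f w ≠ 0 := fun w => by
    rw [hf]
    exact hcne _
  have h1 := h f hdo ⟨1 / 2, ⟨by
      rw [mem_ball_zero_iff]
      norm_num, by norm_num⟩, hfne _⟩ (fun w hw => by
    refine ⟨f, hdo.analyticAt (hopen.mem_nhds hw), hfne _,
      Eventually.of_forall fun v => ⟨1, by rw [one_smul]⟩, fun p hp => ?_, X 0, rfl, ?_⟩
    · obtain ⟨⟨e, he⟩, hp0⟩ := hp
      rw [hf]
      change eval (Fin.cons 1 (x _) : Fin (n + 1) → ℂ) p = 0
      rw [hxg, ev_smul he]
      have h2 := (hg.2 (Complex.exp w⁻¹)).1.2 ⟨p, ⟨e, he⟩, hp0⟩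
      rw [val_ev] at h2
      change eval (g _).rep p = 0 at h2
      rw [h2, mul_zero]
    · rw [hf, eval_X]
      change (Fin.cons 1 (x _) : Fin (n + 1) → ℂ) 0 ≠ 0
      rw [Fin.cons_zero]
      exact one_ne_zero)
  rcases h1 with h1 | h1
  · exfalso
    obtain ⟨ε, hε, k, hk, hk0, hkf⟩ := h1
    apply hgnc
    rw [const_iff h0 hxg]
    -- the value at the puncture
    have hkc : ContinuousAt k 0 := (hk.differentiableAt (isOpen_ball.mem_nhds
      (mem_ball_self hε))).continuousAt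
    have hkey : ∀ ζ : ℂ, ζ ≠ 0 → ∀ j : Fin n, k 0 j.succ = x ζ j * k 0 0 := by
      intro ζ hζ j
      have hseq : ∀ m : ℕ, ∃ w : ℂ, w ∈ ball (0 : ℂ) (min ε (1 / (m + 1))) \ {0} ∧
          Complex.exp w⁻¹ = ζ := fun m => exp_seq hζ (lt_min hε (by positivity))
      choose w hw hwζ using hseq
      have hlim : Tendsto w atTop (𝓝 0) := by
        rw [tendsto_zero_iff_norm_tendsto_zero]
        refine squeeze_zero (fun m => norm_nonneg _) (fun m => ?_) tendsto_one_div_add_atTop_nhds_zero_nat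
        exact ((mem_ball_zero_iff.1 (hw m).1).trans_le (min_le_right _ _)).le
      have hkw : Tendsto (fun m => k (w m)) atTop (𝓝 (k 0)) := hkc.tendsto.comp hlim
      have hj : ∀ i, Tendsto (fun m => k (w m) i) atTop (𝓝 (k 0 i)) := fun i =>
        (tendsto_pi_nhds.1 hkw) i
      have heq : ∀ m, k (w m) j.succ = x ζ j * k (w m) 0 := by
        intro m
        obtain ⟨c, hc⟩ := hkf (w m) ⟨ball_subset_ball (min_le_left _ _) (hw m).1, (hw m).2⟩
        rw [hf] at hc
        change (Fin.cons 1 (x (Complex.exp (w m)⁻¹)) : Fin (n + 1) → ℂ) = _ at hc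
        rw [hwζ m] at hc
        have h2 := congrFun hc 0
        have h3 := congrFun hc j.succ
        rw [Fin.cons_zero, Pi.smul_apply, smul_eq_mul] at h2
        rw [Fin.cons_succ, Pi.smul_apply, smul_eq_mul] at h3
        have hc0 : c ≠ 0 := by
          rintro rfl
          rw [zero_mul] at h2
          exact one_ne_zero h2
        apply mul_left_cancel₀ hc0
        rw [← h3]
        linear_combination x ζ j * h2
      exact tendsto_nhds_unique (hj j.succ) (((hj 0).const_mul (x ζ j)).congr fun m => (heq m).symm)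
    have hk00 : k 0 0 ≠ 0 := by
      intro h2
      apply hk0 0 (mem_ball_self hε)
      funext j
      refine Fin.cases h2 (fun j => ?_) j
      rw [hkey 1 one_ne_zero j, h2, mul_zero]
      rfl
    have hxc : ∀ ζ : ℂ, ζ ≠ 0 → x ζ = x 1 := by
      intro ζ hζ
      funext j
      exact mul_right_cancel₀ hk00 ((hkey ζ hζ j).symm.trans (hkey 1 one_ne_zero j))
    have hx0 : x 0 = x 1 := by
      funext j
      have h2 : Tendsto (fun ζ => x ζ j) (𝓝[≠] 0) (𝓝 (x 0 j)) :=
        (hx j).continuous.continuousAt.tendsto.mono_left nhdsWithin_le_nhds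
      have h3 : Tendsto (fun ζ => x ζ j) (𝓝[≠] 0) (𝓝 (x 1 j)) :=
        tendsto_const_nhds.congr' (by
          filter_upwards [self_mem_nhdsWithin] with ζ hζ
          rw [hxc ζ hζ])
      exact tendsto_nhds_unique h2 h3
    have hall : ∀ ζ, x ζ = x 1 := fun ζ => by
      by_cases hζ : ζ = 0
      · rw [hζ, hx0]
      · exact hxc ζ hζ
    intro a b
    rw [hall a, hall b]
  · have hval : ∀ ζ : ℂ, ζ ≠ 0 → eval (Fin.cons 1 (x ζ) : Fin (n + 1) → ℂ) G = 0 := by
      intro ζ hζ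
      obtain ⟨w, hw, hwζ⟩ := exp_seq hζ one_pos
      have h2 := h1 w hw
      rw [hf] at h2
      change eval (Fin.cons 1 (x _) : Fin (n + 1) → ℂ) G = 0 at h2
      rwa [hwζ] at h2
    have hcont : Continuous fun ζ => eval (Fin.cons 1 (x ζ) : Fin (n + 1) → ℂ) G := by
      refine (MvPolynomial.continuous_eval G).comp (continuous_pi fun j => ?_)
      refine Fin.cases ?_ (fun j => ?_) j
      · simp only [Fin.cons_zero]
        exact continuous_const
      · simp only [Fin.cons_succ]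
        exact (hx j).continuous
    have hz : eval (Fin.cons 1 (x z) : Fin (n + 1) → ℂ) G = 0 := by
      by_cases hz0 : z = 0
      · subst hz0
        have h2 : Tendsto (fun ζ => eval (Fin.cons 1 (x ζ) : Fin (n + 1) → ℂ) G) (𝓝[≠] 0)
            (𝓝 (eval (Fin.cons 1 (x 0) : Fin (n + 1) → ℂ) G)) :=
          hcont.continuousAt.tendsto.mono_left nhdsWithin_le_nhds
        have h3 : Tendsto (fun ζ => eval (Fin.cons 1 (x ζ) : Fin (n + 1) → ℂ) G) (𝓝[≠] 0) (𝓝 0) :=
          tendsto_const_nhds.congr' (by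
            filter_upwards [self_mem_nhdsWithin] with ζ hζ
            rw [hval ζ hζ])
        exact tendsto_nhds_unique h2 h3
      · exact hval z hz0
    rw [hxg, ev_smul hd, mul_eq_zero, or_iff_right (pow_ne_zero _ (inv_ne_zero (h0 z)))] at hz
    rw [val_ev]
    exact hz

/-- subvarieties which are not of log general type lie in the closure of the entire curves, if the
surface is of log general type -/
theorem special_of_curves (hy0 : y 0 ≠ 0) (hgen : coords ℂ y = ⊤)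
    (hw : Algebra.trdeg ℂ K = (2 : ℕ)) (hL : LogGeneral (AtInf n) K 2 y)
    {G : MvPolynomial (Fin (n + 1)) ℂ} (hG : IsForm G) (h : OnCurvesQ (Eqs y) (AtInf n) G) :
    OnSpecialQ (Eqs y) (AtInf n) G := by
  intro K1 _ _ w1 y1 hw11 hs hn
  have hy10 := notIn_inf.1 hn
  have hsp : ∀ H : MvPolynomial (Fin (n + 1)) ℂ, IsForm H → val y H = 0 → val y1 H = 0 :=
    fun H hH h0 => hs.mem ⟨H, hH, h0⟩
  by_cases hnl : LogGeneral (AtInf n) K1 w1 y1
  · exact Or.inl hnl
  right
  have hle : w1 ≤ 2 := trdeg_mono hy0 hy10 hs.gen hw hs.dim hsp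
  rcases Nat.lt_or_ge w1 2 with h2 | h2
  · have hw1 : w1 = 1 := by omega
    subst hw1
    obtain ⟨g, hg, hgnc, hrel⟩ := exists_curve hy10 hs.gen hs.dim (fun h3 =>
      hnl ((logGeneral_inf hy10).2 h3))
    rw [onCurves_iff hG] at h
    have hvan : Van y ⊆ Van y1 := fun H hH => ⟨hH.1, hsp H hH.1 hH.2⟩
    exact (hrel G hG).2 (h g ⟨hg.1, fun z => ⟨cone_mono hvan (hg.2 z).1, (hg.2 z).2⟩⟩ hgnc)
  · exfalso
    have hw1 : w1 = 2 := by omega
    subst hw1
    refine hnl ((logGeneral_inf hy10).2 (lgt_same hy0 hgen hy10 hs.gen hs.dim (fun H hH =>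
      ⟨hsp H hH, fun h3 => ?_⟩) ((logGeneral_inf hy0).1 hL)))
    exact spec_dense hs.ne hs.gen hw hs.dim le_rfl hsp hH h3

/-- entire curves lie in the closure of the subvarieties which are not of log general type -/
theorem curves_of_special (hy0 : y 0 ≠ 0) (hgen : coords ℂ y = ⊤)
    (hw : Algebra.trdeg ℂ K = (2 : ℕ)) (hT : OverTorus y)
    {G : MvPolynomial (Fin (n + 1)) ℂ} (hG : IsForm G) (h : OnSpecialQ (Eqs y) (AtInf n) G) :
    OnCurvesQ (Eqs y) (AtInf n) G := by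
  rw [onCurves_iff' hG]
  have hyne : y ≠ 0 := fun h0 => hy0 (congrFun h0 0)
  by_cases hL : LogGeneral (AtInf n) K 2 y
  · intro g hg hgnc
    obtain ⟨h0, h5⟩ := ggl hy0 hgen hw hT
    have h1 := (h5 ((logGeneral_inf hy0).1 hL)).2 g hg hgnc
    obtain ⟨K1, _, _, y1, hy10, hgen1, hw1, hsp, hnl, hW⟩ := h1
    have hy1ne : y1 ≠ 0 := fun h0 => hy10 (congrFun h0 0)
    have h2 := h K1 1 y1 le_rfl ⟨hy1ne, fun p => hsp p.1 p.2.1 p.2.2, hgen1, hw1⟩
      (notIn_inf.2 hy10)
    rw [logGeneral_inf hy10] at h2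
    have h3 : val y1 G = 0 := h2.resolve_left hnl
    have h4 : G ∈ {G : MvPolynomial (Fin (n + 1)) ℂ | IsForm G ∧ ∀ z, val (g z).rep G = 0} := by
      rw [hW]
      exact ⟨hG, h3⟩
    exact h4.2
  · have h2 := h K 2 y (by norm_num) ⟨hyne, fun p => p.2.2, hgen, hw⟩ (notIn_inf.2 hy0)
    have h3 : val y G = 0 := h2.resolve_left hL
    intro g hg _ z
    exact (hg.2 z).1.2 G hG h3

/-- the vanishing of the form `G` defines a proper closed subset of the affine variety `V` with the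
property `Q` -/
def ProperForm (y : Fin (n + 1) → K) (Q : MvPolynomial (Fin (n + 1)) ℂ → Prop) : Prop :=
  ∃ G : MvPolynomial (Fin (n + 1)) ℂ, IsForm G ∧ val y G ≠ 0 ∧ Q G

theorem pseudoBrody_iff : ProperForm y (OnCurvesQ (Eqs y) (AtInf n)) ↔ PseudoBrody y := by
  constructor
  · rintro ⟨G, hG, hyG, h⟩
    exact ⟨G, hG, hyG, (onCurves_iff' hG).1 h⟩
  · rintro ⟨G, hG, hyG, h⟩
    exact ⟨G, hG, hyG, (onCurves_iff' hG).2 h⟩

/-- **The generalized Green-Griffiths-Lang conjecture for affine surfaces over complex tori** -/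
theorem ggl_four (hy0 : y 0 ≠ 0) (hgen : coords ℂ y = ⊤) (hw : Algebra.trdeg ℂ K = (2 : ℕ))
    (hT : OverTorus y) :
    (LogGeneral (AtInf n) K 2 y ↔ ProperForm y (OnSpecialQ (Eqs y) (AtInf n))) ∧
    (LogGeneral (AtInf n) K 2 y → ProperForm y (OnCurvesQ (Eqs y) (AtInf n)) ∧
      ∀ G : MvPolynomial (Fin (n + 1)) ℂ, IsForm G →
        (OnSpecialQ (Eqs y) (AtInf n) G ↔ OnCurvesQ (Eqs y) (AtInf n) G)) ∧
    (ProperForm y (OnDiscsQ (Eqs y) (AtInf n)) → ProperForm y (OnCurvesQ (Eqs y) (AtInf n))) ∧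
    [ProperForm y (OnCurvesQ (Eqs y) (AtInf n)), FinitelySpecial y,
      ¬ GmRuled (Iy y) (X 0)].TFAE := by
  obtain ⟨h0, h5⟩ := ggl hy0 hgen hw hT
  have h23 : FinitelySpecial y ↔ PseudoBrody y := h0.out 2 0
  have h25 : PseudoBrody y ↔ ¬ GmRuled (Iy y) (X 0) := h0.out 0 3
  have h13 : LogGeneral (AtInf n) K 2 y → ProperForm y (OnCurvesQ (Eqs y) (AtInf n)) := fun h =>
    pseudoBrody_iff.2 (h23.1 (h5 ((logGeneral_inf hy0).1 h)))
  refine ⟨⟨fun h => ?_, ?_⟩, fun h => ⟨h13 h, fun G hG => ⟨curves_of_special hy0 hgen hw hT hG,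
    special_of_curves hy0 hgen hw h hG⟩⟩, ?_, ?_⟩
  · obtain ⟨G, hG, hyG, h1⟩ := h13 h
    exact ⟨G, hG, hyG, special_of_curves hy0 hgen hw h hG h1⟩
  · rintro ⟨G, hG, hyG, h⟩
    by_contra hL
    have h2 := h K 2 y (by norm_num) ⟨fun h0 => hy0 (congrFun h0 0), fun p => p.2.2, hgen, hw⟩
      (notIn_inf.2 hy0)
    exact hyG (h2.resolve_left hL)
  · rintro ⟨G, hG, hyG, h⟩
    exact ⟨G, hG, hyG, curves_of_discs hG h⟩
  · rw [pseudoBrody_iff]
    tfae_have 1 ↔ 2 := h23.symm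
    tfae_have 1 ↔ 3 := h25
    tfae_finish

end Pool.Agent.U647.GB
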