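import Pool.Agent.U647.GB.Cst
import Pool.Agent.U647.GB.Rsp
import Pool.Agent.V1153.UG.Spc

/-!
# Affine surfaces with a pencil: the curves of the pencil which are not of log general type
-/

set_option autoImplicit false

open Filter Topology MvPolynomial LinearAlgebra.Projectivization

namespace Pool.Agent.U647.GB

open Pool.Agent.U647.AF
open Pool.Agent.W602.GT (IsForm val Cone SubVar coords VarPts LogGeneralType)
open Pool.Agent.N154.TB (Zeros CurveIn IsConst BrodyHyp)
open Pool.Agent.N154.TT (HolToTorus)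
open Pool.Agent.TH143.HE (gm)
open Pool.Agent.W603.GR (OffQ)
open Pool.Agent.V1153.UG (GmBdd GmThin GmRuled)

variable {n : ℕ} {K : Type} [Field K] [Algebra ℂ K] {y : Fin (n + 1) → K}

theorem aeval_smul2 {R : Type} [CommRing R] [Algebra ℂ R] {d : ℕ} {B : MvPolynomial (Fin (n + 1)) ℂ}
    (hB : B.IsHomogeneous d) (c : R) (x : Fin (n + 1) → R) :
    aeval (fun j => c * x j) B = c ^ d * aeval x B := by
  rw [aeval_def, aeval_def, eval₂_eq', eval₂_eq', Finset.mul_sum]
  refine Finset.sum_congr rfl fun m hm => ?_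
  have h1 : ∑ i, m i = d := by
    have := hB (mem_support_iff.1 hm)
    rw [← this, Finsupp.weight_apply]
    simp [Finsupp.sum_fintype]
  simp only [mul_pow]
  rw [Finset.prod_mul_distrib, Finset.prod_pow_eq_pow_sum, h1]
  ring

/-- the homogeneous prime ideal of the projective variety with generic point `y` -/
noncomputable def Iy (y : Fin (n + 1) → K) : Ideal (MvPolynomial (Fin (n + 1)) ℂ) :=
  RingHom.ker (aeval (fun j => Polynomial.X * Polynomial.C (y j)) :
    MvPolynomial (Fin (n + 1)) ℂ →ₐ[ℂ] Polynomial K)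

theorem Iy_prime : (Iy y).IsPrime := RingHom.ker_isPrime _

theorem val_of_mem {H : MvPolynomial (Fin (n + 1)) ℂ} (h : H ∈ Iy y) : val y H = 0 := by
  have h1 : aeval (fun j => Polynomial.X * Polynomial.C (y j)) H = (0 : Polynomial K) := h
  have h2 : ((Polynomial.aeval (1 : K)).restrictScalars ℂ : Polynomial K →ₐ[ℂ] K)
      (aeval (fun j => Polynomial.X * Polynomial.C (y j)) H) = 0 := by
    rw [h1, map_zero]
  rw [MvPolynomial.comp_aeval_apply] at h2
  have h3 : (fun j => ((Polynomial.aeval (1 : K)).restrictScalars ℂ : Polynomial K →ₐ[ℂ] K)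
      (Polynomial.X * Polynomial.C (y j))) = y := by
    funext j
    simp
  rw [h3] at h2
  exact h2

theorem mem_Iy {H : MvPolynomial (Fin (n + 1)) ℂ} (hH : IsForm H) : H ∈ Iy y ↔ val y H = 0 := by
  refine ⟨val_of_mem, fun h => ?_⟩
  obtain ⟨d, hd⟩ := hH
  change aeval (fun j => Polynomial.X * Polynomial.C (y j)) H = (0 : Polynomial K)
  rw [aeval_smul2 hd]
  have h1 : aeval (fun j => Polynomial.C (y j)) H = Polynomial.C (aeval y H) := by
    have h2 := MvPolynomial.comp_aeval_apply (f := y)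
      ((Polynomial.CAlgHom (R := K) (A := K)).restrictScalars ℂ : K →ₐ[ℂ] Polynomial K) H
    exact h2.symm
  rw [h1]
  change Polynomial.X ^ d * Polynomial.C (val y H) = 0
  rw [h, Polynomial.C_0, mul_zero]

theorem funField (hy0 : y 0 ≠ 0) (hgen : coords ℂ y = ⊤) {w : ℕ} (hw : Algebra.trdeg ℂ K = w) :
    Pool.Agent.TH143.GT.FunField (Iy y) (X 0) K w y where
  sub :=
    { ne := fun h => hy0 (by rw [h]; rfl)
      mem := fun H hH => val_of_mem hH
      off := by
        unfold Pool.Agent.W602.GT.val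
        rwa [aeval_X]
      gen := hgen
      dim := hw }
  mem := fun H hH h => (mem_Iy hH).2 h

/-- affine coordinates -/
theorem val_aff {R : Type} [Field R] [Algebra ℂ R] {x : Fin (n + 1) → R} (h0 : x 0 ≠ 0) {e : ℕ}
    {A : MvPolynomial (Fin (n + 1)) ℂ} (hA : A.IsHomogeneous e) :
    val x A = x 0 ^ e * aeval (fun j : Fin n => x j.succ / x 0)
      (aeval (Fin.cons 1 X : Fin (n + 1) → MvPolynomial (Fin n) ℂ) A) := by
  rw [MvPolynomial.comp_aeval_apply]
  rw [← aeval_smul2 hA]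
  unfold Pool.Agent.W602.GT.val
  congr 2
  funext j
  refine Fin.cases ?_ (fun j => ?_) j
  · simp
  · simp only [Fin.cons_succ, aeval_X]
    field_simp

/-- **The curves of a pencil which are not of log general type** on a surface which is not covered
by images of `G_m` -/
theorem thin_curves (hy0 : y 0 ≠ 0) (hw : Algebra.trdeg ℂ K = (2 : ℕ))
    (hnr : ¬ GmRuled (Iy y) (X 0)) {A1 A2 : MvPolynomial (Fin (n + 1)) ℂ} {e : ℕ}
    (hA1 : A1.IsHomogeneous e) (hA2 : A2.IsHomogeneous e) (hyA2 : val y A2 ≠ 0) :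
    ∃ (G : MvPolynomial (Fin (n + 1)) ℂ) (Z : Set ℂ), IsForm G ∧ val y G ≠ 0 ∧ Z.Finite ∧
      ∀ (K1 : Type) [Field K1] [Algebra ℂ K1] (y1 : Fin (n + 1) → K1), y1 0 ≠ 0 →
        coords ℂ y1 = ⊤ → Algebra.trdeg ℂ K1 = (1 : ℕ) → Van y ⊆ Van y1 →
        ¬ LogGeneralType ℂ K1 1 (OffQ (X 0 : MvPolynomial (Fin (n + 1)) ℂ) 1 y1) →
        ∀ c : ℂ, c ∉ Z → val y1 A2 ≠ 0 → val y1 A1 = algebraMap ℂ K1 c * val y1 A2 →
          val y1 G = 0 := by
  classical
  obtain ⟨a1, ha1⟩ : ∃ a1, a1 = aeval (Fin.cons 1 X : Fin (n + 1) → MvPolynomial (Fin n) ℂ) A1 :=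
    ⟨_, rfl⟩
  obtain ⟨a2, ha2⟩ : ∃ a2, a2 = aeval (Fin.cons 1 X : Fin (n + 1) → MvPolynomial (Fin n) ℂ) A2 :=
    ⟨_, rfl⟩
  have hxa2 : aeval (fun j : Fin n => y j.succ / y 0) a2 ≠ 0 := by
    intro h
    apply hyA2
    rw [val_aff hy0 hA2, ← ha2, h, mul_zero]
  obtain ⟨D, Z, hZ, hrel⟩ := rel_spec hw (fun j : Fin n => y j.succ / y 0) a1 a2 hxa2
  obtain ⟨G, hG, hGI, hGP⟩ := Pool.Agent.V1153.UG.thin_of_not_ruled Iy_prime
    (isHomogeneous_X ℂ (0 : Fin (n + 1))) hnr (2 * D ^ n)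
  refine ⟨G, Z, hG, fun h => hGI ((mem_Iy hG).2 h), hZ, ?_⟩
  intro K1 _ _ y1 hy10 hgen1 hw1 hvan hnl c hc hA2c hA1c
  obtain ⟨t, m, q, ht, hq⟩ := exists_t hy10 hgen1 hw1 hnl
  have ht0 : t ≠ 0 := by
    rintro rfl
    exact ht isAlgebraic_zero
  have hinj : ∀ a b : Polynomial ℂ, Polynomial.aeval t a = Polynomial.aeval t b → a = b :=
    fun a b hab => (transcendental_iff_injective.1 ht) hab
  obtain ⟨v, hv⟩ : ∃ v : Fin n → K1, v = fun j : Fin n => y1 j.succ / y1 0 := ⟨_, rfl⟩
  have hva2 : aeval v a2 ≠ 0 := by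
    intro h
    apply hA2c
    rw [val_aff hy10 hA2, ← ha2, ← hv, h, mul_zero]
  have hva1 : aeval v a1 = algebraMap ℂ K1 c * aeval v a2 := by
    rw [val_aff hy10 hA1, val_aff hy10 hA2, ← ha1, ← ha2, ← hv] at hA1c
    apply mul_left_cancel₀ (pow_ne_zero e hy10)
    rw [hA1c]
    ring
  have hspec : ∀ G : MvPolynomial (Fin n) ℂ, aeval (fun j : Fin n => y j.succ / y 0) G = 0 →
      aeval v G = 0 := by
    intro G hG
    have h1 : hmg G ∈ Van y := ⟨⟨_, hmg_form G⟩, by
      change aeval y (hmg G) = 0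
      rw [hmg_aeval hy0, hG, mul_zero]⟩
    have h2 : aeval y1 (hmg G) = 0 := (hvan h1).2
    rw [hmg_aeval hy10, ← hv] at h2
    exact (mul_eq_zero.1 h2).resolve_left (pow_ne_zero _ hy10)
  obtain ⟨p, hp⟩ := bounded_param (v := v) (by rw [hv]; exact gen_of_coords hy10 hgen1) ht
    (q := fun j => q j.succ) (m := m) (fun j => by rw [hv]; exact hq j.succ) (D := D)
    (hrel K1 v hspec c hc hva2 hva1)
  obtain ⟨N, hN⟩ : ∃ N, N = D ^ n := ⟨_, rfl⟩
  obtain ⟨P, hP⟩ : ∃ P : Fin (n + 1) → Polynomial ℂ, P = Fin.cons (Polynomial.X ^ N) p := ⟨_, rfl⟩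
  have hPt : ∀ j, Polynomial.aeval t (P j) = (t ^ N / y1 0) * y1 j := by
    intro j
    rw [hP]
    refine Fin.cases ?_ (fun j => ?_) j
    · rw [Fin.cons_zero, map_pow, Polynomial.aeval_X]
      field_simp
    · rw [Fin.cons_succ, ← (hp j).2, hv, hN]
      simp only
      ring
  have hPG : ∀ H : MvPolynomial (Fin (n + 1)) ℂ, IsForm H →
      (aeval P H = 0 ↔ val y1 H = 0) := by
    rintro H ⟨d, hd⟩
    have h1 : Polynomial.aeval t (aeval P H) = (t ^ N / y1 0) ^ d * val y1 H := by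
      rw [MvPolynomial.comp_aeval_apply]
      have h2 : (fun j => Polynomial.aeval t (P j)) = fun j => (t ^ N / y1 0) * y1 j := by
        funext j
        exact hPt j
      change aeval (fun j => Polynomial.aeval t (P j)) H = _
      rw [h2, aeval_smul2 hd]
      rfl
    have h3 : (t ^ N / y1 0) ^ d ≠ 0 := pow_ne_zero _ (div_ne_zero (pow_ne_zero _ ht0) hy10)
    constructor
    · intro h
      rw [h, map_zero] at h1
      exact (mul_eq_zero.1 h1.symm).resolve_left h3
    · intro h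
      rw [h, mul_zero] at h1
      apply hinj
      rw [h1, map_zero]
  have hbd : GmBdd (Iy y) (X 0) (2 * D ^ n) P := by
    refine ⟨fun j => ?_, fun F hF hFh => ?_, ⟨1, N, one_ne_zero, ?_⟩, ?_⟩
    · rw [hP]
      refine Fin.cases ?_ (fun j => ?_) j
      · rw [Fin.cons_zero, Polynomial.natDegree_X_pow, hN]
        omega
      · rw [Fin.cons_succ]
        exact (hp j).1
    · rw [hPG F hFh]
      exact (hvan ⟨hFh, val_of_mem hF⟩).2
    · rw [aeval_X, hP, Fin.cons_zero, Polynomial.C_1, one_mul]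
    · by_contra hcon
      push Not at hcon
      obtain ⟨J, hJ, -⟩ := exists_J (gen_of_coords hy10 hgen1) hw1
      apply hJ.transcendental 0
      have h1 : P (J 0).succ = Polynomial.C ((P (J 0).succ).eval 1) * Polynomial.X ^ N := by
        apply Polynomial.funext
        intro s
        have h2 := hcon s 1 (J 0).succ 0
        rw [hP] at h2
        simp only [Fin.cons_zero, Polynomial.eval_pow, Polynomial.eval_X, one_pow, mul_one] at h2
        rw [Polynomial.eval_mul, Polynomial.eval_C, Polynomial.eval_pow, Polynomial.eval_X, hP, h2]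
        ring
      have h3 := hPt (J 0).succ
      rw [h1, map_mul, Polynomial.aeval_C, map_pow, Polynomial.aeval_X] at h3
      have h4 : y1 (J 0).succ / y1 0 = algebraMap ℂ K1 ((P (J 0).succ).eval 1) := by
        have h5 : t ^ N ≠ 0 := pow_ne_zero _ ht0
        field_simp
        field_simp at h3
        linear_combination -h3
      change IsAlgebraic ℂ (y1 (J 0).succ / y1 0)
      rw [h4]
      exact isAlgebraic_algebraMap _
  have h1 : aeval P G = 0 := by
    apply Polynomial.funext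
    intro s
    rw [Pool.Agent.V1153.UG.eval_aeval, Polynomial.eval_zero]
    exact hGP P hbd s
  exact (hPG G hG).1 h1

end Pool.Agent.U647.GB
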