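import Pool.Agent.U647.GB.Ggl

/-!
# Log general type depends on the forms vanishing at the generic point only
-/

set_option autoImplicit false

open FF MvPolynomial

namespace Pool.Agent.U647.GB

open Pool.Agent.U647.AF
open Pool.Agent.W602.GT (IsForm val coords LogGeneralType IsPluri RegAt LogAt DerReg DerLog Divisorial)
open Pool.Agent.W603.GR (OffQ)

section
variable {K K₁ : Type} [Field K] [Algebra ℂ K] [Field K₁] [Algebra ℂ K₁]

/-- the place of `K` given by a place of `K₁` and an isomorphism -/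
noncomputable def pullPlace (P : Place ℂ K₁) (φ : K ≃ₐ[ℂ] K₁) : Place ℂ K where
  ord z := P.ord (φ z)
  ord_zero := by rw [map_zero, P.ord_zero]
  ord_mul := by
    intro f g hf hg
    rw [map_mul]
    exact P.ord_mul ((_root_.map_ne_zero φ).2 hf) ((_root_.map_ne_zero φ).2 hg)
  ord_add := by
    intro f g hf hg hfg
    rw [map_add]
    exact P.ord_add ((_root_.map_ne_zero φ).2 hf) ((_root_.map_ne_zero φ).2 hg) (by
      rw [← map_add]
      exact (_root_.map_ne_zero φ).2 hfg)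
  ord_const := by
    intro a ha
    rw [AlgEquiv.commutes]
    exact P.ord_const ha
  surj := by
    obtain ⟨t, ht0, ht⟩ := P.surj
    refine ⟨φ.symm t, ?_, ?_⟩
    · exact (_root_.map_ne_zero φ.symm).2 ht0
    · rw [AlgEquiv.apply_symm_apply]
      exact ht

theorem pull_reg (P : Place ℂ K₁) (φ : K ≃ₐ[ℂ] K₁) (z : K) : (pullPlace P φ).Reg z ↔ P.Reg (φ z) := by
  unfold Place.Reg
  rw [map_eq_zero]
  exact Iff.rfl

/-- the derivation of `K` given by a derivation of `K₁` -/
noncomputable def pullDer (φ : K ≃ₐ[ℂ] K₁) (D : Derivation ℂ K₁ K₁) : Derivation ℂ K K :=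
  Derivation.mk' ((φ.symm.toLinearMap.comp (D : K₁ →ₗ[ℂ] K₁)).comp φ.toLinearMap) (by
    intro a b
    change φ.symm (D (φ (a * b))) = a • φ.symm (D (φ b)) + b • φ.symm (D (φ a))
    rw [map_mul, D.leibniz]
    simp only [smul_eq_mul, map_add, map_mul, AlgEquiv.symm_apply_apply])

theorem pullDer_apply (φ : K ≃ₐ[ℂ] K₁) (D : Derivation ℂ K₁ K₁) (z : K) :
    pullDer φ D z = φ.symm (D (φ z)) := rfl

theorem map_pullDer (φ : K ≃ₐ[ℂ] K₁) (D : Derivation ℂ K₁ K₁) (z : K) :
    φ (pullDer φ D z) = D (φ z) := by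
  rw [pullDer_apply, AlgEquiv.apply_symm_apply]

theorem der_sum {A : Type} [Field A] [Algebra ℂ A] {ι : Type} (s : Finset ι)
    (f : ι → Derivation ℂ A A) (z : A) : (∑ k ∈ s, f k) z = ∑ k ∈ s, f k z := by
  classical
  induction s using Finset.induction_on with
  | empty => simp
  | insert a s ha ih => rw [Finset.sum_insert ha, Finset.sum_insert ha, Derivation.add_apply, ih]

theorem lgt_transfer (φ : K ≃ₐ[ℂ] K₁) {w : ℕ} (hw : Algebra.trdeg ℂ K₁ = w)
    {Bd : Place ℂ K → Prop} {Bd₁ : Place ℂ K₁ → Prop} (hBd : ∀ P, Bd (pullPlace P φ) → Bd₁ P)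
    (h : LogGeneralType ℂ K w Bd) : LogGeneralType ℂ K₁ w Bd₁ := by
  obtain ⟨-, N, hN, ω, hpl, hlog, hreg, D, hD, hal⟩ := h
  have hdiv : ∀ P : Place ℂ K₁, Divisorial w P → Divisorial w (pullPlace P φ) := by
    rintro P ⟨u, hu⟩
    refine ⟨fun i => φ.symm (u i), fun F hF => ?_⟩
    have h1 : φ (MvPolynomial.aeval (fun i => φ.symm (u i)) F) = MvPolynomial.aeval u F := by
      have h2 := MvPolynomial.comp_aeval_apply (f := fun i => φ.symm (u i)) φ.toAlgHom F
      refine h2.trans ?_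
      congr 2
      funext i
      exact φ.apply_symm_apply _
    obtain ⟨h2, h3⟩ := hu F hF
    refine ⟨fun h4 => h2 ?_, ?_⟩
    · rw [← h1, h4, map_zero]
    · change P.ord (φ _) = 0
      rw [h1, h3]
  refine ⟨hw, N, hN, fun j D₁ => φ (ω j fun i => pullDer φ (D₁ i)), fun j A D₁ => ?_, ?_, ?_, ?_⟩
  · have h1 : (fun i => pullDer φ (∑ k, A i k • D₁ k)) =
        fun i => ∑ k, (A.map φ.symm) i k • pullDer φ (D₁ k) := by
      funext i
      ext z
      rw [pullDer_apply, der_sum, der_sum, map_sum]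
      refine Finset.sum_congr rfl fun k _ => ?_
      rw [Derivation.smul_apply, Derivation.smul_apply, smul_eq_mul, smul_eq_mul, map_mul,
        Matrix.map_apply, pullDer_apply]
    change φ (ω j fun i => pullDer φ (∑ k, A i k • D₁ k)) = _
    rw [h1, hpl j (A.map φ.symm) fun k => pullDer φ (D₁ k), map_mul, map_pow]
    congr 2
    have h2 : (A.map φ.symm).det = φ.symm A.det := (φ.symm.toRingHom.map_det A).symm
    rw [h2, AlgEquiv.apply_symm_apply]
  · intro P hP j D₁ hD₁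
    rw [← pull_reg]
    refine hlog _ (hdiv P hP) j _ fun i f => ?_
    rw [pull_reg, map_div₀, map_pullDer]
    exact hD₁ i _
  · intro P hP hB j D₁ hD₁
    rw [← pull_reg]
    refine hreg _ (hdiv P hP) (fun h2 => hB (hBd P h2)) j _ fun i f hf => ?_
    rw [pull_reg] at hf ⊢
    rw [map_pullDer]
    exact hD₁ i _ hf
  · have h1 : ∀ i, pullDer φ (pullDer φ.symm (D i)) = D i := by
      intro i
      ext z
      rw [pullDer_apply, pullDer_apply]
      simp
    refine ⟨fun i => pullDer φ.symm (D i), ?_, ?_⟩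
    · simp only [h1]
      exact (_root_.map_ne_zero φ).2 hD
    · simp only [h1, ← map_div₀]
      exact hal.map' φ.injective (f := φ.toAlgHom)

/-- homomorphisms of a field generated by `x` with given values (copy of `N162.HN.exists_hom`) -/
theorem exists_hom2 {ι : Type} {x : ι → K} {z : ι → K₁}
    (hgen : IntermediateField.adjoin ℂ (Set.range x) = ⊤)
    (h : ∀ P : MvPolynomial ι ℂ, aeval z P = 0 ↔ aeval x P = 0) :
    ∃ σ : K →ₐ[ℂ] K₁, ∀ j, σ (x j) = z j := by
  let e : MvPolynomial ι ℂ →ₐ[ℂ] K := aeval x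
  let f : MvPolynomial ι ℂ →ₐ[ℂ] e.range := e.rangeRestrict
  have hf : Function.Surjective f := e.rangeRestrict_surjective
  let ψ : e.range →ₐ[ℂ] K₁ := AlgHom.liftOfSurjective f hf (aeval z) (by
    intro P hP
    have h1 : aeval x P = 0 := by
      have h2 := congrArg Subtype.val (show f P = 0 from hP)
      exact h2
    exact (h P).2 h1)
  have hψ : ∀ P, ψ (f P) = aeval z P := fun P => AlgHom.liftOfSurjective_apply f hf _ _ P
  have hinj : Function.Injective ψ := by
    rw [injective_iff_map_eq_zero]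
    intro a ha
    obtain ⟨P, rfl⟩ := hf a
    rw [hψ, h] at ha
    exact Subtype.ext ha
  have hfr : IsFractionRing e.range K := by
    refine IsFractionRing.of_field _ _ fun z => ?_
    have h1 : z ∈ IntermediateField.adjoin ℂ (Set.range x) := by rw [hgen]; trivial
    obtain ⟨r, hr, s, hs, hz⟩ := IntermediateField.mem_adjoin_iff_div.1 h1
    rw [Algebra.adjoin_range_eq_range_aeval] at hr hs
    exact ⟨⟨r, hr⟩, ⟨s, hs⟩, hz⟩
  refine ⟨IsFractionRing.liftAlgHom (K := K) hinj, fun j => ?_⟩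
  have h1 : x j = algebraMap e.range K (f (X j)) := by
    change x j = aeval x (X j)
    rw [aeval_X]
  rw [h1, IsFractionRing.liftAlgHom_apply, IsFractionRing.lift_algebraMap]
  exact (hψ (X j)).trans (aeval_X _ _)

/-- isomorphisms -/
theorem exists_iso {ι : Type} {x : ι → K} {z : ι → K₁}
    (hgen : IntermediateField.adjoin ℂ (Set.range x) = ⊤)
    (hgen₁ : IntermediateField.adjoin ℂ (Set.range z) = ⊤)
    (h : ∀ P : MvPolynomial ι ℂ, aeval z P = 0 ↔ aeval x P = 0) :
    ∃ φ : K ≃ₐ[ℂ] K₁, ∀ j, φ (x j) = z j := by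
  obtain ⟨σ, hσ⟩ := exists_hom2 hgen h
  have hsur : Function.Surjective σ := by
    have h1 : (⊤ : IntermediateField ℂ K₁) ≤ σ.fieldRange := by
      rw [← hgen₁, IntermediateField.adjoin_le_iff]
      rintro _ ⟨j, rfl⟩
      exact ⟨x j, hσ j⟩
    intro b
    exact h1 (IntermediateField.mem_top (x := b))
  exact ⟨AlgEquiv.ofBijective σ ⟨σ.toRingHom.injective, hsur⟩, hσ⟩

end

/-- log general type depends on the forms vanishing at the generic point only -/
theorem lgt_same {n : ℕ} {K K₁ : Type} [Field K] [Algebra ℂ K] [Field K₁] [Algebra ℂ K₁]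
    {y : Fin (n + 1) → K} {y₁ : Fin (n + 1) → K₁} (hy0 : y 0 ≠ 0) (hgen : coords ℂ y = ⊤)
    (hy₁ : y₁ 0 ≠ 0) (hgen₁ : coords ℂ y₁ = ⊤) {w : ℕ} (hw₁ : Algebra.trdeg ℂ K₁ = w)
    (h : ∀ G : MvPolynomial (Fin (n + 1)) ℂ, IsForm G → (val y G = 0 ↔ val y₁ G = 0))
    (hL : LogGeneralType ℂ K w (OffQ (X 0 : MvPolynomial (Fin (n + 1)) ℂ) 1 y)) :
    LogGeneralType ℂ K₁ w (OffQ (X 0 : MvPolynomial (Fin (n + 1)) ℂ) 1 y₁) := by
  obtain ⟨φ, hφ⟩ := exists_iso (gen_of_coords hy0 hgen) (gen_of_coords hy₁ hgen₁) (fun P => by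
    have h1 : val y (hmg P) = 0 ↔ aeval (fun j : Fin n => y j.succ / y 0) P = 0 := by
      change aeval y (hmg P) = 0 ↔ _
      rw [hmg_aeval hy0, mul_eq_zero, or_iff_right (pow_ne_zero _ hy0)]
    have h2 : val y₁ (hmg P) = 0 ↔ aeval (fun j : Fin n => y₁ j.succ / y₁ 0) P = 0 := by
      change aeval y₁ (hmg P) = 0 ↔ _
      rw [hmg_aeval hy₁, mul_eq_zero, or_iff_right (pow_ne_zero _ hy₁)]
    rw [← h1, ← h2]
    exact (h _ ⟨_, hmg_form P⟩).symm)
  have hφ' : ∀ j : Fin (n + 1), φ (y j / y 0) = y₁ j / y₁ 0 := by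
    intro j
    refine Fin.cases ?_ (fun j => hφ j) j
    rw [div_self hy0, div_self hy₁, map_one]
  refine lgt_transfer φ hw₁ (fun P hP => ?_) hL
  obtain ⟨i, hi, hlt⟩ := hP
  have hv : ∀ {R : Type} [Field R] [Algebra ℂ R] (x : Fin (n + 1) → R),
      val x (X 0 : MvPolynomial (Fin (n + 1)) ℂ) = x 0 := by
    intro R _ _ x
    unfold Pool.Agent.W602.GT.val
    rw [aeval_X]
  rw [hv, Nat.cast_one, one_mul] at hlt
  have h1 : (pullPlace P φ).ord (y i / y 0) < 0 := by
    rw [Place.ord_div _ hi hy0]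
    omega
  change P.ord (φ (y i / y 0)) < 0 at h1
  rw [hφ'] at h1
  have hi₁ : y₁ i ≠ 0 := by
    intro h0
    rw [h0, zero_div, P.ord_zero] at h1
    exact lt_irrefl _ h1
  rw [Place.ord_div _ hi₁ hy₁] at h1
  refine ⟨i, hi₁, ?_⟩
  rw [hv, Nat.cast_one, one_mul]
  omega

end Pool.Agent.U647.GB
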